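import Pool.Agent.Run7.h442.BA.Stm
import Pool.Agent.Run7.h442.BA.Alg

/-! Project BA, piece C1: bounds on the torus (`S_CSL`). -/

set_option autoImplicit false
set_option linter.unusedSectionVars false

open scoped BigOperators Matrix
open MeasureTheory

namespace Pool.Agent.Run7.h225.BA_C1

open Pool.Agent.Run7.h442.BA
open Pool.Agent.W792.LL (cay)
open Pool.Agent.W788.BK (PP nsq nsq_nonneg nsq_eq nsq_smul cs_star cs_norm adjoint nsq_eq_zero
  nsq_star)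
open Pool.Agent.W788.MFP.Four (T e NN adj e_comm e_add_left e_add e_zero e_neg e_neg_left
  e_normSq sum_e NN_pos card_T ft q)

variable {d L : ℕ} [NeZero L]

theorem cay_norm (v : ℝ) : ‖cay v‖ = 1 := by
  unfold cay
  have h : (v : ℂ) - Complex.I = (starRingEnd ℂ) ((v : ℂ) + Complex.I) := by
    rw [map_add, Complex.conj_ofReal, Complex.conj_I]; ring
  have h0 : ((v : ℂ) + Complex.I) ≠ 0 := by
    intro h1
    have := congrArg Complex.im h1
    simp at this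
  rw [norm_div, h, RCLike.norm_conj, div_self (norm_ne_zero_iff.2 h0)]

theorem cay_cont : Continuous cay := by
  unfold cay
  refine Continuous.div (by fun_prop) (by fun_prop) fun v h => ?_
  have := congrArg Complex.im h
  simp at this

/-- orthonormality of the site vectors -/
theorem pv_av (y z : T d L) : pv (av z) y = if y = z then 1 else 0 := by
  unfold pv dotProduct
  have h1 : ∀ k : T d L, star (av y) k * av z k = (((NN d L)⁻¹ : ℝ) : ℂ) * e k (z - y) := by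
    intro k
    unfold av
    rw [Pi.star_apply, star_mul', RCLike.star_def, Complex.conj_ofReal, ← sq_inv,
      sub_eq_add_neg, e_add, e_neg]
    ring
  simp only [h1]
  rw [← Finset.mul_sum, sum_e]
  have hN : (NN d L : ℂ) ≠ 0 := by exact_mod_cast (NN_pos (d := d) (L := L)).ne'
  by_cases h : y = z
  · rw [if_pos (sub_eq_zero.2 h.symm), if_pos h]
    push_cast
    exact inv_mul_cancel₀ hN
  · rw [if_neg (sub_ne_zero.2 (Ne.symm h)), if_neg h, mul_zero]

theorem CL_mulVec (V : T d L → ℝ) (u : T d L → ℂ) :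
    CL V *ᵥ u = ∑ y, (cay (V y) * pv u y) • av y := by
  unfold CL
  rw [Matrix.sum_mulVec]
  refine Finset.sum_congr rfl fun y _ => ?_
  rw [Matrix.smul_mulVec, AY_mulVec, smul_smul]

theorem pv_CL (V : T d L → ℝ) (u : T d L → ℂ) (y : T d L) :
    pv (CL V *ᵥ u) y = cay (V y) * pv u y := by
  rw [CL_mulVec]
  have h : pv (∑ z, (cay (V z) * pv u z) • av z) y = ∑ z, (cay (V z) * pv u z) * pv (av z) y := by
    unfold pv
    rw [dotProduct_sum]
    exact Finset.sum_congr rfl fun z _ => by rw [dotProduct_smul, smul_eq_mul]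
  rw [h, Finset.sum_eq_single y]
  · rw [pv_av, if_pos rfl, mul_one]
  · intro z _ hz
    rw [pv_av, if_neg (Ne.symm hz), mul_zero]
  · intro h
    exact absurd (Finset.mem_univ y) h

theorem nsq_CL (V : T d L → ℝ) (u : T d L → ℂ) : nsq (CL V *ᵥ u) = nsq u := by
  rw [← parseval_sq, ← parseval_sq]
  exact Finset.sum_congr rfl fun y _ => by rw [pv_CL, norm_mul, cay_norm, one_mul]

/-- the norm -/
noncomputable def nr (u : T d L → ℂ) : ℝ := ‖(WithLp.toLp 2 u : EuclideanSpace ℂ (T d L))‖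

theorem nr_sq (u : T d L → ℂ) : nr u ^ 2 = nsq u := by
  unfold nr nsq
  rw [EuclideanSpace.norm_sq_eq]

theorem nr_nonneg (u : T d L → ℂ) : 0 ≤ nr u := norm_nonneg _

theorem nr_eq_sqrt (u : T d L → ℂ) : nr u = Real.sqrt (nsq u) := by
  rw [← nr_sq, Real.sqrt_sq (nr_nonneg u)]

theorem nr_add (u w : T d L → ℂ) : nr (u + w) ≤ nr u + nr w := by
  unfold nr
  rw [WithLp.toLp_add]
  exact norm_add_le _ _

theorem nr_sub_ge (u w : T d L → ℂ) : nr u - nr w ≤ nr (u - w) := by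
  unfold nr
  rw [WithLp.toLp_sub]
  exact norm_sub_norm_le _ _

theorem nr_CL (V : T d L → ℝ) (u : T d L → ℂ) : nr (CL V *ᵥ u) = nr u := by
  rw [nr_eq_sqrt, nr_eq_sqrt, nsq_CL]

theorem nr_coord (u : T d L → ℂ) (k : T d L) : ‖u k‖ ≤ nr u := by
  rw [nr_eq_sqrt]
  refine Real.le_sqrt_of_sq_le ?_
  unfold nsq
  exact Finset.single_le_sum (f := fun i => ‖u i‖ ^ 2) (fun i _ => sq_nonneg _) (Finset.mem_univ k)

theorem nr_diag {m : T d L → ℂ} {q : ℝ} (hq : 0 ≤ q) (hm : ∀ k, ‖m k‖ ≤ q) (u : T d L → ℂ) :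
    nr (Matrix.diagonal m *ᵥ u) ≤ q * nr u := by
  rw [nr_eq_sqrt]
  refine Real.sqrt_le_iff.2 ⟨mul_nonneg hq (nr_nonneg u), ?_⟩
  rw [mul_pow, nr_sq]
  unfold nsq
  rw [Finset.mul_sum]
  refine Finset.sum_le_sum fun k _ => ?_
  rw [Matrix.mulVec_diagonal, norm_mul, mul_pow]
  exact mul_le_mul_of_nonneg_right (pow_le_pow_left₀ (norm_nonneg _) (hm k) 2) (sq_nonneg _)

theorem nr_single (k : T d L) : nr (Pi.single k (1 : ℂ)) = 1 := by
  classical
  rw [nr_eq_sqrt]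
  have : nsq (Pi.single k (1 : ℂ) : T d L → ℂ) = 1 := by
    unfold nsq
    rw [Finset.sum_eq_single k]
    · simp
    · intro j _ hj
      rw [Pi.single_eq_of_ne hj]
      simp
    · intro h
      exact absurd (Finset.mem_univ k) h
  rw [this, Real.sqrt_one]

theorem nr_zero_iff {u : T d L → ℂ} (h : nr u = 0) : u = 0 := by
  apply nsq_eq_zero
  rw [← nr_sq, h]
  norm_num

section one

variable {m : T d L → ℂ} {q : ℝ}

theorem low (hq : 0 ≤ q) (hm : ∀ k, ‖m k‖ ≤ q) (V : T d L → ℝ) (u : T d L → ℂ) :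
    (1 - q) * nr u ≤ nr ((1 - Matrix.diagonal m * CL V) *ᵥ u) := by
  rw [Matrix.sub_mulVec, Matrix.one_mulVec, ← Matrix.mulVec_mulVec]
  have h1 := nr_sub_ge u (Matrix.diagonal m *ᵥ (CL V *ᵥ u))
  have h2 := nr_diag hq hm (CL V *ᵥ u)
  rw [nr_CL] at h2
  linarith

theorem unit_m (hq : 0 ≤ q) (hq1 : q < 1) (hm : ∀ k, ‖m k‖ ≤ q) (V : T d L → ℝ) :
    IsUnit (1 - Matrix.diagonal m * CL V) := by
  rw [← Matrix.mulVec_injective_iff_isUnit]
  intro u w huw
  have h1 : (1 - Matrix.diagonal m * CL V) *ᵥ (u - w) = 0 := by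
    rw [Matrix.mulVec_sub]
    exact sub_eq_zero.2 huw
  have h2 := low hq hm V (u - w)
  rw [h1] at h2
  have h3 : nr (0 : T d L → ℂ) = 0 := by unfold nr; simp
  rw [h3] at h2
  have h4 := nr_nonneg (u - w)
  have h5 : nr (u - w) = 0 := by
    by_contra h
    have h6 : 0 < nr (u - w) := lt_of_le_of_ne h4 (Ne.symm h)
    have : 0 < (1 - q) * nr (u - w) := mul_pos (by linarith) h6
    linarith
  exact sub_eq_zero.1 (nr_zero_iff h5)

/-- the resolvent -/
noncomputable def Rm (m : T d L → ℂ) (V : T d L → ℝ) : Matrix (T d L) (T d L) ℂ :=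
  (1 - Matrix.diagonal m * CL V)⁻¹

theorem mul_Rm (hq : 0 ≤ q) (hq1 : q < 1) (hm : ∀ k, ‖m k‖ ≤ q) (V : T d L → ℝ) :
    (1 - Matrix.diagonal m * CL V) * Rm m V = 1 :=
  Matrix.mul_nonsing_inv _ ((Matrix.isUnit_iff_isUnit_det _).1 (unit_m hq hq1 hm V))

theorem Rm_mul (hq : 0 ≤ q) (hq1 : q < 1) (hm : ∀ k, ‖m k‖ ≤ q) (V : T d L → ℝ) :
    Rm m V * (1 - Matrix.diagonal m * CL V) = 1 :=
  Matrix.nonsing_inv_mul _ ((Matrix.isUnit_iff_isUnit_det _).1 (unit_m hq hq1 hm V))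

theorem Rm_bd (hq : 0 ≤ q) (hq1 : q < 1) (hm : ∀ k, ‖m k‖ ≤ q) (V : T d L → ℝ) (w : T d L → ℂ) :
    nr (Rm m V *ᵥ w) ≤ nr w / (1 - q) := by
  have h1 := low hq hm V (Rm m V *ᵥ w)
  rw [Matrix.mulVec_mulVec, mul_Rm hq hq1 hm, Matrix.one_mulVec] at h1
  rw [le_div_iff₀ (by linarith)]
  linarith

theorem entry (M : Matrix (T d L) (T d L) ℂ) (k : T d L) :
    M k k = (M *ᵥ Pi.single k (1 : ℂ)) k := by
  rw [Matrix.mulVec_single_one]
  rfl

/-- the integrand -/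
theorem F_bd (hq : 0 ≤ q) (hq1 : q < 1) (hm : ∀ k, ‖m k‖ ≤ q) (V : T d L → ℝ) (k : T d L) :
    ‖(CL V * Rm m V) k k‖ ≤ 1 / (1 - q) := by
  rw [entry (CL V * Rm m V), ← Matrix.mulVec_mulVec]
  refine (nr_coord _ k).trans ?_
  rw [nr_CL]
  refine (Rm_bd hq hq1 hm V _).trans ?_
  rw [nr_single]

theorem F_disc (hq : 0 ≤ q) (hq1 : q < 1) (hm : ∀ k, ‖m k‖ ≤ q) (V : T d L → ℝ) (k : T d L) :
    ‖(CL V * Rm m V) k k‖ ≤ ‖1 + m k * (CL V * Rm m V) k k‖ := by
  rw [entry (CL V * Rm m V)]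
  set u := Rm m V *ᵥ (Pi.single k (1 : ℂ)) with hu
  have hv : (CL V * Rm m V) *ᵥ Pi.single k (1 : ℂ) = CL V *ᵥ u := by
    rw [hu, Matrix.mulVec_mulVec]
  rw [hv]
  set v := CL V *ᵥ u with hv'
  have h1 : u = Pi.single k (1 : ℂ) + Matrix.diagonal m *ᵥ v := by
    have h2 := congrArg (fun M => M *ᵥ (Pi.single k (1 : ℂ))) (mul_Rm hq hq1 hm V)
    simp only [← Matrix.mulVec_mulVec, Matrix.one_mulVec, Matrix.sub_mulVec] at h2
    rw [← hu, ← hv'] at h2
    rw [← h2]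
    abel
  have h2 : nsq v = nsq u := nsq_CL V u
  have h3 : nsq v = ‖v k‖ ^ 2 + ∑ j ∈ Finset.univ.erase k, ‖v j‖ ^ 2 := by
    exact (Finset.add_sum_erase _ (fun j => ‖v j‖ ^ 2) (Finset.mem_univ k)).symm
  have h4 : nsq u = ‖u k‖ ^ 2 + ∑ j ∈ Finset.univ.erase k, ‖u j‖ ^ 2 := by
    exact (Finset.add_sum_erase _ (fun j => ‖u j‖ ^ 2) (Finset.mem_univ k)).symm
  have h5 : u k = 1 + m k * v k := by
    rw [h1, Pi.add_apply, Matrix.mulVec_diagonal, Pi.single_eq_same]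
  have h6 : ∑ j ∈ Finset.univ.erase k, ‖u j‖ ^ 2 ≤ ∑ j ∈ Finset.univ.erase k, ‖v j‖ ^ 2 := by
    refine Finset.sum_le_sum fun j hj => ?_
    have h7 : u j = m j * v j := by
      rw [h1, Pi.add_apply, Matrix.mulVec_diagonal, Pi.single_eq_of_ne (Finset.ne_of_mem_erase hj),
        zero_add]
    rw [h7, norm_mul]
    have h8 : ‖m j‖ * ‖v j‖ ≤ 1 * ‖v j‖ :=
      mul_le_mul_of_nonneg_right ((hm j).trans hq1.le) (norm_nonneg _)
    rw [one_mul] at h8
    exact pow_le_pow_left₀ (by positivity) h8 2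
  have h9 : ‖v k‖ ^ 2 ≤ ‖1 + m k * v k‖ ^ 2 := by
    rw [← h5]
    linarith
  exact (pow_le_pow_iff_left₀ (norm_nonneg _) (norm_nonneg _) two_ne_zero).1 h9

theorem CL_cont : Continuous (CL : (T d L → ℝ) → Matrix (T d L) (T d L) ℂ) := by
  unfold CL
  refine continuous_finsetSum _ fun y _ => ?_
  exact (cay_cont.comp (continuous_apply y)).smul continuous_const

theorem Rm_cont (hq : 0 ≤ q) (hq1 : q < 1) (hm : ∀ k, ‖m k‖ ≤ q) :
    Continuous (Rm m : (T d L → ℝ) → Matrix (T d L) (T d L) ℂ) := by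
  unfold Rm
  have h1 : Continuous fun V : T d L → ℝ => (1 - Matrix.diagonal m * CL V) :=
    continuous_const.sub (continuous_const.matrix_mul CL_cont)
  have h2 : ∀ V : T d L → ℝ, (1 - Matrix.diagonal m * CL V)⁻¹ =
      ((1 - Matrix.diagonal m * CL V).det)⁻¹ • (1 - Matrix.diagonal m * CL V).adjugate := by
    intro V
    rw [Matrix.inv_def, Ring.inverse_eq_inv']
  simp only [h2]
  refine Continuous.smul (Continuous.inv₀ h1.matrix_det fun V => ?_) h1.matrix_adjugate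
  exact ((Matrix.isUnit_iff_isUnit_det _).1 (unit_m hq hq1 hm V)).ne_zero

instance (ν : Measure ℝ) [IsProbabilityMeasure ν] : IsProbabilityMeasure (PP (T d L) ν) := by
  unfold PP; infer_instance

theorem F_cont (hq : 0 ≤ q) (hq1 : q < 1) (hm : ∀ k, ‖m k‖ ≤ q) (k : T d L) :
    Continuous fun V : T d L → ℝ => (CL V * Rm m V) k k :=
  (CL_cont.matrix_mul (Rm_cont hq hq1 hm)).matrix_elem k k

theorem F_int (ν : Measure ℝ) [IsProbabilityMeasure ν] (hq : 0 ≤ q) (hq1 : q < 1)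
    (hm : ∀ k, ‖m k‖ ≤ q) (k : T d L) :
    Integrable (fun V : T d L → ℝ => (CL V * Rm m V) k k) (PP (T d L) ν) := by
  refine Integrable.of_bound (F_cont hq hq1 hm k).aestronglyMeasurable (1 / (1 - q)) ?_
  exact Filter.Eventually.of_forall fun V => F_bd hq hq1 hm V k

theorem csL_eq (ν : Measure ℝ) (m : T d L → ℂ) (k : T d L) :
    csL ν m k = ∫ V, (CL V * Rm m V) k k ∂(PP (T d L) ν) := rfl

end one

theorem conv_disc {μ : ℂ} (hμ : ‖μ‖ < 1) : Convex ℝ {v : ℂ | ‖v‖ ≤ ‖1 + μ * v‖} := by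
  have key : ∀ v : ℂ, ‖v‖ ≤ ‖1 + μ * v‖ ↔ (1 - ‖μ‖ ^ 2) * ‖v‖ ^ 2 ≤ 1 + 2 * (μ * v).re := by
    intro v
    rw [← pow_le_pow_iff_left₀ (norm_nonneg _) (norm_nonneg _) two_ne_zero]
    have h1 : ‖1 + μ * v‖ ^ 2 = 1 + 2 * (μ * v).re + ‖μ‖ ^ 2 * ‖v‖ ^ 2 := by
      rw [← mul_pow, ← norm_mul, ← Complex.normSq_eq_norm_sq, ← Complex.normSq_eq_norm_sq,
        Complex.normSq_apply, Complex.normSq_apply, Complex.add_re, Complex.add_im, Complex.one_re,
        Complex.one_im]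
      ring
    rw [h1]
    constructor <;> intro h <;> linarith
  intro x hx y hy a b ha hb hab
  rw [Set.mem_ofPred_eq, key] at hx hy ⊢
  have hμ2 : 0 ≤ 1 - ‖μ‖ ^ 2 := by
    have := norm_nonneg μ
    nlinarith
  have h1 : ‖a • x + b • y‖ ^ 2 ≤ a * ‖x‖ ^ 2 + b * ‖y‖ ^ 2 := by
    have h2 : ‖a • x + b • y‖ ≤ a * ‖x‖ + b * ‖y‖ := by
      refine (norm_add_le _ _).trans ?_
      rw [norm_smul, norm_smul, Real.norm_of_nonneg ha, Real.norm_of_nonneg hb]
    have h3 : ‖a • x + b • y‖ ^ 2 ≤ (a * ‖x‖ + b * ‖y‖) ^ 2 :=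
      pow_le_pow_left₀ (norm_nonneg _) h2 2
    refine h3.trans ?_
    have hb' : b = 1 - a := by linarith
    subst hb'
    nlinarith [mul_nonneg (mul_nonneg ha hb) (sq_nonneg (‖x‖ - ‖y‖))]
  have h4 : (μ * (a • x + b • y)).re = a * (μ * x).re + b * (μ * y).re := by
    rw [mul_add, mul_smul_comm, mul_smul_comm, Complex.add_re, Complex.smul_re, Complex.smul_re,
      smul_eq_mul, smul_eq_mul]
  rw [h4]
  calc (1 - ‖μ‖ ^ 2) * ‖a • x + b • y‖ ^ 2 ≤ (1 - ‖μ‖ ^ 2) * (a * ‖x‖ ^ 2 + b * ‖y‖ ^ 2) :=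
        mul_le_mul_of_nonneg_left h1 hμ2
    _ = a * ((1 - ‖μ‖ ^ 2) * ‖x‖ ^ 2) + b * ((1 - ‖μ‖ ^ 2) * ‖y‖ ^ 2) := by ring
    _ ≤ a * (1 + 2 * (μ * x).re) + b * (1 + 2 * (μ * y).re) :=
        add_le_add (mul_le_mul_of_nonneg_left hx ha) (mul_le_mul_of_nonneg_left hy hb)
    _ = 1 + 2 * (a * (μ * x).re + b * (μ * y).re) := by
        have hb' : b = 1 - a := by linarith
        subst hb'
        ring

theorem csL_disc (ν : Measure ℝ) [IsProbabilityMeasure ν] {m : T d L → ℂ} {q : ℝ} (hq : 0 ≤ q)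
    (hq1 : q < 1) (hm : ∀ k, ‖m k‖ ≤ q) (k : T d L) :
    ‖csL ν m k‖ ≤ ‖1 + m k * csL ν m k‖ := by
  have h1 : csL ν m k ∈ {v : ℂ | ‖v‖ ≤ ‖1 + m k * v‖} := by
    rw [csL_eq]
    refine (conv_disc ((hm k).trans_lt hq1)).integral_mem ?_ ?_ (F_int ν hq hq1 hm k)
    · exact isClosed_le continuous_norm (by fun_prop)
    · exact Filter.Eventually.of_forall fun V => F_disc hq hq1 hm V k
  exact h1

theorem half_le {c μ : ℂ} (hμ : ‖μ‖ ≤ 1) (h : ‖c‖ ≤ ‖1 + μ * c‖) : 1 / 2 ≤ ‖1 + μ * c‖ := by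
  have h1 : (1 : ℝ) ≤ ‖1 + μ * c‖ + ‖μ * c‖ := by
    have h2 := norm_sub_le (1 + μ * c) (μ * c)
    rwa [add_sub_cancel_right, norm_one] at h2
  rw [norm_mul] at h1
  have h3 : ‖μ‖ * ‖c‖ ≤ 1 * ‖c‖ := mul_le_mul_of_nonneg_right hμ (norm_nonneg _)
  linarith

theorem main : S_CSL := by
  intro d L _ ν _ m m' q e₀ hq hq1 hm hm' he
  refine ⟨fun k => ?_, fun k => ?_, fun k => ?_, fun k => ?_⟩
  · rw [csL_eq]
    refine (norm_integral_le_of_norm_le_const (C := 1 / (1 - q))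
      (Filter.Eventually.of_forall fun V => F_bd hq hq1 hm V k)).trans ?_
    rw [probReal_univ, mul_one]
  · rw [csL_eq, csL_eq, ← integral_sub (F_int ν hq hq1 hm k) (F_int ν hq hq1 hm' k)]
    have he0 : 0 ≤ e₀ := (norm_nonneg _).trans (he k)
    have h1 : ∀ V : T d L → ℝ, ‖(CL V * Rm m V) k k - (CL V * Rm m' V) k k‖ ≤
        e₀ / (1 - q) ^ 2 := by
      intro V
      have h2 : CL V * Rm m V - CL V * Rm m' V =
          CL V * Rm m V * (Matrix.diagonal (m - m') * CL V) * Rm m' V := by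
        have h3 : Matrix.diagonal (m - m') * CL V =
            (1 - Matrix.diagonal m' * CL V) - (1 - Matrix.diagonal m * CL V) := by
          have h8 : Matrix.diagonal (m - m') = Matrix.diagonal m - Matrix.diagonal m' := by
            rw [Matrix.diagonal_sub]
            rfl
          rw [h8, sub_mul]
          abel
        rw [h3, mul_assoc (CL V * Rm m V), sub_mul, mul_Rm hq hq1 hm', mul_sub, mul_one,
          mul_assoc (CL V) (Rm m V), ← mul_assoc (Rm m V), Rm_mul hq hq1 hm, one_mul]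
      have h3 : (CL V * Rm m V) k k - (CL V * Rm m' V) k k =
          (CL V * Rm m V - CL V * Rm m' V) k k := rfl
      rw [h3, h2, entry (CL V * Rm m V * (Matrix.diagonal (m - m') * CL V) * Rm m' V)]
      refine (nr_coord _ k).trans ?_
      rw [← Matrix.mulVec_mulVec, ← Matrix.mulVec_mulVec, ← Matrix.mulVec_mulVec,
        ← Matrix.mulVec_mulVec, nr_CL]
      refine (Rm_bd hq hq1 hm V _).trans ?_
      have h4 := nr_diag (m := m - m') he0 he (CL V *ᵥ (Rm m' V *ᵥ Pi.single k (1 : ℂ)))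
      rw [nr_CL] at h4
      have h5 := Rm_bd hq hq1 hm' V (Pi.single k (1 : ℂ))
      rw [nr_single] at h5
      have h6 : 0 < 1 - q := by linarith
      rw [div_le_div_iff₀ h6 (by positivity)]
      have h7 := h4.trans (mul_le_mul_of_nonneg_left h5 he0)
      calc _ ≤ (e₀ * (1 / (1 - q))) * (1 - q) ^ 2 :=
            mul_le_mul_of_nonneg_right h7 (by positivity)
        _ = e₀ * (1 - q) := by field_simp
    refine (norm_integral_le_of_norm_le_const (C := e₀ / (1 - q) ^ 2)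
      (Filter.Eventually.of_forall h1)).trans ?_
    rw [probReal_univ, mul_one]
  · unfold psL
    rw [norm_div]
    exact div_le_one_of_le₀ (csL_disc ν hq hq1 hm k) (norm_nonneg _)
  · exact half_le ((hm k).trans hq1.le) (csL_disc ν hq hq1 hm k)

end Pool.Agent.Run7.h225.BA_C1
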