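import Pool.Agent.Run7.h225.BA_C1

/-! Project BA, piece C2: lattice and torus for Lipschitz symbols (`S_TRA`). -/

set_option autoImplicit false
set_option linter.unusedSectionVars false

open scoped BigOperators Matrix
open MeasureTheory

namespace Pool.Agent.Run7.h225.BA_C2

open Pool.Agent.Run7.h442.BA Pool.Agent.Run7.h225.BA_C1
open Pool.Agent.W792.LL (cay trig)
open Pool.Agent.W792.WA (cayx psi csym S_PSI)
open Pool.Agent.W788.MFP.Four (T)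

/-- two Moebius images with the same symbol -/
theorem mob_diff {a b μ : ℂ} (hμ : ‖μ‖ ≤ 1) (ha : ‖a‖ ≤ ‖1 + μ * a‖) (hb : ‖b‖ ≤ ‖1 + μ * b‖) :
    ‖a / (1 + μ * a) - b / (1 + μ * b)‖ ≤ 4 * ‖a - b‖ := by
  have h1 := half_le hμ ha
  have h2 := half_le hμ hb
  have n1 : 1 + μ * a ≠ 0 := by
    intro h; rw [h, norm_zero] at h1; linarith
  have n2 : 1 + μ * b ≠ 0 := by
    intro h; rw [h, norm_zero] at h2; linarith
  have e1 : a / (1 + μ * a) - b / (1 + μ * b) = (a - b) / ((1 + μ * a) * (1 + μ * b)) := by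
    rw [div_sub_div _ _ n1 n2]
    congr 1
    ring
  rw [e1, norm_div, norm_mul, div_le_iff₀ (by positivity)]
  have h3 : (1 : ℝ) / 4 ≤ ‖1 + μ * a‖ * ‖1 + μ * b‖ := by nlinarith
  nlinarith [norm_nonneg (a - b)]

/-- two Moebius images with different symbols -/
theorem mob_diff' {a b μ μ' : ℂ} (hμ : ‖μ‖ ≤ 1) (hμ' : ‖μ'‖ ≤ 1) (ha : ‖a‖ ≤ ‖1 + μ * a‖)
    (hb : ‖b‖ ≤ ‖1 + μ' * b‖) :
    ‖a / (1 + μ * a) - b / (1 + μ' * b)‖ ≤ 4 * ‖a - b‖ + ‖μ - μ'‖ := by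
  have h1 := half_le hμ ha
  have h2 := half_le hμ' hb
  have n1 : 1 + μ * a ≠ 0 := by
    intro h; rw [h, norm_zero] at h1; linarith
  have n2 : 1 + μ' * b ≠ 0 := by
    intro h; rw [h, norm_zero] at h2; linarith
  have e1 : a / (1 + μ * a) - b / (1 + μ' * b) =
      (a - b) / ((1 + μ * a) * (1 + μ' * b)) -
        (a / (1 + μ * a)) * (b / (1 + μ' * b)) * (μ - μ') := by
    rw [div_mul_div_comm, div_sub_div _ _ n1 n2]
    rw [div_mul_eq_mul_div, ← sub_div]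
    congr 1
    ring
  rw [e1]
  refine (norm_sub_le _ _).trans (add_le_add ?_ ?_)
  · rw [norm_div, norm_mul, div_le_iff₀ (by positivity)]
    have h3 : (1 : ℝ) / 4 ≤ ‖1 + μ * a‖ * ‖1 + μ' * b‖ := by nlinarith
    nlinarith [norm_nonneg (a - b)]
  · rw [norm_mul, norm_mul, norm_div, norm_div]
    have h3 : ‖a‖ / ‖1 + μ * a‖ ≤ 1 := div_le_one_of_le₀ ha (norm_nonneg _)
    have h4 : ‖b‖ / ‖1 + μ' * b‖ ≤ 1 := div_le_one_of_le₀ hb (norm_nonneg _)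
    have h5 : ‖a‖ / ‖1 + μ * a‖ * (‖b‖ / ‖1 + μ' * b‖) ≤ 1 :=
      mul_le_one₀ h3 (by positivity) h4
    calc _ ≤ 1 * ‖μ - μ'‖ := mul_le_mul_of_nonneg_right h5 (norm_nonneg _)
      _ = _ := one_mul _

theorem pow_le {q : ℝ} (hq : 0 ≤ q) (hq1 : q < 1) (N : ℕ) (hN : 1 ≤ N) :
    q ^ N ≤ 1 / (N * (1 - q)) := by
  have hN' : (0 : ℝ) < N := by exact_mod_cast hN
  have h1 : 0 < (N : ℝ) * (1 - q) := mul_pos hN' (by linarith)
  rw [le_div_iff₀ h1]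
  have h2 : ∀ M : ℕ, q ^ M * (1 + M * (1 - q)) ≤ 1 := by
    intro M
    induction M with
    | zero => simp
    | succ M ih =>
      have h3 : 0 ≤ q ^ M := pow_nonneg hq M
      push_cast
      have h4 : q * (1 + (M + 1) * (1 - q)) ≤ 1 + M * (1 - q) := by
        have : 0 ≤ (1 - q) * ((1 - q) * (M + 1)) := by
          have : (0 : ℝ) ≤ 1 - q := by linarith
          positivity
        nlinarith
      calc q ^ (M + 1) * (1 + (M + 1) * (1 - q)) = q ^ M * (q * (1 + (M + 1) * (1 - q))) := by ring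
        _ ≤ q ^ M * (1 + M * (1 - q)) := mul_le_mul_of_nonneg_left h4 h3
        _ ≤ 1 := ih
  have h3 := h2 N
  have h4 : 0 ≤ q ^ N := pow_nonneg hq N
  nlinarith

theorem q_fact {q : ℝ} (hq : 0 ≤ q) (hq1 : q < 1) :
    (1 - q) ^ 2 ≤ 1 - q ^ 2 ∧ (1 - q) ^ 2 ≤ 1 ∧ 0 < (1 - q) ^ 2 ∧ 0 < 1 - q ^ 2 := by
  refine ⟨by nlinarith, by nlinarith, by nlinarith, by nlinarith⟩

theorem main (hA : S_APX) (hP : S_PER) (hψ : S_PSI) : S_TRA := by
  intro d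
  refine ⟨34 * (144 * d ^ 2 + 2) + 1, 6, by positivity, ?_⟩
  intro L _ ν _ m q Λ τ k₀ j hq hq1 hm hΛ hτ hτ1 hLip hL
  have h1q : 0 < 1 - q := by linarith
  set e₀ : ℝ := τ * (1 - q) ^ 2 / 12 with he₀
  have he₀p : 0 < e₀ := by positivity
  set K : ℝ := (1 + Λ) / (τ * (1 - q)) with hK
  have hτq : 0 < τ * (1 - q) := by positivity
  have hτq1 : τ * (1 - q) ≤ 1 := by nlinarith
  have hK1 : 1 ≤ K := by
    rw [hK, le_div_iff₀ hτq]
    linarith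
  -- the range of the approximation
  obtain ⟨n, hn⟩ : ∃ n : ℕ, n = ⌈(d * Λ / e₀) ^ 2⌉₊ + 1 := ⟨_, rfl⟩
  have hn1 : 1 ≤ n := by omega
  obtain ⟨f, hf1, hf2, hf3⟩ := hA d m q Λ n hn1 hm hΛ hLip
  have hnR : (d * Λ / e₀) ^ 2 ≤ n := by
    rw [hn]
    push_cast
    linarith [Nat.le_ceil ((d * Λ / e₀) ^ 2)]
  have hf4 : ‖m - trig f‖ ≤ e₀ := by
    refine hf3.trans ?_
    have hnp : (0 : ℝ) < n := by exact_mod_cast hn1
    rw [div_le_iff₀ (Real.sqrt_pos.2 hnp)]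
    have h1 : d * Λ / e₀ ≤ Real.sqrt n := Real.le_sqrt_of_sq_le hnR
    rw [div_le_iff₀ he₀p] at h1
    linarith
  -- the length of the expansion
  obtain ⟨N, hN⟩ : ∃ N : ℕ, N = ⌈16 / (τ * (1 - q) ^ 2)⌉₊ := ⟨_, rfl⟩
  have hN0 : (16 : ℝ) / (τ * (1 - q) ^ 2) ≤ N := by rw [hN]; exact Nat.le_ceil _
  have hNp : (0 : ℝ) < N := lt_of_lt_of_le (by positivity) hN0
  have hN1 : 1 ≤ N := by exact_mod_cast (Nat.cast_pos.1 hNp)
  obtain ⟨J, hJ⟩ : ∃ J : ℕ, N = J + 1 := ⟨N - 1, by omega⟩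
  -- sizes
  have hK2 : 1 / (τ * (1 - q) ^ 2) ≤ K ^ 2 := by
    rw [hK, div_pow, div_le_div_iff₀ (by positivity) (by positivity), one_mul, mul_pow]
    have h1 : τ ^ 2 ≤ τ := by nlinarith
    have h2 : 1 ≤ (1 + Λ) ^ 2 := by nlinarith
    have h3 : 0 ≤ (1 - q) ^ 2 := by positivity
    calc τ ^ 2 * (1 - q) ^ 2 ≤ τ * (1 - q) ^ 2 := mul_le_mul_of_nonneg_right h1 h3
      _ = 1 * (τ * (1 - q) ^ 2) := by ring
      _ ≤ (1 + Λ) ^ 2 * (τ * (1 - q) ^ 2) := mul_le_mul_of_nonneg_right h2 (by positivity)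
  have hNK : (N : ℝ) ≤ 17 * K ^ 2 := by
    have h1 := (Nat.ceil_lt_add_one (a := 16 / (τ * (1 - q) ^ 2)) (by positivity)).le
    rw [← hN] at h1
    have h2 : 16 / (τ * (1 - q) ^ 2) = 16 * (1 / (τ * (1 - q) ^ 2)) := by ring
    rw [h2] at h1
    nlinarith
  have hΛK : d * Λ / e₀ ≤ 12 * d * K ^ 2 := by
    have h1 : d * Λ / e₀ = 12 * d * (Λ / (τ * (1 - q) ^ 2)) := by
      rw [he₀]; field_simp
    rw [h1]
    refine mul_le_mul_of_nonneg_left ?_ (by positivity)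
    rw [hK, div_pow, div_le_div_iff₀ (by positivity) (by positivity), mul_pow]
    have h1 : τ ^ 2 ≤ τ := by nlinarith
    have h2 : Λ ≤ (1 + Λ) ^ 2 := by nlinarith
    have h3 : 0 ≤ (1 - q) ^ 2 := by positivity
    calc Λ * (τ ^ 2 * (1 - q) ^ 2) ≤ (1 + Λ) ^ 2 * (τ ^ 2 * (1 - q) ^ 2) :=
          mul_le_mul_of_nonneg_right h2 (by positivity)
      _ ≤ (1 + Λ) ^ 2 * (τ * (1 - q) ^ 2) := by gcongr
  have hnK : (n : ℝ) ≤ (144 * d ^ 2 + 2) * K ^ 4 := by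
    have h1 := (Nat.ceil_lt_add_one (a := (d * Λ / e₀) ^ 2) (by positivity)).le
    have h2 : (n : ℝ) ≤ (d * Λ / e₀) ^ 2 + 2 := by
      rw [hn]; push_cast; linarith
    have h3 : (d * Λ / e₀) ^ 2 ≤ (12 * d * K ^ 2) ^ 2 := pow_le_pow_left₀ (by positivity) hΛK 2
    have h4 : 1 ≤ K ^ 4 := one_le_pow₀ hK1
    calc (n : ℝ) ≤ (12 * d * K ^ 2) ^ 2 + 2 * K ^ 4 := by linarith
      _ = _ := by ring
  have hsize : 2 * n * (J + 1) < L := by
    have h1 : (2 * n * (J + 1) : ℝ) < L := by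
      have h2 : ((J : ℝ) + 1) = N := by rw [hJ]; push_cast; ring
      rw [h2]
      have hK6 : 0 < K ^ 6 := by positivity
      calc (2 * n * N : ℝ) ≤ 2 * ((144 * d ^ 2 + 2) * K ^ 4) * (17 * K ^ 2) := by gcongr
        _ = (34 * (144 * d ^ 2 + 2)) * K ^ 6 := by ring
        _ < (34 * (144 * d ^ 2 + 2) + 1) * K ^ 6 := by
            rw [add_mul, one_mul]; linarith
        _ ≤ L := hL
    exact_mod_cast h1
  -- the four terms
  set k : UnitAddTorus (Fin d) := fun i => k₀ i + ZMod.toAddCircle (j i) with hk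
  obtain ⟨p1, _, p3⟩ := hψ ν d q m (trig f) hq hq1 hm hf2
  obtain ⟨s1, _, _⟩ := hψ ν d q (trig f) m hq hq1 hf2 hm
  have t1 : ‖psi ν m k - psi ν (trig f) k‖ ≤ e₀ / (1 - q) ^ 2 := by
    have h1 : ‖psi ν m k - psi ν (trig f) k‖ ≤ ‖psi ν m - psi ν (trig f)‖ :=
      (psi ν m - psi ν (trig f)).norm_coe_le_norm k
    refine h1.trans (p3.trans ?_)
    obtain ⟨h2, _, h3, _⟩ := q_fact hq hq1
    exact (div_le_div_of_nonneg_left (norm_nonneg _) h3 h2).trans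
      (div_le_div_of_nonneg_right hf4 h3.le)
  obtain ⟨s2, s3, s4, _⟩ := s1 k
  have hμ : ∀ i : T d L, ‖fib (trig f) k₀ i‖ ≤ q := fun i =>
    ((trig f).norm_coe_le_norm _).trans hf2
  have hμ' : ∀ i : T d L, ‖fib m k₀ i‖ ≤ q := fun i => (m.norm_coe_le_norm _).trans hm
  have hμμ : ∀ i : T d L, ‖fib (trig f) k₀ i - fib m k₀ i‖ ≤ e₀ := by
    intro i
    have h1 : ‖(m - trig f) (fun l => k₀ l + ZMod.toAddCircle (i l))‖ ≤ ‖m - trig f‖ :=
      (m - trig f).norm_coe_le_norm _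
    have h2 : fib (trig f) k₀ i - fib m k₀ i =
        -(m - trig f) (fun l => k₀ l + ZMod.toAddCircle (i l)) := by
      unfold fib
      rw [ContinuousMap.sub_apply]
      ring
    rw [h2, norm_neg]
    exact h1.trans hf4
  obtain ⟨_, c2, _, _⟩ := BA_C1.main d L ν (fib (trig f) k₀) (fib m k₀) q e₀ hq hq1 hμ hμ' hμμ
  have hfk : fib (trig f) k₀ j = trig f k := rfl
  have hcs : ‖csym ν (trig f) k‖ ≤ ‖1 + trig f k * csym ν (trig f) k‖ := by
    rw [s3, norm_div, div_le_one (norm_pos_iff.2 s2)] at s4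
    exact s4
  have t2 : ‖psi ν (trig f) k - psL ν (fib (trig f) k₀) j‖ ≤ τ / 2 := by
    rw [s3]
    unfold psL
    rw [hfk]
    have h1 := csL_disc ν hq hq1 hμ j
    rw [hfk] at h1
    have hμ1 : ‖trig f k‖ ≤ 1 := (((trig f).norm_coe_le_norm _).trans hf2).trans hq1.le
    refine (mob_diff hμ1 hcs h1).trans ?_
    have h2 := hP d L ν f q n J k₀ j hf1 hf2 hq1 hsize
    have h3 := pow_le hq hq1 N hN1
    rw [← hJ] at h2
    have h4 : q ^ N ≤ τ * (1 - q) / 16 := by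
      refine h3.trans ?_
      rw [div_le_div_iff₀ (by positivity) (by norm_num)]
      rw [div_le_iff₀ (by positivity)] at hN0
      nlinarith
    calc 4 * ‖csym ν (trig f) k - csL ν (fib (trig f) k₀) j‖ ≤ 4 * (2 * q ^ N / (1 - q)) :=
          mul_le_mul_of_nonneg_left h2 (by norm_num)
      _ ≤ 4 * (2 * (τ * (1 - q) / 16) / (1 - q)) := by gcongr
      _ = τ / 2 := by field_simp; ring
  have t3 : ‖psL ν (fib (trig f) k₀) j - psL ν (fib m k₀) j‖ ≤ 4 * (e₀ / (1 - q) ^ 2) + e₀ := by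
    unfold psL
    refine (mob_diff' ((hμ j).trans hq1.le) ((hμ' j).trans hq1.le) (csL_disc ν hq hq1 hμ j)
      (csL_disc ν hq hq1 hμ' j)).trans ?_
    exact add_le_add (mul_le_mul_of_nonneg_left (c2 j) (by norm_num)) (hμμ j)
  have t4 : e₀ ≤ e₀ / (1 - q) ^ 2 := by
    rw [le_div_iff₀ (by positivity)]
    obtain ⟨_, h2, _, _⟩ := q_fact hq hq1
    exact mul_le_of_le_one_right he₀p.le h2
  have t5 : e₀ / (1 - q) ^ 2 = τ / 12 := by
    rw [he₀]; field_simp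
  rw [t5] at t1 t3 t4
  have t6 : ‖psi ν m k - psL ν (fib m k₀) j‖ ≤ ‖psi ν m k - psi ν (trig f) k‖ +
      ‖psi ν (trig f) k - psL ν (fib (trig f) k₀) j‖ +
      ‖psL ν (fib (trig f) k₀) j - psL ν (fib m k₀) j‖ := by
    have : psi ν m k - psL ν (fib m k₀) j = (psi ν m k - psi ν (trig f) k) +
      (psi ν (trig f) k - psL ν (fib (trig f) k₀) j) +
      (psL ν (fib (trig f) k₀) j - psL ν (fib m k₀) j) := by ring
    rw [this]
    exact norm_add₃_le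
  linarith

end Pool.Agent.Run7.h225.BA_C2
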