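import Pool.Agent.Run7.h225.BA_C1

/-! Project BA, piece C3: phases and self-energies on the torus (`S_CYL`). -/

set_option autoImplicit false
set_option linter.unusedSectionVars false

open scoped BigOperators Matrix
open MeasureTheory

namespace Pool.Agent.Run7.h225.BA_C3

open Pool.Agent.Run7.h442.BA Pool.Agent.Run7.h225.BA_C1
open Pool.Agent.W792.LL (cay)
open Pool.Agent.W792.WA (cayx)
open Pool.Agent.W788.BK (PP nsq nsq_nonneg nsq_eq nsq_smul cs_star cs_norm adjoint nsq_eq_zero
  nsq_star)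
open Pool.Agent.W788.MFP.Four (T e NN adj e_comm e_add_left e_add e_zero e_neg e_neg_left
  e_normSq sum_e NN_pos card_T ft q)

variable {d L : ℕ} [NeZero L]

/-- functions of the position -/
noncomputable def FM (f : T d L → ℂ) : Matrix (T d L) (T d L) ℂ := ∑ y, f y • AY y

theorem FM_mulVec (f : T d L → ℂ) (u : T d L → ℂ) :
    FM f *ᵥ u = ∑ y, (f y * pv u y) • av y := by
  unfold FM
  rw [Matrix.sum_mulVec]
  refine Finset.sum_congr rfl fun y _ => ?_
  rw [Matrix.smul_mulVec, AY_mulVec, smul_smul]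

theorem pv_FM (f : T d L → ℂ) (u : T d L → ℂ) (y : T d L) :
    pv (FM f *ᵥ u) y = f y * pv u y := by
  rw [FM_mulVec]
  have h : pv (∑ z, (f z * pv u z) • av z) y = ∑ z, (f z * pv u z) * pv (av z) y := by
    unfold pv
    rw [dotProduct_sum]
    exact Finset.sum_congr rfl fun z _ => by rw [dotProduct_smul, smul_eq_mul]
  rw [h, Finset.sum_eq_single y]
  · rw [pv_av, if_pos rfl, mul_one]
  · intro z _ hz
    rw [pv_av, if_neg (Ne.symm hz), mul_zero]
  · intro h
    exact absurd (Finset.mem_univ y) h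

theorem pv_ext {u w : T d L → ℂ} (h : ∀ y, pv u y = pv w y) : u = w := by
  funext k
  rw [← expand u k, ← expand w k]
  exact Finset.sum_congr rfl fun y _ => by rw [h]

theorem mat_ext {M N : Matrix (T d L) (T d L) ℂ} (h : ∀ u, M *ᵥ u = N *ᵥ u) : M = N := by
  ext i j
  have := congrFun (h (Pi.single j (1 : ℂ))) i
  rwa [Matrix.mulVec_single_one, Matrix.mulVec_single_one] at this

theorem FM_mul (f g : T d L → ℂ) : FM f * FM g = FM (fun y => f y * g y) := by
  refine mat_ext fun u => pv_ext fun y => ?_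
  rw [← Matrix.mulVec_mulVec, pv_FM, pv_FM, pv_FM, mul_assoc]

theorem FM_one : FM (fun _ => (1 : ℂ)) = (1 : Matrix (T d L) (T d L) ℂ) := by
  refine mat_ext fun u => pv_ext fun y => ?_
  rw [pv_FM, one_mul, Matrix.one_mulVec]

theorem CL_FM (V : T d L → ℝ) : CL V = FM (fun y => cay (V y)) := rfl

theorem VM_FM (V : T d L → ℝ) : VM V = FM (fun y => (V y : ℂ)) := rfl

theorem FM_sub (f g : T d L → ℂ) : FM f - FM g = FM (fun y => f y - g y) := by
  unfold FM
  rw [← Finset.sum_sub_distrib]
  exact Finset.sum_congr rfl fun y _ => by rw [sub_smul]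

theorem FM_add (f g : T d L → ℂ) : FM f + FM g = FM (fun y => f y + g y) := by
  unfold FM
  rw [← Finset.sum_add_distrib]
  exact Finset.sum_congr rfl fun y _ => by rw [add_smul]

theorem FM_smul (c : ℂ) (f : T d L → ℂ) : c • FM f = FM (fun y => c * f y) := by
  unfold FM
  rw [Finset.smul_sum]
  exact Finset.sum_congr rfl fun y _ => by rw [smul_smul]

theorem real_sub_I (v : ℝ) : (v : ℂ) - Complex.I ≠ 0 := by
  intro h
  have := congrArg Complex.im h
  simp at this

theorem CL_mul (V : T d L → ℝ) :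
    CL V * (VM V - Complex.I • 1) = VM V + Complex.I • (1 : Matrix (T d L) (T d L) ℂ) := by
  rw [CL_FM, VM_FM, ← FM_one, FM_smul, FM_sub, FM_mul, FM_add]
  congr 1
  funext y
  rw [mul_one]
  unfold cay
  exact div_mul_cancel₀ _ (real_sub_I _)

theorem VI_inv (V : T d L → ℝ) :
    (VM V - Complex.I • 1) * FM (fun y => ((V y : ℂ) - Complex.I)⁻¹) = 1 := by
  have h : VM V - Complex.I • (1 : Matrix (T d L) (T d L) ℂ) =
      FM (fun y => (V y : ℂ) - Complex.I) := by
    rw [VM_FM, ← FM_one, FM_smul, FM_sub]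
    congr 1
    funext y
    rw [mul_one]
  rw [h, FM_mul, ← FM_one]
  congr 1
  funext y
  exact mul_inv_cancel₀ (real_sub_I _)

section X

variable {X : T d L → ℂ} {c : ℝ}

theorem X_sub_I (hc : 0 < c) (hX : ∀ k, (X k).im ≤ -c) (k : T d L) : X k - Complex.I ≠ 0 := by
  intro h
  have h1 := congrArg Complex.im h
  have h2 := hX k
  simp at h1
  linarith

theorem cayx_lt {x : ℂ} (hx : x.im < 0) : ‖cayx x 0‖ < 1 := by
  unfold cayx
  rw [Complex.ofReal_zero, add_zero, norm_div]
  have h0 : x - Complex.I ≠ 0 := by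
    intro h
    have h1 := congrArg Complex.im h
    simp at h1
    linarith
  rw [div_lt_one (norm_pos_iff.2 h0)]
  refine (pow_lt_pow_iff_left₀ (norm_nonneg _) (norm_nonneg _) two_ne_zero).1 ?_
  rw [← Complex.normSq_eq_norm_sq, ← Complex.normSq_eq_norm_sq, Complex.normSq_apply,
    Complex.normSq_apply]
  simp only [Complex.add_re, Complex.add_im, Complex.sub_re, Complex.sub_im, Complex.I_re,
    Complex.I_im]
  nlinarith

theorem exists_q (hc : 0 < c) (hX : ∀ k, (X k).im ≤ -c) :
    ∃ q : ℝ, 0 ≤ q ∧ q < 1 ∧ ∀ k, ‖cayx (X k) 0‖ ≤ q := by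
  obtain ⟨k₀, hk₀⟩ := Finite.exists_max fun k : T d L => ‖cayx (X k) 0‖
  exact ⟨‖cayx (X k₀) 0‖, norm_nonneg _, cayx_lt (by linarith [hX k₀]), hk₀⟩

/-- the key identity -/
theorem key (hc : 0 < c) (hX : ∀ k, (X k).im ≤ -c) (V : T d L → ℝ) :
    CL V * Rm (fun p => cayx (X p) 0) V = (-2 * Complex.I)⁻¹ •
      (Matrix.diagonal (fun k => X k - Complex.I) - Matrix.diagonal (fun k => X k - Complex.I) *
        GX X V * Matrix.diagonal (fun k => X k - Complex.I)) := by
  obtain ⟨q, hq, hq1, hm⟩ := exists_q hc hX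
  set D := Matrix.diagonal (fun k => X k - Complex.I) with hD
  set P := (-2 * Complex.I)⁻¹ • (D - D * GX X V * D) with hP
  set M := Matrix.diagonal (fun p => cayx (X p) 0) with hM
  have h1 : D * M = Matrix.diagonal X + Complex.I • 1 := by
    rw [hD, hM, Matrix.diagonal_mul_diagonal]
    have : (Complex.I • (1 : Matrix (T d L) (T d L) ℂ)) = Matrix.diagonal (fun _ => Complex.I) := by
      rw [← Matrix.diagonal_one, ← Matrix.diagonal_smul]
      congr 1
      funext k
      simp
    rw [this, Matrix.diagonal_add]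
    congr 1
    funext k
    unfold cayx
    rw [Complex.ofReal_zero, add_zero]
    exact mul_div_cancel₀ _ (X_sub_I hc hX k)
  have hDX : D = Matrix.diagonal X - Complex.I • 1 := by
    have : (Complex.I • (1 : Matrix (T d L) (T d L) ℂ)) = Matrix.diagonal (fun _ => Complex.I) := by
      rw [← Matrix.diagonal_one, ← Matrix.diagonal_smul]
      congr 1
      funext k
      simp
    rw [this, Matrix.diagonal_sub]
  have h2 : D * (1 - M * CL V) * (VM V - Complex.I • 1) = (-2 * Complex.I) • MX X V := by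
    rw [mul_sub D, mul_one, ← mul_assoc D, h1, sub_mul, mul_assoc _ (CL V), CL_mul, hDX, MX_eq]
    simp only [sub_mul, mul_sub, add_mul, mul_add, smul_mul_assoc, mul_smul_comm, one_mul, mul_one,
      smul_add, smul_sub, smul_smul, Complex.I_mul_I, neg_mul, neg_smul]
    have h3 : (2 * Complex.I) = Complex.I + Complex.I := by ring
    rw [h3, add_smul, add_smul]
    abel
  have hI : (-2 * Complex.I) ≠ 0 := by simp
  have h3 : P * (1 - M * CL V) * (VM V - Complex.I • 1) = CL V * (VM V - Complex.I • 1) := by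
    have h4 : P = (-2 * Complex.I)⁻¹ • ((1 - D * GX X V) * D) := by
      rw [hP, sub_mul, one_mul]
    rw [h4, smul_mul_assoc, smul_mul_assoc, mul_assoc (1 - D * GX X V), mul_assoc (1 - D * GX X V),
      h2, mul_smul_comm, smul_smul, inv_mul_cancel₀ hI, one_smul, sub_mul, one_mul, mul_assoc,
      GX_mul hc hX, mul_one, CL_mul, hDX, MX_eq]
    abel
  have h5 : P * (1 - M * CL V) = CL V := by
    have h6 := congrArg (fun N => N * FM (fun y => ((V y : ℂ) - Complex.I)⁻¹)) h3
    rw [mul_assoc, VI_inv, mul_one, mul_assoc (CL V), VI_inv, mul_one] at h6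
    exact h6
  rw [← h5, mul_assoc, mul_Rm hq hq1 hm, mul_one]

theorem G_cont (hc : 0 < c) (hX : ∀ k, (X k).im ≤ -c) (k : T d L) :
    Continuous fun V : T d L → ℝ => GX X V k k := by
  have h1 : Continuous fun V : T d L → ℝ => MX X V := by
    unfold MX
    refine continuous_const.add (continuous_finsetSum _ fun y _ => ?_)
    exact (Complex.continuous_ofReal.comp (continuous_apply y)).smul continuous_const
  have h2 : ∀ V : T d L → ℝ, GX X V = ((MX X V).det)⁻¹ • (MX X V).adjugate := by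
    intro V
    unfold GX
    rw [Matrix.inv_def, Ring.inverse_eq_inv']
  have h3 : Continuous fun V : T d L → ℝ => GX X V := by
    simp only [h2]
    refine Continuous.smul (Continuous.inv₀ h1.matrix_det fun V => ?_) h1.matrix_adjugate
    exact ((Matrix.isUnit_iff_isUnit_det _).1 (isUnit_MX hc hX V)).ne_zero
  exact h3.matrix_elem k k

theorem G_bd (hc : 0 < c) (hX : ∀ k, (X k).im ≤ -c) (V : T d L → ℝ) (k : T d L) :
    ‖GX X V k k‖ ≤ 1 / c := by
  rw [entry (GX X V)]
  refine (nr_coord _ k).trans ?_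
  have h1 := GX_bd hc hX V (Pi.single k (1 : ℂ))
  have h2 : nsq (Pi.single k (1 : ℂ) : T d L → ℂ) = 1 := by
    rw [← nr_sq, nr_single, one_pow]
  rw [h2, mul_one] at h1
  rw [nr_eq_sqrt]
  refine (Real.sqrt_le_sqrt h1).trans ?_
  rw [Real.sqrt_inv, Real.sqrt_sq hc.le, one_div]

theorem G_int (ν : Measure ℝ) [IsProbabilityMeasure ν] (hc : 0 < c) (hX : ∀ k, (X k).im ≤ -c)
    (k : T d L) : Integrable (fun V : T d L → ℝ => GX X V k k) (PP (T d L) ν) := by
  refine Integrable.of_bound (G_cont hc hX k).aestronglyMeasurable (1 / c) ?_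
  exact Filter.Eventually.of_forall fun V => G_bd hc hX V k

theorem G_im (hc : 0 < c) (hX : ∀ k, (X k).im ≤ -c) (V : T d L → ℝ) (k : T d L) :
    0 < (GX X V k k).im := by
  have h1 := ward hc hX V (Pi.single k (1 : ℂ))
  have h2 : star (Pi.single k (1 : ℂ) : T d L → ℂ) ⬝ᵥ (GX X V *ᵥ Pi.single k (1 : ℂ)) =
      GX X V k k := by
    have h3 : star (Pi.single k (1 : ℂ) : T d L → ℂ) = Pi.single k 1 := by
      rw [← Pi.single_star, star_one]
    rw [h3, single_dotProduct, one_mul, Matrix.mulVec_single_one]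
    rfl
  rw [h2] at h1
  rw [h1]
  have h3 : c * nsq (GX X V *ᵥ Pi.single k (1 : ℂ)) ≤
      ∑ j, -(X j).im * ‖(GX X V *ᵥ Pi.single k (1 : ℂ)) j‖ ^ 2 := by
    unfold nsq
    rw [Finset.mul_sum]
    refine Finset.sum_le_sum fun j _ => ?_
    exact mul_le_mul_of_nonneg_right (by linarith [hX j]) (sq_nonneg _)
  refine lt_of_lt_of_le (mul_pos hc ?_) h3
  refine lt_of_le_of_ne (nsq_nonneg _) fun h4 => ?_
  have h5 := nsq_eq_zero _ h4.symm
  have h6 := congrArg (fun u => MX X V *ᵥ u) h5
  rw [Matrix.mulVec_mulVec, mul_GX hc hX, Matrix.one_mulVec, Matrix.mulVec_zero] at h6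
  have h7 := congrFun h6 k
  rw [Pi.single_eq_same] at h7
  exact one_ne_zero h7

theorem gm_im (ν : Measure ℝ) [IsProbabilityMeasure ν] (hc : 0 < c) (hX : ∀ k, (X k).im ≤ -c)
    (k : T d L) : 0 < (gm ν X k).im := by
  have h1 : (gm ν X k).im = ∫ V, (GX X V k k).im ∂(PP (T d L) ν) := by
    unfold gm
    exact ((Complex.imCLM.integral_comp_comm (G_int ν hc hX k)).symm)
  rw [h1, integral_pos_iff_support_of_nonneg (fun V => (G_im hc hX V k).le)]
  · have h2 : Function.support (fun V : T d L → ℝ => (GX X V k k).im) = Set.univ := by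
      refine Set.eq_univ_of_forall fun V => ?_
      exact (G_im hc hX V k).ne'
    rw [h2, measure_univ]
    exact one_pos
  · exact (G_int ν hc hX k).im

/-- the averaged identity -/
theorem csL_gm (ν : Measure ℝ) [IsProbabilityMeasure ν] (hc : 0 < c) (hX : ∀ k, (X k).im ≤ -c)
    (k : T d L) : csL ν (fun p => cayx (X p) 0) k =
      (-2 * Complex.I)⁻¹ * ((X k - Complex.I) * (1 - (X k - Complex.I) * gm ν X k)) := by
  rw [csL_eq]
  have h1 : ∀ V : T d L → ℝ, (CL V * Rm (fun p => cayx (X p) 0) V) k k =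
      (-2 * Complex.I)⁻¹ * (X k - Complex.I) -
        ((-2 * Complex.I)⁻¹ * (X k - Complex.I) ^ 2) * GX X V k k := by
    intro V
    rw [key hc hX V, Matrix.smul_apply, Matrix.sub_apply, Matrix.mul_diagonal,
      Matrix.diagonal_mul, Matrix.diagonal_apply_eq, smul_eq_mul]
    ring
  simp only [h1]
  rw [integral_sub (integrable_const _) ((G_int ν hc hX k).const_mul _), integral_const,
    integral_const_mul, probReal_univ, one_smul]
  unfold gm
  ring

end X

theorem main : S_CYL := by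
  intro d L _ ν _ X c hc hX k
  obtain ⟨q, hq, hq1, hm⟩ := exists_q hc hX
  have hg0 : gm ν X k ≠ 0 := by
    intro h
    have h1 := gm_im ν hc hX k
    rw [h] at h1
    simp at h1
  have hXk := X_sub_I hc hX k
  have hI : (-2 * Complex.I) ≠ 0 := by simp
  have hc1 := csL_gm ν hc hX k
  set g := gm ν X k with hg
  set cc := csL ν (fun p => cayx (X p) 0) k with hcc
  have hmk : cayx (X k) 0 = (X k + Complex.I) / (X k - Complex.I) := by
    unfold cayx
    rw [Complex.ofReal_zero, add_zero]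
  have h2 : 1 + cayx (X k) 0 * cc =
      (-2 * Complex.I)⁻¹ * ((X k - Complex.I) * (1 - (X k + Complex.I) * g)) := by
    rw [hc1, hmk]
    field_simp
    ring_nf
    try rw [Complex.I_sq]
    try ring
  have h3 := csL_disc ν hq hq1 hm k
  rw [← hcc, h2, hc1, norm_mul, norm_mul, norm_mul, norm_mul] at h3
  have h4 : 0 < ‖(-2 * Complex.I)⁻¹‖ := norm_pos_iff.2 (inv_ne_zero hI)
  have h5 : 0 < ‖X k - Complex.I‖ := norm_pos_iff.2 hXk
  have h6 : ‖1 - (X k - Complex.I) * g‖ ≤ ‖1 - (X k + Complex.I) * g‖ :=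
    le_of_mul_le_mul_left (le_of_mul_le_mul_left h3 h4) h5
  have e1 : 1 - (X k - Complex.I) * g = g * (sm ν X k + Complex.I) := by
    unfold sm
    rw [← hg]
    field_simp
    ring
  have e2 : 1 - (X k + Complex.I) * g = g * (sm ν X k - Complex.I) := by
    unfold sm
    rw [← hg]
    field_simp
    ring
  rw [e1, e2, norm_mul, norm_mul] at h6
  have h7 : ‖sm ν X k + Complex.I‖ ≤ ‖sm ν X k - Complex.I‖ :=
    le_of_mul_le_mul_left h6 (norm_pos_iff.2 hg0)
  have h8 : (sm ν X k).im ≤ 0 := by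
    have h9 := pow_le_pow_left₀ (norm_nonneg _) h7 2
    rw [← Complex.normSq_eq_norm_sq, ← Complex.normSq_eq_norm_sq, Complex.normSq_apply,
      Complex.normSq_apply] at h9
    simp only [Complex.add_re, Complex.add_im, Complex.sub_re, Complex.sub_im, Complex.I_re,
      Complex.I_im] at h9
    nlinarith
  refine ⟨hg0, h8, ?_⟩
  unfold psL
  rw [← hcc, h2, hc1, e1, e2]
  have h10 : sm ν X k - Complex.I ≠ 0 := by
    intro h
    have h11 := congrArg Complex.im h
    simp at h11
    linarith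
  unfold cayx
  rw [Complex.ofReal_zero, add_zero]
  field_simp

end Pool.Agent.Run7.h225.BA_C3
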