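import Pool.Agent.Run7.h225.Field

set_option autoImplicit false

namespace Run7.h225

noncomputable instance CurveMaps.addCommGroup (M : CurveMaps) (g : ℕ) (S : Type) :
    AddCommGroup (M.H g S) := Module.addCommMonoidToAddCommGroup ℚ

lemma Stable.option {g : ℕ} {S : Type} (h : Stable g S) : Stable g (Option S) := by
  obtain ⟨hf, h⟩ := h
  refine ⟨inferInstance, ?_⟩
  rw [Finite.card_option]
  omega

lemma Stable.congr {g : ℕ} {S T : Type} (h : Stable g S) (e : S ≃ T) : Stable g T := by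
  obtain ⟨hf, h⟩ := h
  exact ⟨Finite.of_equiv S e, by rwa [← Nat.card_congr e]⟩

lemma Stable.of_embedding {g : ℕ} {S T : Type} [Finite S] (i : T ↪ S) (h : Stable g T) :
    Stable g S := by
  refine ⟨inferInstance, ?_⟩
  have := Nat.card_le_card_of_injective i i.injective
  have := h.2
  omega

lemma Stable.sum {g₁ g₂ g : ℕ} (h : g₁ + g₂ = g) {S T : Type} (h₁ : Stable g₁ (Option S))
    (h₂ : Stable g₂ (Option T)) : Stable g (S ⊕ T) := by
  obtain ⟨f₁, h₁⟩ := h₁
  obtain ⟨f₂, h₂⟩ := h₂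
  have : Finite S := Finite.of_injective _ (Option.some_injective S)
  have : Finite T := Finite.of_injective _ (Option.some_injective T)
  refine ⟨inferInstance, ?_⟩
  rw [Finite.card_option] at h₁ h₂
  rw [Nat.card_sum]
  omega

lemma stable_fin {g n : ℕ} : Stable g (Fin n) ↔ 2 < 2 * g + n := by
  unfold Stable
  rw [Nat.card_fin]
  exact ⟨fun h => h.2, fun h => ⟨inferInstance, h⟩⟩

namespace CurveHomology

variable {M : CurveMaps} (hM : CurveHomology M)
include hM

/-- Forgetting markings as a linear map. -/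
def forgetₗ {g : ℕ} {S T : Type} (i : T ↪ S) : M.H g S →ₗ[ℚ] M.H g T :=
  (hM.linearity.1 g S T i).mk' _

/-- Gluing as a bilinear map. -/
def glueₗ {g₁ g₂ g : ℕ} (h : g₁ + g₂ = g) {S T : Type} :
    M.H g₁ (Option S) →ₗ[ℚ] M.H g₂ (Option T) →ₗ[ℚ] M.H g (S ⊕ T) :=
  LinearMap.mk₂ ℚ (fun a b => M.glue h a b)
    (fun a a' b => (hM.linearity.2.1 g₁ g₂ g h S T b).map_add a a')
    (fun c a b => (hM.linearity.2.1 g₁ g₂ g h S T b).map_smul c a)
    (fun a b b' => (hM.linearity.2.2.1 g₁ g₂ g h S T a).map_add b b')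
    (fun c a b => (hM.linearity.2.2.1 g₁ g₂ g h S T a).map_smul c b)

/-- Self-gluing as a linear map. -/
def selfGlueₗ {g g' : ℕ} (h : g + 1 = g') {S : Type} :
    M.H g (Option (Option S)) →ₗ[ℚ] M.H g' S :=
  (hM.linearity.2.2.2.1 g g' h S).mk' _

/-- The push-forward to a point as a linear map. -/
def augₗ {g : ℕ} {S : Type} : M.H g S →ₗ[ℚ] ℚ := (hM.linearity.2.2.2.2 g S).mk' _

lemma forget_add {g : ℕ} {S T : Type} (i : T ↪ S) (a b : M.H g S) :
    M.forget i (a + b) = M.forget i a + M.forget i b := (hM.linearity.1 g S T i).map_add a b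

lemma forget_smul {g : ℕ} {S T : Type} (i : T ↪ S) (c : ℚ) (a : M.H g S) :
    M.forget i (c • a) = c • M.forget i a := (hM.linearity.1 g S T i).map_smul c a

lemma forget_zero {g : ℕ} {S T : Type} (i : T ↪ S) : M.forget i (0 : M.H g S) = 0 :=
  (hM.linearity.1 g S T i).map_zero

lemma relabel_add {g : ℕ} {S T : Type} (e : S ≃ T) (a b : M.H g S) :
    M.relabel e (a + b) = M.relabel e a + M.relabel e b := hM.forget_add _ a b

lemma relabel_smul {g : ℕ} {S T : Type} (e : S ≃ T) (c : ℚ) (a : M.H g S) :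
    M.relabel e (c • a) = c • M.relabel e a := hM.forget_smul _ c a

lemma relabel_zero {g : ℕ} {S T : Type} (e : S ≃ T) : M.relabel e (0 : M.H g S) = 0 :=
  hM.forget_zero _

lemma relabel_neg {g : ℕ} {S T : Type} (e : S ≃ T) (a : M.H g S) :
    M.relabel e (-a) = -M.relabel e a := (hM.forgetₗ e.symm.toEmbedding).map_neg a

lemma glue_add_left {g₁ g₂ g : ℕ} (h : g₁ + g₂ = g) {S T : Type} (a a' : M.H g₁ (Option S))
    (b : M.H g₂ (Option T)) : M.glue h (a + a') b = M.glue h a b + M.glue h a' b :=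
  (hM.linearity.2.1 g₁ g₂ g h S T b).map_add a a'

lemma glue_add_right {g₁ g₂ g : ℕ} (h : g₁ + g₂ = g) {S T : Type} (a : M.H g₁ (Option S))
    (b b' : M.H g₂ (Option T)) : M.glue h a (b + b') = M.glue h a b + M.glue h a b' :=
  (hM.linearity.2.2.1 g₁ g₂ g h S T a).map_add b b'

lemma glue_smul_left {g₁ g₂ g : ℕ} (h : g₁ + g₂ = g) {S T : Type} (c : ℚ)
    (a : M.H g₁ (Option S)) (b : M.H g₂ (Option T)) : M.glue h (c • a) b = c • M.glue h a b :=
  (hM.linearity.2.1 g₁ g₂ g h S T b).map_smul c a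

lemma glue_smul_right {g₁ g₂ g : ℕ} (h : g₁ + g₂ = g) {S T : Type} (c : ℚ)
    (a : M.H g₁ (Option S)) (b : M.H g₂ (Option T)) : M.glue h a (c • b) = c • M.glue h a b :=
  (hM.linearity.2.2.1 g₁ g₂ g h S T a).map_smul c b

lemma glue_neg_left {g₁ g₂ g : ℕ} (h : g₁ + g₂ = g) {S T : Type} (a : M.H g₁ (Option S))
    (b : M.H g₂ (Option T)) : M.glue h (-a) b = -M.glue h a b := by
  have := congrArg (fun f => f b) ((hM.glueₗ h (S := S) (T := T)).map_neg a)
  exact this

lemma glue_zero_left {g₁ g₂ g : ℕ} (h : g₁ + g₂ = g) {S T : Type} (b : M.H g₂ (Option T)) :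
    M.glue h (0 : M.H g₁ (Option S)) b = 0 := (hM.linearity.2.1 g₁ g₂ g h S T b).map_zero

lemma glue_zero_right {g₁ g₂ g : ℕ} (h : g₁ + g₂ = g) {S T : Type} (a : M.H g₁ (Option S)) :
    M.glue h a (0 : M.H g₂ (Option T)) = 0 := (hM.linearity.2.2.1 g₁ g₂ g h S T a).map_zero

lemma selfGlue_zero {g g' : ℕ} (h : g + 1 = g') {S : Type} :
    M.selfGlue h (0 : M.H g (Option (Option S))) = 0 :=
  (hM.linearity.2.2.2.1 g g' h S).map_zero

lemma aug_zero {g : ℕ} {S : Type} : M.aug (0 : M.H g S) = 0 :=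
  (hM.linearity.2.2.2.2 g S).map_zero

lemma aug_smul {g : ℕ} {S : Type} (c : ℚ) (a : M.H g S) : M.aug (c • a) = c * M.aug a :=
  (hM.linearity.2.2.2.2 g S).map_smul c a

lemma aug_add {g : ℕ} {S : Type} (a b : M.H g S) : M.aug (a + b) = M.aug a + M.aug b :=
  (hM.linearity.2.2.2.2 g S).map_add a b

lemma relabel_refl {g : ℕ} {S : Type} (a : M.H g S) : M.relabel (Equiv.refl S) a = a :=
  hM.forget_functorial.1 g S a

lemma forget_forget {g : ℕ} {S T U : Type} (i : T ↪ S) (j : U ↪ T) (a : M.H g S) :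
    M.forget j (M.forget i a) = M.forget (j.trans i) a :=
  (hM.forget_functorial.2 g S T U i j a).symm

lemma relabel_relabel {g : ℕ} {S T U : Type} (e : S ≃ T) (f : T ≃ U) (a : M.H g S) :
    M.relabel f (M.relabel e a) = M.relabel (e.trans f) a := by
  unfold CurveMaps.relabel
  rw [hM.forget_forget]
  rfl

lemma relabel_symm_relabel {g : ℕ} {S T : Type} (e : S ≃ T) (a : M.H g S) :
    M.relabel e.symm (M.relabel e a) = a := by
  rw [hM.relabel_relabel, Equiv.self_trans_symm, hM.relabel_refl]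

lemma relabel_relabel_symm {g : ℕ} {S T : Type} (e : S ≃ T) (a : M.H g T) :
    M.relabel e (M.relabel e.symm a) = a := by
  rw [hM.relabel_relabel, Equiv.symm_trans_self, hM.relabel_refl]

lemma eq_zero_of_not_stable {g : ℕ} {S : Type} (h : ¬ Stable g S) (a : M.H g S) : a = 0 := by
  have := hM.vanishing g S h
  exact Subsingleton.elim _ _

lemma forget_deg {g : ℕ} {S T : Type} (i : T ↪ S) {d : ℕ} {a : M.H g S}
    (ha : a ∈ M.deg g S d) : M.forget i a ∈ M.deg g T d :=
  hM.degree_additive.1 g S T i d a ha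

lemma relabel_deg {g : ℕ} {S T : Type} (e : S ≃ T) {d : ℕ} {a : M.H g S}
    (ha : a ∈ M.deg g S d) : M.relabel e a ∈ M.deg g T d := hM.forget_deg _ ha

lemma glue_deg {g₁ g₂ g : ℕ} (h : g₁ + g₂ = g) {S T : Type} {p q : ℕ}
    {a : M.H g₁ (Option S)} {b : M.H g₂ (Option T)} (ha : a ∈ M.deg g₁ (Option S) p)
    (hb : b ∈ M.deg g₂ (Option T) q) : M.glue h a b ∈ M.deg g (S ⊕ T) (p + q) :=
  hM.degree_additive.2.1 g₁ g₂ g h S T p q a b ha hb

lemma selfGlue_deg {g g' : ℕ} (h : g + 1 = g') {S : Type} {d : ℕ}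
    {a : M.H g (Option (Option S))} (ha : a ∈ M.deg g (Option (Option S)) d) :
    M.selfGlue h a ∈ M.deg g' S d :=
  hM.degree_additive.2.2 g g' h S d a ha

lemma relabel_glue {g₁ g₂ g : ℕ} (h : g₁ + g₂ = g) {S T S' T' : Type} (e : S ≃ S')
    (f : T ≃ T') (a : M.H g₁ (Option S)) (b : M.H g₂ (Option T)) :
    M.glue h (M.relabel (Equiv.optionCongr e) a) (M.relabel (Equiv.optionCongr f) b) =
      M.relabel (Equiv.sumCongr e f) (M.glue h a b) := by
  by_cases ha : Stable g₁ (Option S')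
  · by_cases hb : Stable g₂ (Option T')
    · have := hM.glue_forget g₁ g₂ g h S T S' T' e.symm.toEmbedding f.symm.toEmbedding a b ha hb
      have e1 : (Equiv.optionCongr e).symm.toEmbedding = e.symm.toEmbedding.optionMap := by
        ext o
        rcases o with _ | s <;> rfl
      have e2 : (Equiv.optionCongr f).symm.toEmbedding = f.symm.toEmbedding.optionMap := by
        ext o
        rcases o with _ | s <;> rfl
      have e3 : (Equiv.sumCongr e f).symm.toEmbedding =
          e.symm.toEmbedding.sumMap f.symm.toEmbedding := by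
        ext o
        rcases o with s | s <;> rfl
      unfold CurveMaps.relabel
      rw [e1, e2, e3, this]
    · have hb' : ¬ Stable g₂ (Option T) := fun h => hb (h.congr (Equiv.optionCongr f))
      rw [hM.eq_zero_of_not_stable hb' b, hM.relabel_zero, hM.glue_zero_right,
        hM.glue_zero_right, hM.relabel_zero]
  · have ha' : ¬ Stable g₁ (Option S) := fun h => ha (h.congr (Equiv.optionCongr e))
    rw [hM.eq_zero_of_not_stable ha' a, hM.relabel_zero, hM.glue_zero_left,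
      hM.glue_zero_left, hM.relabel_zero]

lemma relabel_glue_left {g₁ g₂ g : ℕ} (h : g₁ + g₂ = g) {S T S' : Type} (e : S ≃ S')
    (a : M.H g₁ (Option S)) (b : M.H g₂ (Option T)) :
    M.glue h (M.relabel (Equiv.optionCongr e) a) b =
      M.relabel (Equiv.sumCongr e (Equiv.refl T)) (M.glue h a b) := by
  rw [← hM.relabel_glue, Equiv.optionCongr_refl, hM.relabel_refl]

lemma relabel_glue_right {g₁ g₂ g : ℕ} (h : g₁ + g₂ = g) {S T T' : Type} (f : T ≃ T')
    (a : M.H g₁ (Option S)) (b : M.H g₂ (Option T)) :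
    M.glue h a (M.relabel (Equiv.optionCongr f) b) =
      M.relabel (Equiv.sumCongr (Equiv.refl S) f) (M.glue h a b) := by
  rw [← hM.relabel_glue, Equiv.optionCongr_refl, hM.relabel_refl]

lemma glue_assoc' {g₁ g₂ g₃ g₁₂ g₂₃ g : ℕ} (h₁₂ : g₁ + g₂ = g₁₂) (h₂₃ : g₂ + g₃ = g₂₃)
    (h : g₁₂ + g₃ = g) (h' : g₁ + g₂₃ = g) {S T U : Type} (a : M.H g₁ (Option S))
    (b : M.H g₂ (Option (Option T))) (c : M.H g₃ (Option U)) :
    M.relabel (Equiv.sumAssoc S T U)
      (M.glue h (M.relabel (sumOption S T) (M.glue h₁₂ a b)) c) =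
    M.glue h' a (M.relabel (optionSum T U) (M.glue h₂₃ (M.relabel (optionSwap T) b) c)) :=
  hM.glue_assoc g₁ g₂ g₃ g₁₂ g₂₃ g h₁₂ h₂₃ h h' S T U a b c

end CurveHomology

lemma CohFT.Ω_add {M : CurveMaps} (Z : CohFT M) {g : ℕ} {S : Type} (a b : M.H g S)
    (v : S → Z.V) : Z.Ω g S (a + b) v = Z.Ω g S a v + Z.Ω g S b v := (Z.linear g S v).1 a b

lemma CohFT.Ω_smul {M : CurveMaps} (Z : CohFT M) {g : ℕ} {S : Type} (c : ℚ) (a : M.H g S)
    (v : S → Z.V) : Z.Ω g S (c • a) v = c * Z.Ω g S a v := (Z.linear g S v).2 c a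

lemma CohFT.Ω_zero {M : CurveMaps} (Z : CohFT M) {g : ℕ} {S : Type} (v : S → Z.V) :
    Z.Ω g S 0 v = 0 := by
  have := Z.Ω_smul 0 (0 : M.H g S) v
  rwa [smul_zero, Rat.cast_zero, zero_mul] at this

/-- The undetected classes as a subspace. -/
def undetectedSub (M : CurveMaps) (g : ℕ) (S : Type) : Submodule ℚ (M.H g S) where
  carrier := {A | Undetected M A}
  add_mem' := by
    intro A B hA hB Z v
    rw [Z.Ω_add, hA, hB, add_zero]
  zero_mem' := by
    intro Z v
    rw [Z.Ω_zero]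
  smul_mem' := by
    intro c A hA Z v
    rw [Z.Ω_smul, hA, mul_zero]

lemma mem_undetectedSub {M : CurveMaps} {g : ℕ} {S : Type} {A : M.H g S} :
    A ∈ undetectedSub M g S ↔ Undetected M A := Iff.rfl

end Run7.h225
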