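import Pool.Agent.Run7.h225.GradedProof

set_option autoImplicit false

namespace Run7.h225

variable {M : CurveMaps}

lemma optionSwap_trans (S : Type) : (optionSwap S).trans (optionSwap S) = Equiv.refl _ := by
  ext o
  rcases o with _ | _ | s <;> rfl

/-- Chain composition is associative. -/
lemma chain_assoc (hM : CurveHomology M) {g₁ g₂ g₃ g₁₂ g₂₃ g : ℕ} (h₁₂ : g₁ + g₂ = g₁₂)
    (h₂₃ : g₂ + g₃ = g₂₃) (h : g₁₂ + g₃ = g) (h' : g₁ + g₂₃ = g) {S T U : Type}
    (a : M.H g₁ (Option (Option S))) (b : M.H g₂ (Option (Option T)))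
    (c : M.H g₃ (Option (Option U))) :
    M.relabel (Equiv.optionCongr (Equiv.optionCongr (Equiv.sumAssoc S T U)))
      (chain M h (chain M h₁₂ a b) c) = chain M h' a (chain M h₂₃ b c) := by
  unfold chain
  have key := hM.glue_assoc' h₁₂ h₂₃ h h' a (M.relabel (optionSwap T) b)
    (M.relabel (optionSwap U) c)
  rw [hM.relabel_relabel (optionSwap T), optionSwap_trans, hM.relabel_refl] at key
  -- left hand side
  have hL : M.relabel ((sumOption (Option S) T).trans (Equiv.optionCongr (optionSum S T)))
      (M.glue h₁₂ a (M.relabel (optionSwap T) b)) =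
      M.relabel (Equiv.optionCongr (optionSum S T)) (M.relabel (sumOption (Option S) T)
        (M.glue h₁₂ a (M.relabel (optionSwap T) b))) := by
    rw [hM.relabel_relabel]
  rw [hL, hM.relabel_glue_left]
  -- right hand side
  have hR : M.relabel (optionSwap (T ⊕ U))
      (M.relabel ((sumOption (Option T) U).trans (Equiv.optionCongr (optionSum T U)))
        (M.glue h₂₃ b (M.relabel (optionSwap U) c))) =
      M.relabel (Equiv.optionCongr (sumOption T U)) (M.relabel (optionSum T (Option U))
        (M.glue h₂₃ b (M.relabel (optionSwap U) c))) := by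
    rw [hM.relabel_relabel, hM.relabel_relabel]
    congr 1
    ext o
    rcases o with (_ | s) | (_ | t) <;> rfl
  rw [hR, hM.relabel_glue_right, ← key]
  simp only [hM.relabel_relabel]
  congr 1
  ext o
  rcases o with ((_ | s) | t) | (_ | u) <;> rfl

end Run7.h225
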