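import Pool.Agent.Run7.h225.Field

/-!
# The contraction with the inverse of a form
-/

set_option autoImplicit false

namespace Run7.h225

section

variable {V : Type} [AddCommGroup V] [Module ℂ V] [FiniteDimensional ℂ V]
  {η : LinearMap.BilinForm ℂ V}

lemma contract_add (β β' : V → V → ℂ) :
    contract η (fun x y => β x y + β' x y) = contract η β + contract η β' := by
  unfold contract
  simp only [mul_add, Finset.sum_add_distrib]

lemma contract_smul (c : ℂ) (β : V → V → ℂ) :
    contract η (fun x y => c * β x y) = c * contract η β := by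
  unfold contract
  simp only [Finset.mul_sum]
  refine Finset.sum_congr rfl fun i _ => Finset.sum_congr rfl fun j _ => ?_
  ring

/-- Contracting with the inverse form gives the trace. -/
lemma contract_trace (hs : η.IsSymm) (hn : η.Nondegenerate) (T : V →ₗ[ℂ] V) :
    contract η (fun x y => η (T y) x) = LinearMap.trace ℂ V T := by
  classical
  unfold contract
  let b := Module.finBasis ℂ V
  let G := LinearMap.BilinForm.toMatrix b η
  have hdet : IsUnit G.det :=
    isUnit_iff_ne_zero.2 ((LinearMap.BilinForm.nondegenerate_iff_det_ne_zero b).1 hn)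
  have hG : ∀ i j, G i j = η (b i) (b j) := fun i j => LinearMap.BilinForm.toMatrix_apply b η i j
  have h1 : ∀ i j, η (T (b j)) (b i) = ∑ k, LinearMap.toMatrix b b T k j * G k i := by
    intro i j
    have h2 : T (b j) = ∑ k, LinearMap.toMatrix b b T k j • b k := by
      conv_lhs => rw [← b.sum_repr (T (b j))]
      refine Finset.sum_congr rfl fun k _ => ?_
      rw [LinearMap.toMatrix_apply]
    rw [h2, map_sum, LinearMap.sum_apply]
    refine Finset.sum_congr rfl fun k _ => ?_
    rw [map_smul, LinearMap.smul_apply, smul_eq_mul, hG]
  have hsym : ∀ i j, G i j = G j i := by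
    intro i j
    rw [hG, hG, hs.eq]
  rw [LinearMap.trace_eq_matrix_trace ℂ b, Matrix.trace]
  calc ∑ i, ∑ j, G⁻¹ i j * η (T (b j)) (b i)
      = ∑ i, ∑ j, ∑ k, (G k i * G⁻¹ i j) * LinearMap.toMatrix b b T k j := by
        refine Finset.sum_congr rfl fun i _ => Finset.sum_congr rfl fun j _ => ?_
        rw [h1, Finset.mul_sum]
        refine Finset.sum_congr rfl fun k _ => ?_
        ring
    _ = ∑ j, ∑ k, (∑ i, G k i * G⁻¹ i j) * LinearMap.toMatrix b b T k j := by
        rw [Finset.sum_comm]
        refine Finset.sum_congr rfl fun j _ => ?_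
        rw [Finset.sum_comm]
        refine Finset.sum_congr rfl fun k _ => ?_
        rw [Finset.sum_mul]
    _ = ∑ j, ∑ k, (1 : Matrix _ _ ℂ) k j * LinearMap.toMatrix b b T k j := by
        refine Finset.sum_congr rfl fun j _ => Finset.sum_congr rfl fun k _ => ?_
        rw [← Matrix.mul_nonsing_inv G hdet, Matrix.mul_apply]
    _ = _ := by
        refine Finset.sum_congr rfl fun j _ => ?_
        rw [Finset.sum_eq_single j]
        · simp
        · intro k _ hk
          rw [Matrix.one_apply_ne hk, zero_mul]
        · intro h
          exact absurd (Finset.mem_univ j) h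

/-- Contraction of two functionals. -/
lemma contract_mul (hs : η.IsSymm) (hn : η.Nondegenerate) (u v : V) :
    contract η (fun x y => η u x * η v y) = η u v := by
  let T : V →ₗ[ℂ] V := (η v).smulRight u
  have h := contract_trace hs hn T
  have h1 : (fun x y => η (T y) x) = fun x y => η u x * η v y := by
    funext x y
    simp only [T, LinearMap.smulRight_apply, map_smul, LinearMap.smul_apply, smul_eq_mul]
    ring
  rw [h1] at h
  rw [h]
  simp only [T]
  rw [LinearMap.trace_smulRight, hs.eq]

end

end Run7.h225
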