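import Mathlib

/-!
# The homology of the moduli spaces of stable curves

The markings of a curve are labelled by a finite type `S`; `M̄_{g,S}` is the moduli space of stable
curves of genus `g` with markings labelled by `S` (so `M̄_{g,n}` is the case `S = Fin n`).
`Option S` is `S` with one more label `none`.
-/

set_option autoImplicit false

namespace Run7.h225

/-- The pair `(g, S)` is stable: `S` is finite and `2g - 2 + |S| > 0`. -/
def Stable (g : ℕ) (S : Type) : Prop := Finite S ∧ 2 < 2 * g + Nat.card S

/-- The rational homology of the moduli spaces of stable curves together with the maps induced by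
forgetting or relabelling markings, by gluing and by the map to a point. -/
structure CurveMaps where
  /-- `H g S` is the total homology `H_*(M̄_{g,S}; ℚ)`. -/
  H : ℕ → Type → Type
  [addCommMonoid : ∀ g S, AddCommMonoid (H g S)]
  [module : ∀ g S, Module ℚ (H g S)]
  /-- `deg g S d` is the subspace `H_d(M̄_{g,S}; ℚ)` of the classes of degree `d`. -/
  deg : ∀ (g : ℕ) (S : Type), ℕ → Submodule ℚ (H g S)
  /-- `forget i a = π_* a` for the map `π : M̄_{g,S} → M̄_{g,T}` given by an injection `i : T → S`: it
  forgets the markings of `S` outside the image of `i` and gives the name `t` to the marking `i t`.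
  If `i` is bijective this only relabels the markings. -/
  forget : ∀ {g : ℕ} {S T : Type}, (T ↪ S) → H g S → H g T
  /-- `glue h a b = ξ_*(a × b)` for the separating gluing map
  `ξ : M̄_{g₁,S ⊔ none} × M̄_{g₂,T ⊔ none} → M̄_{g₁+g₂,S ⊔ T}`, which identifies the two markings
  `none`; `a × b` is the homology cross product. -/
  glue : ∀ {g₁ g₂ g : ℕ}, g₁ + g₂ = g → ∀ {S T : Type},
    H g₁ (Option S) → H g₂ (Option T) → H g (S ⊕ T)
  /-- `selfGlue h a = ξ_* a` for the non-separating gluing map
  `ξ : M̄_{g,S ⊔ {none, some none}} → M̄_{g+1,S}`, which identifies the two extra markings. -/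
  selfGlue : ∀ {g g' : ℕ}, g + 1 = g' → ∀ {S : Type}, H g (Option (Option S)) → H g' S
  /-- The push-forward `H_*(M̄_{g,S}; ℚ) → H_*(point; ℚ) = ℚ`. -/
  aug : ∀ {g : ℕ} {S : Type}, H g S → ℚ

attribute [instance] CurveMaps.addCommMonoid CurveMaps.module

/-- The push-forward under the isomorphism `M̄_{g,S} → M̄_{g,T}` given by a bijection `S → T`. -/
def CurveMaps.relabel (M : CurveMaps) {g : ℕ} {S T : Type} (e : S ≃ T) (a : M.H g S) : M.H g T :=
  M.forget e.symm.toEmbedding a

/-- The bijection that moves the extra marking of `T` to the front. -/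
def sumOption (S T : Type) : S ⊕ Option T ≃ Option (S ⊕ T) where
  toFun := Sum.elim (fun s => some (Sum.inl s)) (fun o => o.elim none fun t => some (Sum.inr t))
  invFun := fun o => o.elim (Sum.inr none) (Sum.elim Sum.inl fun t => Sum.inr (some t))
  left_inv := by rintro (s | _ | t) <;> rfl
  right_inv := by rintro (_ | s | t) <;> rfl

/-- The bijection that moves the extra marking of `S` to the front. -/
def optionSum (S T : Type) : Option S ⊕ T ≃ Option (S ⊕ T) where
  toFun := Sum.elim (fun o => o.elim none fun s => some (Sum.inl s)) (fun t => some (Sum.inr t))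
  invFun := fun o => o.elim (Sum.inl none) (Sum.elim (fun s => Sum.inl (some s)) Sum.inr)
  left_inv := by rintro ((_ | s) | t) <;> rfl
  right_inv := by rintro (_ | s | t) <;> rfl

/-- The bijection that exchanges the two extra markings. -/
def optionSwap (S : Type) : Option (Option S) ≃ Option (Option S) where
  toFun := fun o => o.elim (some none) fun o => o.elim none fun s => some (some s)
  invFun := fun o => o.elim (some none) fun o => o.elim none fun s => some (some s)
  left_inv := by rintro (_ | _ | s) <;> rfl
  right_inv := by rintro (_ | _ | s) <;> rfl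

/-- `glueLeft h a b` glues `a` to the marking `none` of `b`; the other extra marking `some none` of
`b` becomes the extra marking of the result. -/
def CurveMaps.glueLeft (M : CurveMaps) {g₁ g₂ g : ℕ} (h : g₁ + g₂ = g) {S T : Type}
    (a : M.H g₁ (Option S)) (b : M.H g₂ (Option (Option T))) : M.H g (Option (S ⊕ T)) :=
  M.relabel (sumOption S T) (M.glue h a b)

/-- `glueRight h b c` glues `c` to the marking `some none` of `b`; the other extra marking `none` of
`b` becomes the extra marking of the result. -/
def CurveMaps.glueRight (M : CurveMaps) {g₂ g₃ g : ℕ} (h : g₂ + g₃ = g) {T U : Type}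
    (b : M.H g₂ (Option (Option T))) (c : M.H g₃ (Option U)) : M.H g (Option (T ⊕ U)) :=
  M.relabel (optionSum T U) (M.glue h (M.relabel (optionSwap T) b) c)

/-- The injection `S ⊔ none → S ⊔ T` that is the identity on `S` and maps `none` to `t`. -/
def tail (S : Type) {T : Type} (t : T) : Option S ↪ S ⊕ T where
  toFun := fun o => o.elim (Sum.inr t) Sum.inl
  inj' := by rintro (_ | s) (_ | s') h <;> simp_all

section axioms

variable (M : CurveMaps)

/-- The homology of an unstable pair is zero (there is no moduli space). -/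
def Vanishing : Prop := ∀ (g : ℕ) (S : Type), ¬ Stable g S → Subsingleton (M.H g S)

/-- The homology is finite-dimensional and the direct sum of its homogeneous parts. -/
def IsGraded : Prop := ∀ (g : ℕ) (S : Type), Module.Finite ℚ (M.H g S) ∧
  iSupIndep (M.deg g S) ∧ ⨆ d, M.deg g S d = ⊤

/-- The push-forwards are linear, and gluing is bilinear (as the cross product). -/
def Linearity : Prop :=
  (∀ (g : ℕ) (S T : Type) (i : T ↪ S), IsLinearMap ℚ fun a : M.H g S => M.forget i a) ∧
  (∀ (g₁ g₂ g : ℕ) (h : g₁ + g₂ = g) (S T : Type) (b : M.H g₂ (Option T)),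
    IsLinearMap ℚ fun a : M.H g₁ (Option S) => M.glue h a b) ∧
  (∀ (g₁ g₂ g : ℕ) (h : g₁ + g₂ = g) (S T : Type) (a : M.H g₁ (Option S)),
    IsLinearMap ℚ fun b : M.H g₂ (Option T) => M.glue h a b) ∧
  (∀ (g g' : ℕ) (h : g + 1 = g') (S : Type),
    IsLinearMap ℚ fun a : M.H g (Option (Option S)) => M.selfGlue h a) ∧
  (∀ (g : ℕ) (S : Type), IsLinearMap ℚ fun a : M.H g S => M.aug a)

/-- Forgetting markings is functorial. -/
def ForgetFunctorial : Prop :=
  (∀ (g : ℕ) (S : Type) (a : M.H g S), M.forget (Function.Embedding.refl S) a = a) ∧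
  ∀ (g : ℕ) (S T U : Type) (i : T ↪ S) (j : U ↪ T) (a : M.H g S),
    M.forget (j.trans i) a = M.forget j (M.forget i a)

/-- The push-forward to a smaller set of markings is surjective. -/
def ForgetSurjective : Prop := ∀ (g : ℕ) (S T : Type) (i : T ↪ S), Stable g S → Stable g T →
  ∀ b : M.H g T, ∃ a : M.H g S, M.forget i a = b

/-- The push-forwards preserve the degree, where the cross product adds the degrees. -/
def DegreeAdditive : Prop :=
  (∀ (g : ℕ) (S T : Type) (i : T ↪ S) (d : ℕ) (a : M.H g S), a ∈ M.deg g S d →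
    M.forget i a ∈ M.deg g T d) ∧
  (∀ (g₁ g₂ g : ℕ) (h : g₁ + g₂ = g) (S T : Type) (p q : ℕ) (a : M.H g₁ (Option S))
    (b : M.H g₂ (Option T)), a ∈ M.deg g₁ (Option S) p → b ∈ M.deg g₂ (Option T) q →
    M.glue h a b ∈ M.deg g (S ⊕ T) (p + q)) ∧
  (∀ (g g' : ℕ) (h : g + 1 = g') (S : Type) (d : ℕ) (a : M.H g (Option (Option S))),
    a ∈ M.deg g (Option (Option S)) d → M.selfGlue h a ∈ M.deg g' S d)

/-- Gluing in the other order: the two sides of the node are exchanged, and the cross product of
homology classes of degrees `p` and `q` commutes up to the sign `(-1)^(pq)`. -/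
def GlueComm : Prop := ∀ (g₁ g₂ g : ℕ) (h : g₁ + g₂ = g) (h' : g₂ + g₁ = g) (S T : Type)
  (p q : ℕ) (a : M.H g₁ (Option S)) (b : M.H g₂ (Option T)),
  a ∈ M.deg g₁ (Option S) p → b ∈ M.deg g₂ (Option T) q →
  M.relabel (Equiv.sumComm S T) (M.glue h a b) = (-1 : ℚ) ^ (p * q) • M.glue h' b a

/-- Gluing `a`, `b` and `c` in a row (`a` to the marking `none` of `b`, and `c` to the marking
`some none` of `b`): the two orders give the same. -/
def GlueAssoc : Prop := ∀ (g₁ g₂ g₃ g₁₂ g₂₃ g : ℕ) (h₁₂ : g₁ + g₂ = g₁₂) (h₂₃ : g₂ + g₃ = g₂₃)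
  (h : g₁₂ + g₃ = g) (h' : g₁ + g₂₃ = g) (S T U : Type) (a : M.H g₁ (Option S))
  (b : M.H g₂ (Option (Option T))) (c : M.H g₃ (Option U)),
  M.relabel (Equiv.sumAssoc S T U) (M.glue h (M.glueLeft h₁₂ a b) c) =
    M.glue h' a (M.glueRight h₂₃ b c)

/-- Forgetting markings commutes with gluing, if both sides of the node remain stable. -/
def GlueForget : Prop := ∀ (g₁ g₂ g : ℕ) (h : g₁ + g₂ = g) (S T S' T' : Type) (i : S' ↪ S)
  (j : T' ↪ T) (a : M.H g₁ (Option S)) (b : M.H g₂ (Option T)),
  Stable g₁ (Option S') → Stable g₂ (Option T') →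
  M.forget (i.sumMap j) (M.glue h a b) =
    M.glue h (M.forget i.optionMap a) (M.forget j.optionMap b)

/-- Contraction of an unstable component: if all but one of the markings on a rational component
are forgotten, this component is contracted to a point, which carries the remaining marking. -/
def Contraction : Prop := ∀ (g : ℕ) (S T : Type) (t : T) (a : M.H g (Option S))
  (b : M.H 0 (Option T)), M.forget (tail S t) (M.glue (Nat.add_zero g) a b) = M.aug b • a

/-- The push-forward to a point is compatible with the other push-forwards. -/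
def AugNatural : Prop :=
  (∀ (g : ℕ) (S T : Type) (i : T ↪ S) (a : M.H g S), Stable g T →
    M.aug (M.forget i a) = M.aug a) ∧
  (∀ (g₁ g₂ g : ℕ) (h : g₁ + g₂ = g) (S T : Type) (a : M.H g₁ (Option S))
    (b : M.H g₂ (Option T)), M.aug (M.glue h a b) = M.aug a * M.aug b) ∧
  (∀ (g g' : ℕ) (h : g + 1 = g') (S : Type) (a : M.H g (Option (Option S))),
    M.aug (M.selfGlue h a) = M.aug a)

/-- The push-forward to a point vanishes in positive degrees and maps the class of a point to `1`;
and `M̄_{0,S}` is a point if `S` has three elements. -/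
def AugDegree : Prop :=
  (∀ (g : ℕ) (S : Type) (d : ℕ) (a : M.H g S), d ≠ 0 → a ∈ M.deg g S d → M.aug a = 0) ∧
  (∀ (g : ℕ) (S : Type), Stable g S → ∃ a ∈ M.deg g S 0, M.aug a = 1) ∧
  (∀ (S : Type) (a b : M.H 0 S), Nat.card S = 3 → M.aug a = M.aug b → a = b)

end axioms

/-- `M` has the basic properties of the rational homology groups `H_*(M̄_{g,S}; ℚ)` of the moduli
spaces of stable curves with the maps induced by forgetting markings and gluing. -/
structure CurveHomology (M : CurveMaps) : Prop where
  vanishing : Vanishing M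
  isGraded : IsGraded M
  linearity : Linearity M
  forget_functorial : ForgetFunctorial M
  forget_surjective : ForgetSurjective M
  degree_additive : DegreeAdditive M
  glue_comm : GlueComm M
  glue_assoc : GlueAssoc M
  glue_forget : GlueForget M
  contraction : Contraction M
  aug_natural : AugNatural M
  aug_degree : AugDegree M

/-- The odd part `⨁_{d odd} H_d(M̄_{g,S}; ℚ)` of the homology. -/
def oddPart (M : CurveMaps) (g : ℕ) (S : Type) : Submodule ℚ (M.H g S) :=
  ⨆ (d : ℕ) (_ : Odd d), M.deg g S d

end Run7.h225
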