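import Pool.Agent.Run7.h225.Gysin
import Pool.Agent.Run7.h225.Basic

set_option autoImplicit false

open scoped TensorProduct

namespace Run7.h225

variable {M : CurveMaps}

lemma contract_swap {V : Type} [AddCommGroup V] [Module ℂ V] [FiniteDimensional ℂ V]
    {η : LinearMap.BilinForm ℂ V} (hη : η.IsSymm) (β : V → V → ℂ) :
    contract η (fun x y => β y x) = contract η β := by
  unfold contract
  rw [Finset.sum_comm]
  refine Finset.sum_congr rfl fun i _ => Finset.sum_congr rfl fun j _ => ?_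
  have hs : ((LinearMap.BilinForm.toMatrix (Module.finBasis ℂ V) η)⁻¹).IsSymm := by
    have : (LinearMap.BilinForm.toMatrix (Module.finBasis ℂ V) η).IsSymm := by
      ext i j
      simp [LinearMap.BilinForm.toMatrix_apply, hη.eq]
    rw [Matrix.IsSymm, Matrix.transpose_nonsing_inv, this]
  rw [hs.apply]

/-- CohFT classes do not see the classes glued from two odd classes. -/
theorem odd_glue (hM : CurveHomology M) (Z : CohFT M) {g₁ g₂ g : ℕ} (h : g₁ + g₂ = g)
    {S T : Type} {p q : ℕ} (hp : Odd p) (hq : Odd q) {a : M.H g₁ (Option S)}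
    {b : M.H g₂ (Option T)} (ha : a ∈ M.deg g₁ (Option S) p) (hb : b ∈ M.deg g₂ (Option T) q)
    (v : S ⊕ T → Z.V) : Z.Ω g (S ⊕ T) (M.glue h a b) v = 0 := by
  have h' : g₂ + g₁ = g := by omega
  have key := Z.equivariance g _ _ (Equiv.sumComm S T) (M.glue h a b) (v ∘ Sum.swap)
  rw [hM.glue_comm g₁ g₂ g h h' S T p q a b ha hb, (hp.mul hq).neg_one_pow, Z.Ω_smul] at key
  have e1 : (v ∘ Sum.swap) ∘ (Equiv.sumComm S T) = v := by
    funext s
    simp
  rw [e1, Z.gluing g₂ g₁ g h' T S b a, Z.gluing g₁ g₂ g h S T a b] at key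
  have e2 : (contract Z.η fun x y => Z.Ω g₂ (Option T) b (extend ((v ∘ Sum.swap) ∘ Sum.inl) x) *
      Z.Ω g₁ (Option S) a (extend ((v ∘ Sum.swap) ∘ Sum.inr) y)) =
      contract Z.η fun x y => Z.Ω g₁ (Option S) a (extend (v ∘ Sum.inl) x) *
        Z.Ω g₂ (Option T) b (extend (v ∘ Sum.inr) y) := by
    rw [← contract_swap Z.symm]
    congr 1
    funext x y
    rw [mul_comm]
    rfl
  rw [e2] at key
  rw [Z.gluing g₁ g₂ g h S T a b]
  push_cast at key
  linear_combination (-1 / 2 : ℂ) * key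

/-- CohFT classes do not see the classes glued from two odd classes. -/
theorem glue_mem_undetected (hM : CurveHomology M) {g₁ g₂ g : ℕ} (h : g₁ + g₂ = g) {S T : Type}
    {a : M.H g₁ (Option S)} {b : M.H g₂ (Option T)} (ha : a ∈ oddPart M g₁ (Option S))
    (hb : b ∈ oddPart M g₂ (Option T)) : Undetected M (M.glue h a b) := by
  have h1 : ∀ a' : M.H g₁ (Option S), (∃ p, Odd p ∧ a' ∈ M.deg g₁ (Option S) p) →
      oddPart M g₂ (Option T) ≤ (undetectedSub M g (S ⊕ T)).comap (hM.glueₗ h a') := by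
    rintro a' ⟨p, hp, ha'⟩
    refine iSup₂_le fun q hq b' hb' Z v => ?_
    exact odd_glue hM Z h hp hq ha' hb' v
  have h2 : oddPart M g₁ (Option S) ≤
      (undetectedSub M g (S ⊕ T)).comap ((hM.glueₗ h).flip b) := by
    refine iSup₂_le fun p hp a' ha' => ?_
    exact h1 a' ⟨p, hp, ha'⟩ hb
  exact h2 ha

/-- `a ⊗ b ↦ ξ_*(π^! a × π^! b)`. -/
noncomputable def gluePull (hM : CurveHomology M) {I : IntersectionOps M}
    (hI : IntersectionTheory I) {g₁ g₂ g : ℕ} (h : g₁ + g₂ = g) {S T : Type} :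
    M.H g₁ S ⊗[ℚ] M.H g₂ T →ₗ[ℚ] M.H g (S ⊕ T) :=
  TensorProduct.lift ((hM.glueₗ h).compl₁₂ ((hI.linear.2.1 g₁ S).mk' _)
    ((hI.linear.2.1 g₂ T).mk' _))

lemma gluePull_tmul (hM : CurveHomology M) {I : IntersectionOps M} (hI : IntersectionTheory I)
    {g₁ g₂ g : ℕ} (h : g₁ + g₂ = g) {S T : Type} (a : M.H g₁ S) (b : M.H g₂ T) :
    gluePull hM hI h (a ⊗ₜ b) = M.glue h (I.pull a) (I.pull b) := rfl

lemma Stable.coeff_ne_zero {g : ℕ} {S : Type} (h : Stable g S) :
    ((2 * g + Nat.card S : ℚ) - 2) ≠ 0 := by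
  have : (2 : ℚ) < 2 * g + Nat.card S := by exact_mod_cast h.2
  linarith

lemma gluePull_injective (hM : CurveHomology M) {I : IntersectionOps M}
    (hI : IntersectionTheory I) {g₁ g₂ g : ℕ} (h : g₁ + g₂ = g) {S T : Type} [Nonempty S]
    [Nonempty T] (hS : Stable g₁ S) (hT : Stable g₂ T) :
    Function.Injective (gluePull hM hI h (S := S) (T := T)) := by
  let F : M.H g₁ (Option S) →ₗ[ℚ] M.H g₁ S := hM.forgetₗ Function.Embedding.some
  let F' : M.H g₂ (Option T) →ₗ[ℚ] M.H g₂ T := hM.forgetₗ Function.Embedding.some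
  let P : M.H g₂ (Option T) →ₗ[ℚ] M.H g₂ (Option T) := (hI.linear.1 g₂ T).mk' _
  let G : M.H g (S ⊕ T) →ₗ[ℚ] M.H g₁ (Option S) ⊗[ℚ] M.H g₂ (Option T) :=
    (hI.linear.2.2 g₁ g₂ g h S T).mk' _
  have key : (TensorProduct.map F (F' ∘ₗ P) ∘ₗ G) ∘ₗ gluePull hM hI h (S := S) (T := T) =
      (-(((2 * g₁ + Nat.card S : ℚ) - 2) * ((2 * g₂ + Nat.card T : ℚ) - 2))) • LinearMap.id := by
    apply TensorProduct.ext'
    intro a b
    have e1 : G (M.glue h (I.pull a) (I.pull b)) = (-1 : ℚ) •
        (I.psi (I.pull a) ⊗ₜ[ℚ] I.pull b + I.pull a ⊗ₜ[ℚ] I.psi (I.pull b)) :=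
      hI.self_intersection g₁ g₂ g h S T _ _
    have e2 : F (I.psi (I.pull a)) = ((2 * g₁ + Nat.card S : ℚ) - 2) • a := hI.dilaton g₁ S a
    have e3 : F' (I.psi (I.pull b)) = ((2 * g₂ + Nat.card T : ℚ) - 2) • b := hI.dilaton g₂ T b
    have e4 : F (I.pull a) = 0 := hI.forget_pull g₁ S a
    have e5 : P (I.pull b) = I.psi (I.pull b) := rfl
    simp only [LinearMap.comp_apply, gluePull_tmul, e1, map_smul, map_add,
      TensorProduct.map_tmul, e2, e4, e5, e3, TensorProduct.zero_tmul, add_zero,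
      LinearMap.smul_apply, LinearMap.id_apply, TensorProduct.tmul_smul,
      ← TensorProduct.smul_tmul', smul_smul]
    congr 1
    ring
  intro x y hxy
  have h1 := LinearMap.congr_fun key x
  have h2 := LinearMap.congr_fun key y
  simp only [LinearMap.comp_apply, LinearMap.smul_apply, LinearMap.id_apply] at h1 h2
  rw [hxy, h2] at h1
  exact (smul_right_injective _ (neg_ne_zero.2 (mul_ne_zero hS.coeff_ne_zero hT.coeff_ne_zero))
    h1).symm

lemma pull_injective {I : IntersectionOps M} (hM : CurveHomology M) (hI : IntersectionTheory I)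
    {g : ℕ} {S : Type} (hS : Stable g S) :
    Function.Injective ((hI.linear.2.1 g S).mk' _) := by
  rw [← LinearMap.ker_eq_bot, LinearMap.ker_eq_bot']
  intro a ha
  have := hI.dilaton g S a
  have ha' : I.pull a = 0 := ha
  rw [ha', (hI.linear.1 g S).map_zero, hM.forget_zero] at this
  exact (smul_eq_zero.1 this.symm).resolve_left hS.coeff_ne_zero

lemma pull_mem_odd {I : IntersectionOps M} (hI : IntersectionTheory I) {g : ℕ} {S : Type}
    {a : M.H g S} (ha : a ∈ oddPart M g S) : I.pull a ∈ oddPart M g (Option S) := by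
  have : oddPart M g S ≤ (oddPart M g (Option S)).comap ((hI.linear.2.1 g S).mk' _) := by
    refine iSup₂_le fun d hd x hx => ?_
    exact Submodule.mem_iSup_of_mem (d + 2) (Submodule.mem_iSup_of_mem (hd.add_even even_two)
      (hI.pull_degree g S d x hx))
  exact this ha

/-- The space of undetected classes of `M̄_{g₁+g₂,S⊔T}` has at least the dimension
`dim H_odd(M̄_{g₁,S}) · dim H_odd(M̄_{g₂,T})`. -/
theorem finrank_mul_le (hM : CurveHomology M) {I : IntersectionOps M}
    (hI : IntersectionTheory I) {g₁ g₂ g : ℕ} (h : g₁ + g₂ = g)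
    {S T : Type} [Nonempty S] [Nonempty T] (hS : Stable g₁ S) (hT : Stable g₂ T) :
    Module.finrank ℚ (oddPart M g₁ S) * Module.finrank ℚ (oddPart M g₂ T) ≤
      Module.finrank ℚ (undetectedSub M g (S ⊕ T)) := by
  have := (hM.isGraded g (S ⊕ T)).1
  have := (hM.isGraded g₁ S).1
  have := (hM.isGraded g₂ T).1
  rw [← Module.finrank_tensorProduct]
  have hinj : Function.Injective (TensorProduct.map (oddPart M g₁ S).subtype
      (oddPart M g₂ T).subtype) := by
    obtain ⟨f, hf⟩ := LinearMap.exists_leftInverse_of_injective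
      (oddPart M g₁ S).subtype (Submodule.ker_subtype _)
    obtain ⟨f', hf'⟩ := LinearMap.exists_leftInverse_of_injective
      (oddPart M g₂ T).subtype (Submodule.ker_subtype _)
    have : Function.LeftInverse (TensorProduct.map f f') (TensorProduct.map
        (oddPart M g₁ S).subtype (oddPart M g₂ T).subtype) := by
      intro x
      rw [← LinearMap.comp_apply, ← TensorProduct.map_comp, hf, hf', TensorProduct.map_id,
        LinearMap.id_apply]
    exact this.injective
  let F : (oddPart M g₁ S ⊗[ℚ] oddPart M g₂ T) →ₗ[ℚ] M.H g (S ⊕ T) :=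
    gluePull hM hI h ∘ₗ TensorProduct.map (oddPart M g₁ S).subtype (oddPart M g₂ T).subtype
  have hF : ∀ x, F x ∈ undetectedSub M g (S ⊕ T) := by
    intro x
    induction x with
    | zero => rw [map_zero]; exact Submodule.zero_mem _
    | add x y hx hy => rw [map_add]; exact Submodule.add_mem _ hx hy
    | tmul a b => exact glue_mem_undetected hM h (pull_mem_odd hI a.2) (pull_mem_odd hI b.2)
  refine LinearMap.finrank_le_finrank_of_injective (f := F.codRestrict _ hF) ?_
  intro x y hxy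
  have : F x = F y := congrArg Subtype.val hxy
  exact hinj ((gluePull_injective hM hI h hS hT) this)

lemma relabel_injective (hM : CurveHomology M) {g : ℕ} {S T : Type} (e : S ≃ T) :
    Function.Injective (hM.forgetₗ (g := g) e.symm.toEmbedding) := by
  intro A B hAB
  have h2 := congrArg (M.relabel e.symm) hAB
  have hA : M.relabel e.symm (M.relabel e A) = M.relabel e.symm (M.relabel e B) := h2
  rwa [hM.relabel_symm_relabel, hM.relabel_symm_relabel] at hA

lemma finrank_oddPart_le (hM : CurveHomology M) {g : ℕ} {S T : Type} (e : S ≃ T) :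
    Module.finrank ℚ (oddPart M g S) ≤ Module.finrank ℚ (oddPart M g T) := by
  have := (hM.isGraded g T).1
  have hmem : oddPart M g S ≤
      (oddPart M g T).comap (hM.forgetₗ e.symm.toEmbedding) :=
    iSup₂_le fun d hd x hx => Submodule.mem_iSup_of_mem d (Submodule.mem_iSup_of_mem hd
      (hM.relabel_deg e hx))
  refine LinearMap.finrank_le_finrank_of_injective
    (f := (hM.forgetₗ e.symm.toEmbedding).restrict (p := oddPart M g S) hmem) ?_
  intro x y hxy
  exact Subtype.ext (relabel_injective hM e (congrArg Subtype.val hxy))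

lemma finrank_oddPart_eq (hM : CurveHomology M) {g : ℕ} {S T : Type} (e : S ≃ T) :
    Module.finrank ℚ (oddPart M g S) = Module.finrank ℚ (oddPart M g T) :=
  le_antisymm (finrank_oddPart_le hM e) (finrank_oddPart_le hM e.symm)

lemma finrank_undetected_le (hM : CurveHomology M) {g : ℕ} {S T : Type} (e : S ≃ T) :
    Module.finrank ℚ (undetectedSub M g S) ≤ Module.finrank ℚ (undetectedSub M g T) := by
  have := (hM.isGraded g T).1
  have hmem : undetectedSub M g S ≤
      (undetectedSub M g T).comap (hM.forgetₗ e.symm.toEmbedding) := by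
    intro x hx Z v
    have := Z.equivariance g S T e x v
    rw [hx] at this
    exact this
  refine LinearMap.finrank_le_finrank_of_injective
    (f := (hM.forgetₗ e.symm.toEmbedding).restrict (p := undetectedSub M g S) hmem) ?_
  intro x y hxy
  exact Subtype.ext (relabel_injective hM e (congrArg Subtype.val hxy))

lemma finrank_odd_marking (hM : CurveHomology M) {I : IntersectionOps M}
    (hI : IntersectionTheory I) {g n : ℕ} (hst : Stable g (Fin n)) :
    Module.finrank ℚ (oddPart M g (Fin n)) ≤ Module.finrank ℚ (oddPart M g (Fin (n + 1))) := by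
  rw [← finrank_oddPart_eq hM (finSuccEquiv n).symm]
  have := (hM.isGraded g (Option (Fin n))).1
  refine LinearMap.finrank_le_finrank_of_injective
    (f := ((hI.linear.2.1 g (Fin n)).mk' _).restrict (p := oddPart M g (Fin n))
      fun x hx => pull_mem_odd hI hx) ?_
  intro x y hxy
  exact Subtype.ext (pull_injective hM hI hst (congrArg Subtype.val hxy))

lemma finrank_odd_genus (hM : CurveHomology M) {I : IntersectionOps M}
    (hI : IntersectionTheory I) {g n : ℕ} (hn : n ≠ 0) (hst : Stable g (Fin n)) :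
    Module.finrank ℚ (oddPart M g (Fin n)) ≤
      Module.finrank ℚ (oddPart M (g + 1) (Fin (n + 1))) := by
  have : NeZero n := ⟨hn⟩
  have h1 : Stable 1 (Fin 1) := stable_fin.2 (by norm_num)
  rw [← finrank_oddPart_eq hM finSumFinEquiv]
  have := (hM.isGraded (g + 1) (Fin n ⊕ Fin 1)).1
  obtain ⟨b, hb, hb1⟩ := hM.aug_degree.2.1 1 (Fin 1) h1
  have hmem : ∀ x ∈ oddPart M g (Fin n),
      (gluePull hM hI rfl ∘ₗ (TensorProduct.mk ℚ _ _).flip b) x ∈
      oddPart M (g + 1) (Fin n ⊕ Fin 1) := by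
    intro x hx
    have : oddPart M g (Fin n) ≤
        (oddPart M (g + 1) (Fin n ⊕ Fin 1)).comap
        (gluePull hM hI rfl ∘ₗ (TensorProduct.mk ℚ _ _).flip b) := by
      refine iSup₂_le fun d hd y hy => ?_
      refine Submodule.mem_iSup_of_mem (d + 2 + (0 + 2)) (Submodule.mem_iSup_of_mem
        ((hd.add_even even_two).add_even (by decide)) ?_)
      exact hM.glue_deg rfl (hI.pull_degree g _ _ _ hy) (hI.pull_degree 1 _ _ _ hb)
    exact this hx
  refine LinearMap.finrank_le_finrank_of_injective (f := LinearMap.restrict _ hmem) ?_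
  intro x y hxy
  have h2 : gluePull hM hI rfl ((x : M.H g (Fin n)) ⊗ₜ[ℚ] b) =
      gluePull hM hI rfl ((y : M.H g (Fin n)) ⊗ₜ[ℚ] b) := congrArg Subtype.val hxy
  have h3 := gluePull_injective hM hI rfl hst h1 h2
  have h4 := congrArg ((TensorProduct.rid ℚ (M.H g (Fin n))).toLinearMap ∘ₗ
    TensorProduct.map LinearMap.id hM.augₗ) h3
  have hb1' : hM.augₗ b = 1 := hb1
  simp only [LinearMap.comp_apply, LinearEquiv.coe_coe, TensorProduct.map_tmul,
    LinearMap.id_apply, TensorProduct.rid_tmul, hb1', one_smul] at h4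
  exact Subtype.ext h4

lemma finrank_odd_cone (hM : CurveHomology M) {I : IntersectionOps M}
    (hI : IntersectionTheory I) {g n : ℕ} (hn : n ≠ 0) (hst : Stable g (Fin n)) (k m : ℕ) :
    Module.finrank ℚ (oddPart M g (Fin n)) ≤
      Module.finrank ℚ (oddPart M (g + k) (Fin (n + k + m))) := by
  rw [stable_fin] at hst
  have hst' : ∀ i j : ℕ, Stable (g + i) (Fin (n + i + j)) := by
    intro i j
    rw [stable_fin]
    omega
  have h1 : Module.finrank ℚ (oddPart M g (Fin n)) ≤
      Module.finrank ℚ (oddPart M (g + k) (Fin (n + k))) := by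
    induction k with
    | zero => exact le_rfl
    | succ k ih => exact ih.trans (finrank_odd_genus hM hI (n := n + k) (by omega) (hst' k 0))
  induction m with
  | zero => exact h1
  | succ m ih => exact ih.trans (finrank_odd_marking hM hI (hst' k m))

lemma undetected_eq_bot (hM : CurveHomology M) {g : ℕ} {S : Type} (h : Determined M g S) :
    undetectedSub M g S = ⊥ := by
  rw [Submodule.eq_bot_iff]
  intro A hA
  refine h A 0 fun Z v => ?_
  rw [hA, Z.Ω_zero]

/-- Lower bound for the dimension of the space of undetected classes. -/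
theorem odd_mul_odd_le (hM : CurveHomology M) {I : IntersectionOps M}
    (hI : IntersectionTheory I) {g₁ g₂ n₁ n₂ : ℕ} (hn₁ : n₁ ≠ 0)
    (hn₂ : n₂ ≠ 0) (h₁ : Stable g₁ (Fin n₁)) (h₂ : Stable g₂ (Fin n₂)) (k m : ℕ) :
    Module.finrank ℚ (oddPart M g₁ (Fin n₁)) * Module.finrank ℚ (oddPart M g₂ (Fin n₂)) ≤
      Module.finrank ℚ (undetectedSub M (g₁ + g₂ + k) (Fin (n₁ + n₂ + k + m))) := by
  have hc := finrank_odd_cone hM hI hn₁ h₁ k m
  have : NeZero n₂ := ⟨hn₂⟩
  have : NeZero (n₁ + k + m) := ⟨by omega⟩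
  have hs : Stable (g₁ + k) (Fin (n₁ + k + m)) := by
    rw [stable_fin] at *
    omega
  refine (Nat.mul_le_mul_right _ hc).trans ((finrank_mul_le hM hI (g := g₁ + g₂ + k) (by omega)
    hs h₂).trans (finrank_undetected_le hM (finSumFinEquiv.trans (finCongr (by omega)))))

/-- If two moduli spaces have odd homology then Q1 fails. -/
theorem not_determined (hM : CurveHomology M) {I : IntersectionOps M}
    (hI : IntersectionTheory I) {g₁ g₂ n₁ n₂ : ℕ} (hn₁ : n₁ ≠ 0)
    (hn₂ : n₂ ≠ 0) (h₁ : Stable g₁ (Fin n₁)) (h₂ : Stable g₂ (Fin n₂))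
    (ho₁ : oddPart M g₁ (Fin n₁) ≠ ⊥) (ho₂ : oddPart M g₂ (Fin n₂) ≠ ⊥) (k m : ℕ) :
    ¬ Determined M (g₁ + g₂ + k) (Fin (n₁ + n₂ + k + m)) := by
  intro hdet
  have hle := odd_mul_odd_le hM hI hn₁ hn₂ h₁ h₂ k m
  rw [undetected_eq_bot hM hdet, finrank_bot] at hle
  have := (hM.isGraded g₁ (Fin n₁)).1
  have := (hM.isGraded g₂ (Fin n₂)).1
  have e₁ : 0 < Module.finrank ℚ (oddPart M g₁ (Fin n₁)) :=
    Nat.pos_of_ne_zero fun h0 => ho₁ (Submodule.finrank_eq_zero.1 h0)
  have e₂ : 0 < Module.finrank ℚ (oddPart M g₂ (Fin n₂)) :=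
    Nat.pos_of_ne_zero fun h0 => ho₂ (Submodule.finrank_eq_zero.1 h0)
  exact absurd (Nat.mul_pos e₁ e₂) (by omega)

end Run7.h225
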