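import Pool.Agent.Run7.h225.RawAxioms

set_option autoImplicit false

namespace Run7.h225

variable {M : CurveMaps}

namespace Lin

variable {R : RawTheory M} (D : Lin R)

/-- The endomorphism whose trace is the self-gluing. -/
noncomputable def op {S : Type} (L : MultilinearMap ℂ (fun _ : Option (Option S) => D.V) ℂ)
    (v : S → D.V) : D.V →ₗ[ℂ] D.V :=
  (D.B.toDual D.B_nondeg).symm.toLinearMap.comp (atTwo L v)

lemma op_apply {S : Type} (L : MultilinearMap ℂ (fun _ : Option (Option S) => D.V) ℂ)
    (v : S → D.V) (x y : D.V) : D.B (D.op L v y) x = L (extend (extend v y) x) := by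
  unfold op
  rw [LinearMap.comp_apply, ← atTwo_apply]
  exact LinearMap.BilinForm.apply_toDual_symm_apply _ _

lemma contract_op {S : Type} (L : MultilinearMap ℂ (fun _ : Option (Option S) => D.V) ℂ)
    (v : S → D.V) :
    (contract D.B fun x y => L (extend (extend v y) x)) = LinearMap.trace ℂ D.V (D.op L v) := by
  rw [← contract_trace D.B_symm D.B_nondeg]
  congr 1
  funext x y
  rw [D.op_apply]

lemma op_cl {g : ℕ} {S : Type} [Finite S] (a : M.H g (Option (Option S))) (τ : S → R.Y)
    (x : R.Y) : D.op (D.mraw a) (fun s => D.c (τ s)) (D.c x) =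
      D.c (R.root a (consOpt τ x)) := by
  refine D.vec_ext fun z => ?_
  rw [D.op_apply, D.extend_cl, D.extend_cl, D.mraw_cl, R.raw_root, D.B_cl]

/-- If the operator raises the weight then its trace vanishes. -/
lemma trace_op_zero {g : ℕ} {S : Type} [Fintype S] (a : M.H g (Option (Option S)))
    (τ : S → R.Y) (hw : g + ∑ s, R.w (τ s) ≠ 0) :
    LinearMap.trace ℂ D.V (D.op (D.mraw a) (fun s => D.c (τ s))) = 0 := by
  let T := D.op (D.mraw a) (fun s => D.c (τ s))
  have h1 : ∀ (n : ℕ) (x : R.Y), ∃ z, (T ^ n) (D.c x) = D.c z ∧ n ≤ R.w z := by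
    intro n
    induction n with
    | zero => exact fun x => ⟨x, rfl, Nat.zero_le _⟩
    | succ n ih =>
      intro x
      obtain ⟨z, hz, hn⟩ := ih x
      refine ⟨R.root a (consOpt τ z), ?_, ?_⟩
      · rw [pow_succ', Module.End.mul_apply, hz]
        exact D.op_cl a τ z
      · rw [R.w_root, Fintype.sum_option]
        simp only [consOpt, Option.elim]
        omega
  have h2 : T ^ (R.w₀ + 1) = 0 := by
    refine D.l_ext fun x => ?_
    obtain ⟨z, hz, hn⟩ := h1 (R.w₀ + 1) x
    rw [hz, D.c_eq_zero (by omega), LinearMap.zero_apply]
  have h3 : IsNilpotent T := ⟨_, h2⟩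
  exact (LinearMap.isNilpotent_trace_of_isNilpotent h3).eq_zero

variable (hM : CurveHomology M)
include hM

/-- In genus zero and with weight zero the operator is a multiple of the identity. -/
lemma trace_op_id {S : Type} [Fintype S] (a : M.H 0 (Option (Option S)))
    (τ : S → R.Y) (hw : ∀ s, R.w (τ s) = 0) :
    LinearMap.trace ℂ D.V (D.op (D.mraw a) (fun s => D.c (τ s))) =
      (D.r : ℂ) * M.aug a * ∏ s, R.η R.zs (τ s) := by
  have h0 : D.op (D.mraw a) (fun s => D.c (τ s)) =
      ((∏ s, R.η R.zs (τ s)) * M.aug a) • LinearMap.id := by
    refine D.l_ext fun y => D.vec_ext fun x => ?_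
    rw [D.op_apply, LinearMap.smul_apply, LinearMap.id_apply, map_smul, LinearMap.smul_apply,
      D.B_cl, smul_eq_mul]
    have h2 : (fun s => D.c (τ s)) = fun s => R.η R.zs (τ s) • D.c R.xu :=
      funext fun s => D.c_of_w_zero (hw s)
    have h3 : D.mraw a (extend (extend (fun s => D.c (τ s)) (D.c y)) (D.c x)) =
        restr (restr (D.mraw a) (D.c x)) (D.c y) fun s => D.c (τ s) := rfl
    rw [h3, h2, MultilinearMap.map_smul_univ, restr_apply, restr_apply]
    have h4 : extend (extend (fun _ : S => D.c R.xu) (D.c y)) (D.c x) =
        fun s => D.c (consOpt (consOpt (fun _ => R.xu) y) x s) := by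
      funext o
      rcases o with _ | _ | s <;> rfl
    rw [h4, D.mraw_cl, R.three hM, smul_eq_mul, R.symm x y]
    ring
  rw [h0, map_smul, LinearMap.trace_id, Module.finrank_fin_fun, smul_eq_mul]
  ring

lemma selfGluing : SelfGluing D.data := by
  intro g g' h S a v
  by_cases hS : Finite S
  · have := Fintype.ofFinite S
    have key : D.om g' S (M.selfGlue h a) = contrMul D.B fun x y =>
        restr (restr (D.om g (Option (Option S)) a) x) y := by
      refine D.m_ext fun τ => ?_
      rw [contrMul_apply]
      have h1 : (fun x y => (restr (restr (D.om g (Option (Option S)) a) x) y)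
          fun s => D.c (τ s)) = fun x y =>
          D.mraw a (extend (extend (fun s => D.c (τ s)) y) x) +
            ((if g = 1 then (D.r : ℂ) * M.aug a else 0) * ∏ s, R.η R.zs (τ s)) *
              (D.B (D.c R.zs) x * D.B (D.c R.zs) y) := by
        funext x y
        rw [restr_apply, restr_apply, D.om_eq, add_apply, D.corr_apply,
          Fintype.prod_option, Fintype.prod_option]
        simp only [extend, Option.elim, D.chi_cl]
        unfold chi
        ring
      rw [h1, contract_add, contract_smul, contract_mul D.B_symm D.B_nondeg, D.B_cl,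
        R.eta_zs_zs, mul_zero, add_zero, D.contract_op, D.om_cl, R.raw_selfGlue, zero_add,
        hM.aug_natural.2.2]
      by_cases hw : g + ∑ s, R.w (τ s) = 0
      · have hg : g = 0 := by omega
        subst hg
        have hw' : ∀ s, R.w (τ s) = 0 := by
          intro s
          have := Finset.single_le_sum (f := fun s => R.w (τ s)) (fun _ _ => Nat.zero_le _)
            (Finset.mem_univ s)
          omega
        rw [D.trace_op_id hM a τ hw', if_pos (by omega)]
      · rw [D.trace_op_zero a τ hw]
        by_cases hg : g' = 1
        · have : ∃ s, R.w (τ s) ≠ 0 := by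
            by_contra hc
            push Not at hc
            rw [Finset.sum_eq_zero fun s _ => hc s] at hw
            omega
          obtain ⟨s, hs⟩ := this
          rw [Finset.prod_eq_zero (Finset.mem_univ s) (R.eta_zs_pos hs), mul_zero]
        · rw [if_neg hg, zero_mul]
    have h2 := congrArg (fun f => f v) key
    simp only [contrMul_apply] at h2
    exact h2
  · have h1 : D.om g' S (M.selfGlue h a) = 0 := D.om_of_infinite hS _
    have hT'' : ¬ Finite (Option (Option S)) := fun h =>
      hS (Finite.of_injective (fun s => some (some s)) fun s t h => by simpa using h)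
    have h2 : D.om g (Option (Option S)) a = 0 := D.om_of_infinite hT'' _
    change D.om g' S (M.selfGlue h a) v = contract D.B fun x y =>
      D.om g (Option (Option S)) a (extend (extend v y) x)
    rw [h1, h2]
    simp [contract]

lemma unitPullback : UnitPullback D.data := by
  intro g S hs a v
  have hS : Finite S := hs.1
  have := Fintype.ofFinite S
  have key : restr (D.om g (Option S) a) (D.c R.xu) =
      D.om g S (M.forget Function.Embedding.some a) := by
    refine D.m_ext fun τ => ?_
    rw [restr_apply, D.extend_cl, D.om_cl, D.om_cl, R.raw_unit hs, Fintype.prod_option,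
      hM.aug_natural.1 _ _ _ _ _ hs]
    simp only [consOpt, Option.elim, R.eta_zs', one_mul]
  exact congrArg (fun f => f v) key

omit hM in
lemma omegaLinear (hM : CurveHomology M) : OmegaLinear D.data := by
  intro g S v
  by_cases hS : Finite S
  · have := Fintype.ofFinite S
    constructor
    · intro a b
      have key : D.om g S (a + b) = D.om g S a + D.om g S b := by
        refine D.m_ext fun τ => ?_
        rw [add_apply, D.om_cl, D.om_cl, D.om_cl, R.raw_add, hM.aug_add]
        split_ifs <;> push_cast <;> ring
      exact congrArg (fun f => f v) key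
    · intro c a
      have key : D.om g S (c • a) = (c : ℂ) • D.om g S a := by
        refine D.m_ext fun τ => ?_
        rw [smul_apply, D.om_cl, D.om_cl, R.raw_smul, hM.aug_smul, smul_eq_mul]
        split_ifs <;> push_cast <;> ring
      exact congrArg (fun f => f v) key
  · have h : ∀ a : M.H g S, D.om g S a = 0 := fun a => D.om_of_infinite hS a
    constructor
    · intro a b
      change D.om g S (a + b) v = D.om g S a v + D.om g S b v
      rw [h, h, h, MultilinearMap.zero_apply, add_zero]
    · intro c a
      change D.om g S (c • a) v = c * D.om g S a v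
      rw [h, h, MultilinearMap.zero_apply, mul_zero]

lemma equivariance : Equivariance D.data := by
  intro g S T e a v
  by_cases hS : Finite S
  · have hT : Finite T := Finite.of_equiv S e
    have := Fintype.ofFinite S
    have := Fintype.ofFinite T
    have key : D.om g T (M.relabel e a) = (D.om g S a).domDomCongr e := by
      refine D.m_ext fun τ => ?_
      rw [MultilinearMap.domDomCongr_apply, D.om_cl]
      have h1 := D.om_cl a (τ ∘ e)
      simp only [Function.comp_apply] at h1
      rw [h1, R.raw_relabel, hM.aug_relabel]
      congr 2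
      exact (Fintype.prod_equiv e _ _ fun s => rfl).symm
    exact congrArg (fun f => f v) key
  · have hT : ¬ Finite T := fun h => hS (Finite.of_equiv T e.symm)
    change D.om g T (M.relabel e a) v = D.om g S a (v ∘ e)
    rw [D.om_of_infinite hS, D.om_of_infinite hT]
    rfl

lemma unitMetric : UnitMetric D.data := by
  intro a x y
  have key : atTwo (D.om 0 (Option (Option Unit)) a) (fun _ => D.c R.xu) =
      (M.aug a : ℂ) • D.B := by
    refine D.l_ext fun y => D.l_ext fun x => ?_
    rw [atTwo_apply]
    have h4 : extend (extend (fun _ : Unit => D.c R.xu) (D.c y)) (D.c x) =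
        fun s => D.c (consOpt (consOpt (fun _ => R.xu) y) x s) := by
      funext o
      rcases o with _ | _ | s <;> rfl
    rw [h4, D.om_cl, R.raw_three, if_neg (by decide), zero_mul, add_zero,
      LinearMap.smul_apply, LinearMap.smul_apply, D.B_cl, R.symm x y, smul_eq_mul]
  have h1 := congrArg (fun f => f y x) key
  refine h1.trans ?_
  simp only [LinearMap.smul_apply, smul_eq_mul]
  rw [D.B_symm.eq]
  rfl

/-- The field theory. -/
noncomputable def cohFT (hM : CurveHomology M) : CohFT M where
  toCohFTData := D.data
  symm := D.B_symm
  nondegenerate := D.B_nondeg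
  linear := D.omegaLinear hM
  equivariance := D.equivariance hM
  gluing := D.gluing hM
  selfGluing := D.selfGluing hM
  unit_pullback := D.unitPullback hM
  unit_metric := D.unitMetric hM

end Lin

end Run7.h225
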