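import Pool.Agent.Run7.h225.StateFin
import Pool.Agent.Run7.h225.RawTrace
import Pool.Agent.Run7.h225.OddGlue

set_option autoImplicit false

namespace Run7.h225

variable {M : CurveMaps} {J : ∀ (g : ℕ) (S : Type), Submodule ℚ (M.H g S)}

/-- A class that does not lie in the ideal `J` is detected by a CohFT. -/
theorem mem_of_undetected (hM : CurveHomology M) (hJ : IsIdeal M J)
    (hodd : ContainsOddGlue M J) (hself : ContainsSelfGlue M J) {g : ℕ} {S : Type}
    {A : M.H g S} (hA : Undetected M A) : A ∈ J g S := by
  by_contra hmem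
  have hst : Stable g S := by
    by_contra hst
    rw [hM.eq_zero_of_not_stable hst A] at hmem
    exact hmem (Submodule.zero_mem _)
  obtain ⟨f, hf, hfJ⟩ := Submodule.exists_le_ker_of_notMem hmem
  have : Finite S := hst.1
  have := Fintype.ofFinite S
  let D : Setup M J g S :=
    { hM := hM
      hJ := hJ
      hodd := hodd
      hself := hself
      stable := hst
      α := (f A)⁻¹ • f
      hα := fun a ha => by
        have : f a = 0 := hfJ ha
        rw [LinearMap.smul_apply, this, smul_zero]
      A := A
      hA := by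
        rw [LinearMap.smul_apply, smul_eq_mul]
        exact inv_mul_cancel₀ hf }
  obtain ⟨E⟩ := exists_Lin D.rawTheory
  have h1 := hA (E.cohFT hM) (fun s => E.c (D.xc (some s)))
  have h2 : E.om g S A (fun s => E.c (D.xc (some s))) =
      D.raw A (fun s => D.xc (some s)) +
        (if g = 1 then (E.r : ℂ) * M.aug A else 0) * ∏ s, D.eta D.zs (D.xc (some s)) :=
    E.om_cl A _
  have h3 : E.om g S A (fun s => E.c (D.xc (some s))) = 0 := h1
  have hA' : D.raw A (fun s => D.xc (some s)) = 1 := D.raw_A
  rw [h3, hA'] at h2
  have h4 : (if g = 1 then (E.r : ℂ) * M.aug A else 0) * ∏ s, D.eta D.zs (D.xc (some s)) = 0 := by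
    by_cases hg : g = 1
    · have hS : Nonempty S := by
        rw [← Finite.card_pos_iff]
        have := hst.2
        omega
      obtain ⟨s⟩ := hS
      have h5 : D.eta D.zs (D.xc (some s)) = 0 := D.rawTheory.eta_zs_pos (D.w_some s)
      rw [Finset.prod_eq_zero (Finset.mem_univ s) h5, mul_zero]
    · rw [if_neg hg, zero_mul]
  rw [h4, add_zero] at h2
  exact zero_ne_one h2

end Run7.h225
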