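import Pool.Agent.Run7.h225.Ideal
import Pool.Agent.Run7.h225.Basic
import Pool.Agent.Run7.h225.Contract

set_option autoImplicit false

namespace Run7.h225

variable {M : CurveMaps}

lemma mem_idealOf {P : (∀ (g : ℕ) (S : Type), Submodule ℚ (M.H g S)) → Prop} {g : ℕ} {S : Type}
    {a : M.H g S} : a ∈ idealOf M P g S ↔
      ∀ J : ∀ (g : ℕ) (S : Type), Submodule ℚ (M.H g S), IsIdeal M J → P J → a ∈ J g S := by
  simp only [idealOf, Submodule.mem_iInf]

lemma isIdeal_idealOf (P : (∀ (g : ℕ) (S : Type), Submodule ℚ (M.H g S)) → Prop) :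
    IsIdeal M (idealOf M P) := by
  refine ⟨?_, ?_, ?_⟩
  · intro g S T i a ha
    rw [mem_idealOf] at *
    exact fun J hJ hP => hJ.forget _ _ _ _ _ (ha J hJ hP)
  · intro g₁ g₂ g h S T a b ha
    rw [mem_idealOf] at *
    exact fun J hJ hP => hJ.glue_left _ _ _ _ _ _ _ _ (ha J hJ hP)
  · intro g₁ g₂ g h S T a b hb
    rw [mem_idealOf] at *
    exact fun J hJ hP => hJ.glue_right _ _ _ _ _ _ _ _ (hb J hJ hP)

lemma idealOf_le {P : (∀ (g : ℕ) (S : Type), Submodule ℚ (M.H g S)) → Prop}
    {J : ∀ (g : ℕ) (S : Type), Submodule ℚ (M.H g S)} (hJ : IsIdeal M J) (hP : P J) (g : ℕ)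
    (S : Type) : idealOf M P g S ≤ J g S := fun _ ha => mem_idealOf.1 ha J hJ hP

lemma oddIdeal_contains : ContainsOddGlue M (oddIdeal M) := by
  intro g₁ g₂ g h S T p q a b hp hq ha hb
  exact mem_idealOf.2 fun J _ hP => hP _ _ _ _ _ _ _ _ _ _ hp hq ha hb

lemma nonsepIdeal_contains : ContainsSelfGlue M (nonsepIdeal M) := by
  intro g g' h S a
  exact mem_idealOf.2 fun J _ hP => hP _ _ _ _ _

lemma isIdeal_sup (hM : CurveHomology M) {J K : ∀ (g : ℕ) (S : Type), Submodule ℚ (M.H g S)}
    (hJ : IsIdeal M J) (hK : IsIdeal M K) : IsIdeal M (fun g S => J g S ⊔ K g S) := by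
  refine ⟨?_, ?_, ?_⟩
  · intro g S T i a ha
    obtain ⟨x, hx, y, hy, rfl⟩ := Submodule.mem_sup.1 ha
    rw [hM.forget_add]
    exact Submodule.add_mem_sup (hJ.forget _ _ _ _ _ hx) (hK.forget _ _ _ _ _ hy)
  · intro g₁ g₂ g h S T a b ha
    obtain ⟨x, hx, y, hy, rfl⟩ := Submodule.mem_sup.1 ha
    rw [hM.glue_add_left]
    exact Submodule.add_mem_sup (hJ.glue_left _ _ _ _ _ _ _ _ hx)
      (hK.glue_left _ _ _ _ _ _ _ _ hy)
  · intro g₁ g₂ g h S T a b hb
    obtain ⟨x, hx, y, hy, rfl⟩ := Submodule.mem_sup.1 hb
    rw [hM.glue_add_right]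
    exact Submodule.add_mem_sup (hJ.glue_right _ _ _ _ _ _ _ _ hx)
      (hK.glue_right _ _ _ _ _ _ _ _ hy)

lemma contract_zero' {V : Type} [AddCommGroup V] [Module ℂ V] [FiniteDimensional ℂ V]
    {η : LinearMap.BilinForm ℂ V} {β : V → V → ℂ} (h : ∀ x y, β x y = 0) :
    contract η β = 0 := by
  unfold contract
  simp only [h, mul_zero, Finset.sum_const_zero]

/-- The intersection numbers of a class from which markings have been forgotten. -/
lemma CohFT.Ω_forget_inl (hM : CurveHomology M) (Z : CohFT M) {g : ℕ} {T C : Type} [Finite C]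
    (hT : Stable g T) (a : M.H g (T ⊕ C)) (v : T → Z.V) :
    Z.Ω g T (M.forget Function.Embedding.inl a) v =
      Z.Ω g (T ⊕ C) a (Sum.elim v fun _ => Z.one) := by
  have key : ∀ (C : Type) [Finite C], ∀ (a : M.H g (T ⊕ C)),
      Z.Ω g T (M.forget Function.Embedding.inl a) v =
        Z.Ω g (T ⊕ C) a (Sum.elim v fun _ => Z.one) := by
    intro C _
    have hTf : Finite T := hT.1
    refine Finite.induction_empty_option (P := fun C => ∀ [Finite C], ∀ (a : M.H g (T ⊕ C)),
      Z.Ω g T (M.forget Function.Embedding.inl a) v =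
        Z.Ω g (T ⊕ C) a (Sum.elim v fun _ => Z.one)) ?_ ?_ ?_ C
    · intro C D e ih _ a
      have : Finite C := Finite.of_equiv D e.symm
      have ha : a = M.relabel (Equiv.sumCongr (Equiv.refl T) e)
          (M.relabel (Equiv.sumCongr (Equiv.refl T) e).symm a) :=
        (hM.relabel_relabel_symm _ a).symm
      have h := ih (M.relabel (Equiv.sumCongr (Equiv.refl T) e).symm a)
      rw [ha, Z.equivariance]
      have h1 : M.forget (Function.Embedding.inl : T ↪ T ⊕ D)
          (M.relabel (Equiv.sumCongr (Equiv.refl T) e)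
            (M.relabel (Equiv.sumCongr (Equiv.refl T) e).symm a)) =
          M.forget Function.Embedding.inl
            (M.relabel (Equiv.sumCongr (Equiv.refl T) e).symm a) :=
        hM.forget_forget _ _ _
      have h2 : (Sum.elim v fun _ : D => Z.one) ∘ (Equiv.sumCongr (Equiv.refl T) e) =
          Sum.elim v fun _ : C => Z.one := by
        funext o
        rcases o with o | o <;> rfl
      rw [h1, h, h2]
    · intro _ a
      have h := Z.equivariance g (T ⊕ PEmpty) T (Equiv.sumEmpty T PEmpty) a v
      have h1 : M.relabel (Equiv.sumEmpty T PEmpty) a =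
          M.forget Function.Embedding.inl a := by
        unfold CurveMaps.relabel
        congr 1
      rw [← h1, h]
      congr 1
      funext o
      rcases o with o | o
      · rfl
      · exact o.elim
    · intro C _ ih _ a
      have hst : Stable g (T ⊕ C) := Stable.of_embedding Function.Embedding.inl hT
      have h := Z.unit_pullback g (T ⊕ C) hst (M.relabel (sumOption T C) a)
        (Sum.elim v fun _ => Z.one)
      rw [Z.equivariance, ← ih] at h
      have h1 : (extend (Sum.elim v fun _ : C => Z.one) Z.one) ∘ (sumOption T C) =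
          Sum.elim v fun _ => Z.one := by
        funext o
        rcases o with o | (_ | o) <;> rfl
      rw [h1] at h
      rw [h]
      congr 1
      unfold CurveMaps.relabel
      rw [hM.forget_forget, hM.forget_forget]
      rfl
  exact key C a

/-- The undetected classes form an ideal. -/
lemma isIdeal_undetected (hM : CurveHomology M) : IsIdeal M (undetectedSub M) := by
  refine ⟨?_, ?_, ?_⟩
  · intro g S T i a ha Z v
    by_cases hT : Stable g T
    · by_cases hS : Finite S
      · classical
        let C := {s : S // s ∉ Set.range i}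
        let e : S ≃ T ⊕ C := ((Equiv.sumCongr (Equiv.ofInjective i i.injective)
          (Equiv.refl C)).trans (Equiv.Set.sumCompl (Set.range i))).symm
        have h1 : M.forget i a = M.forget Function.Embedding.inl (M.relabel e a) := by
          unfold CurveMaps.relabel
          rw [hM.forget_forget]
          congr 1
        rw [h1, Z.Ω_forget_inl hM hT, Z.equivariance]
        exact ha Z _
      · have hn : ¬ Stable g S := fun h => hS h.1
        rw [hM.eq_zero_of_not_stable hn a, hM.forget_zero, Z.Ω_zero]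
    · rw [hM.eq_zero_of_not_stable hT (M.forget i a), Z.Ω_zero]
  · intro g₁ g₂ g h S T a b ha Z v
    rw [Z.gluing]
    exact contract_zero' fun x y => by rw [ha Z, zero_mul]
  · intro g₁ g₂ g h S T a b hb Z v
    rw [Z.gluing]
    exact contract_zero' fun x y => by rw [hb Z, mul_zero]

/-- Gluing two markings of an undetected class gives an undetected class. -/
lemma undetected_selfGlue {g g' : ℕ} (h : g + 1 = g') {S : Type} {a : M.H g (Option (Option S))}
    (ha : Undetected M a) : Undetected M (M.selfGlue h a) := by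
  intro Z v
  rw [Z.selfGluing]
  exact contract_zero' fun x y => by rw [ha Z]

end Run7.h225
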