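import Pool.Agent.Run7.h225.Detect
import Pool.Agent.Run7.h225.IdealLemmas

set_option autoImplicit false

namespace Run7.h225

/-- The even part `⨁_{d even} H_d(M̄_{g,S}; ℚ)` of the homology. -/
def evenPart (M : CurveMaps) (g : ℕ) (S : Type) : Submodule ℚ (M.H g S) :=
  ⨆ (d : ℕ) (_ : Even d), M.deg g S d

variable {M : CurveMaps}

/-- The undetected classes modulo the classes supported on the non-separating boundary. -/
theorem undetected_mod_nonsep (hM : CurveHomology M) {g : ℕ} {S : Type} (A : M.H g S) :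
    (∃ B ∈ nonsepIdeal M g S, ∃ C, Undetected M C ∧ A = B + C) ↔
      A ∈ nonsepIdeal M g S ⊔ oddIdeal M g S := by
  constructor
  · rintro ⟨B, hB, C, hC, rfl⟩
    refine Submodule.add_mem _ (Submodule.mem_sup_left hB) ?_
    have hI := isIdeal_sup hM (isIdeal_idealOf (M := M) (ContainsSelfGlue M))
      (isIdeal_idealOf (M := M) (ContainsOddGlue M))
    refine mem_of_undetected hM hI ?_ ?_ hC
    · intro g₁ g₂ g h S T p q a b hp hq ha hb
      exact Submodule.mem_sup_right (oddIdeal_contains _ _ _ h _ _ _ _ a b hp hq ha hb)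
    · intro g g' h S a
      exact Submodule.mem_sup_left (nonsepIdeal_contains _ _ h _ a)
  · intro hA
    obtain ⟨B, hB, C, hC, rfl⟩ := Submodule.mem_sup.1 hA
    refine ⟨B, hB, C, ?_, rfl⟩
    refine idealOf_le (isIdeal_undetected hM) ?_ g S hC
    intro g₁ g₂ g h S T p q a b hp hq ha hb
    exact glue_mem_undetected hM h
      (Submodule.mem_iSup_of_mem p (Submodule.mem_iSup_of_mem hp ha))
      (Submodule.mem_iSup_of_mem q (Submodule.mem_iSup_of_mem hq hb))

/-- Classes of odd degree vanish if the odd part does. -/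
lemma eq_zero_of_odd {g : ℕ} {S : Type} (h : oddPart M g S = ⊥) {p : ℕ} (hp : Odd p)
    {a : M.H g S} (ha : a ∈ M.deg g S p) : a = 0 := by
  have : a ∈ oddPart M g S := Submodule.mem_iSup_of_mem p (Submodule.mem_iSup_of_mem hp ha)
  rwa [h, Submodule.mem_bot] at this

lemma top_le_evenPart (hM : CurveHomology M) {g : ℕ} {S : Type} (h : oddPart M g S = ⊥) :
    (⊤ : Submodule ℚ (M.H g S)) ≤ evenPart M g S := by
  rw [← (hM.isGraded g S).2.2]
  refine iSup_le fun d => ?_
  rcases Nat.even_or_odd d with hd | hd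
  · exact le_iSup₂_of_le d hd le_rfl
  · intro a ha
    rw [eq_zero_of_odd h hd ha]
    exact Submodule.zero_mem _

/-- The linear map of forgetting preserves the even part. -/
lemma forget_evenPart (hM : CurveHomology M) {g : ℕ} {S T : Type} (i : T ↪ S) {a : M.H g S}
    (ha : a ∈ evenPart M g S) : M.forget i a ∈ evenPart M g T := by
  have : evenPart M g S ≤ (evenPart M g T).comap (hM.forgetₗ i) :=
    iSup₂_le fun d hd x hx => Submodule.mem_iSup_of_mem d (Submodule.mem_iSup_of_mem hd
      (hM.forget_deg i hx))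
  exact this ha

lemma glue_evenPart (hM : CurveHomology M) {g₁ g₂ g : ℕ} (h : g₁ + g₂ = g) {S T : Type}
    {a : M.H g₁ (Option S)} {b : M.H g₂ (Option T)} (ha : a ∈ evenPart M g₁ (Option S))
    (hb : b ∈ evenPart M g₂ (Option T)) : M.glue h a b ∈ evenPart M g (S ⊕ T) := by
  have h1 : ∀ a' : M.H g₁ (Option S), (∃ p, Even p ∧ a' ∈ M.deg g₁ (Option S) p) →
      evenPart M g₂ (Option T) ≤ (evenPart M g (S ⊕ T)).comap (hM.glueₗ h a') := by
    rintro a' ⟨p, hp, ha'⟩
    exact iSup₂_le fun q hq b' hb' => Submodule.mem_iSup_of_mem (p + q)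
      (Submodule.mem_iSup_of_mem (hp.add hq) (hM.glue_deg h ha' hb'))
  have h2 : evenPart M g₁ (Option S) ≤
      (evenPart M g (S ⊕ T)).comap ((hM.glueₗ h).flip b) :=
    iSup₂_le fun p hp a' ha' => h1 a' ⟨p, hp, ha'⟩ hb
  exact h2 ha

lemma selfGlue_evenPart (hM : CurveHomology M) {g g' : ℕ} (h : g + 1 = g') {S : Type}
    {a : M.H g (Option (Option S))} (ha : a ∈ evenPart M g (Option (Option S))) :
    M.selfGlue h a ∈ evenPart M g' S := by
  have : evenPart M g (Option (Option S)) ≤ (evenPart M g' S).comap (hM.selfGlueₗ h) :=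
    iSup₂_le fun d hd x hx => Submodule.mem_iSup_of_mem d (Submodule.mem_iSup_of_mem hd
      (hM.selfGlue_deg h hx))
  exact this ha

/-- The ideal that is `J₀`, `J₁` in genus `0`, `1` and everything in higher genus. -/
def lowIdeal (M : CurveMaps) (J₁ : ∀ S : Type, Submodule ℚ (M.H 1 S)) :
    ∀ (g : ℕ) (S : Type), Submodule ℚ (M.H g S)
  | 0, _ => ⊥
  | 1, S => J₁ S
  | _ + 2, _ => ⊤

lemma isIdeal_low (hM : CurveHomology M) (J₁ : ∀ S : Type, Submodule ℚ (M.H 1 S))
    (hf : ∀ (S T : Type) (i : T ↪ S) (a : M.H 1 S), a ∈ J₁ S → M.forget i a ∈ J₁ T)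
    (hl : ∀ (S T : Type) (a : M.H 1 (Option S)) (b : M.H 0 (Option T)), a ∈ J₁ (Option S) →
      M.glue (rfl : 1 + 0 = 1) a b ∈ J₁ (S ⊕ T))
    (hr : ∀ (S T : Type) (a : M.H 0 (Option S)) (b : M.H 1 (Option T)), b ∈ J₁ (Option T) →
      M.glue (rfl : 0 + 1 = 1) a b ∈ J₁ (S ⊕ T)) : IsIdeal M (lowIdeal M J₁) := by
  refine ⟨?_, ?_, ?_⟩
  · intro g S T i a ha
    match g, a, ha with
    | 0, a, ha =>
      have : a = 0 := (Submodule.mem_bot ℚ).1 ha
      rw [this, hM.forget_zero]
      exact Submodule.zero_mem _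
    | 1, a, ha => exact hf S T i a ha
    | _ + 2, a, _ => exact Submodule.mem_top
  · intro g₁ g₂ g h S T a b ha
    match g, h with
    | 0, h =>
      obtain rfl : g₁ = 0 := by omega
      have : a = 0 := (Submodule.mem_bot ℚ).1 ha
      rw [this, hM.glue_zero_left]
      exact Submodule.zero_mem _
    | 1, h =>
      have h' : g₁ = 0 ∧ g₂ = 1 ∨ g₁ = 1 ∧ g₂ = 0 := by omega
      rcases h' with ⟨rfl, rfl⟩ | ⟨rfl, rfl⟩
      · have : a = 0 := (Submodule.mem_bot ℚ).1 ha
        rw [this, hM.glue_zero_left]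
        exact Submodule.zero_mem _
      · exact hl S T a b ha
    | _ + 2, h => exact Submodule.mem_top
  · intro g₁ g₂ g h S T a b hb
    match g, h with
    | 0, h =>
      obtain rfl : g₂ = 0 := by omega
      have : b = 0 := (Submodule.mem_bot ℚ).1 hb
      rw [this, hM.glue_zero_right]
      exact Submodule.zero_mem _
    | 1, h =>
      have h' : g₁ = 0 ∧ g₂ = 1 ∨ g₁ = 1 ∧ g₂ = 0 := by omega
      rcases h' with ⟨rfl, rfl⟩ | ⟨rfl, rfl⟩
      · exact hr S T a b hb
      · have : b = 0 := (Submodule.mem_bot ℚ).1 hb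
        rw [this, hM.glue_zero_right]
        exact Submodule.zero_mem _
    | _ + 2, h => exact Submodule.mem_top

lemma odd_low (hM : CurveHomology M) (h0 : ∀ S : Type, oddPart M 0 S = ⊥)
    (J₁ : ∀ S : Type, Submodule ℚ (M.H 1 S)) : ContainsOddGlue M (lowIdeal M J₁) := by
  intro g₁ g₂ g h S T p q a b hp hq ha hb
  match g, h with
  | 0, h =>
    obtain rfl : g₁ = 0 := by omega
    rw [eq_zero_of_odd (h0 _) hp ha, hM.glue_zero_left]
    exact Submodule.zero_mem _
  | 1, h =>
    have h' : g₁ = 0 ∨ g₂ = 0 := by omega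
    rcases h' with rfl | rfl
    · rw [eq_zero_of_odd (h0 _) hp ha, hM.glue_zero_left]
      exact Submodule.zero_mem _
    · rw [eq_zero_of_odd (h0 _) hq hb, hM.glue_zero_right]
      exact Submodule.zero_mem _
  | _ + 2, h => exact Submodule.mem_top

/-- In genus `0` everything is detected. -/
theorem determined_zero (hM : CurveHomology M) (h0 : ∀ S : Type, oddPart M 0 S = ⊥) (S : Type) :
    Determined M 0 S := by
  intro A B hAB
  have h1 : Undetected M (A - B) := by
    intro Z v
    have h2 := Z.Ω_add (A - B) B v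
    rw [sub_add_cancel, hAB] at h2
    exact add_eq_right.1 h2.symm
  have hJ := isIdeal_low hM (fun S => (⊤ : Submodule ℚ (M.H 1 S)))
    (fun _ _ _ _ _ => Submodule.mem_top) (fun _ _ _ _ _ => Submodule.mem_top)
    (fun _ _ _ _ _ => Submodule.mem_top)
  have hS : ContainsSelfGlue M (lowIdeal M fun S => (⊤ : Submodule ℚ (M.H 1 S))) := by
    intro g g' h S a
    match g', h with
    | 0, h => omega
    | 1, h => exact Submodule.mem_top
    | _ + 2, h => exact Submodule.mem_top
  have h3 := mem_of_undetected hM hJ (odd_low hM h0 _) hS h1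
  exact sub_eq_zero.1 ((Submodule.mem_bot ℚ).1 h3)

/-- In genus `1` the undetected classes have even degree and lie in the ideal of the classes
supported on the non-separating boundary. -/
theorem undetected_one (hM : CurveHomology M) (h0 : ∀ S : Type, oddPart M 0 S = ⊥) {S : Type}
    {A : M.H 1 S} (hA : Undetected M A) : A ∈ nonsepIdeal M 1 S ∧ A ∈ evenPart M 1 S := by
  have hN := isIdeal_idealOf (M := M) (ContainsSelfGlue M)
  constructor
  · have hJ := isIdeal_low hM (fun S => nonsepIdeal M 1 S)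
      (fun _ _ _ _ ha => hN.forget _ _ _ _ _ ha)
      (fun _ _ _ _ ha => hN.glue_left _ _ _ _ _ _ _ _ ha)
      (fun _ _ _ _ ha => hN.glue_right _ _ _ _ _ _ _ _ ha)
    have hS : ContainsSelfGlue M (lowIdeal M fun S => nonsepIdeal M 1 S) := by
      intro g g' h S a
      match g', h with
      | 0, h => omega
      | 1, h => exact nonsepIdeal_contains _ _ h _ a
      | _ + 2, h => exact Submodule.mem_top
    exact mem_of_undetected hM hJ (odd_low hM h0 _) hS hA
  · have he : ∀ (S : Type) (a : M.H 0 S), a ∈ evenPart M 0 S := fun S a =>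
      top_le_evenPart hM (h0 S) Submodule.mem_top
    have hJ := isIdeal_low hM (fun S => evenPart M 1 S)
      (fun _ _ i _ ha => forget_evenPart hM i ha)
      (fun _ _ _ b ha => glue_evenPart hM rfl ha (he _ b))
      (fun _ _ a _ hb => glue_evenPart hM rfl (he _ a) hb)
    have hS : ContainsSelfGlue M (lowIdeal M fun S => evenPart M 1 S) := by
      intro g g' h S a
      match g', h with
      | 0, h => omega
      | 1, h =>
        obtain rfl : g = 0 := by omega
        exact selfGlue_evenPart hM h (he _ a)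
      | _ + 2, h => exact Submodule.mem_top
    exact mem_of_undetected hM hJ (odd_low hM h0 _) hS hA

end Run7.h225
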