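import Pool.Agent.Run7.h225.Curves

/-!
# Cohomological field theories
-/

set_option autoImplicit false

namespace Run7.h225

/-- The vectors `v s`, `s ∈ S`, at the markings `S` and the vector `x` at the extra marking. -/
def extend {S V : Type} (v : S → V) (x : V) : Option S → V := fun o => o.elim x v

/-- The contraction `∑ η^{ij} β(e_i, e_j)` with the inverse `η^{-1}` of the form `η`; here `e_i` is
a basis of `V` and `(η^{ij})` is the inverse of the matrix `(η(e_i, e_j))`. -/
noncomputable def contract {V : Type} [AddCommGroup V] [Module ℂ V] [FiniteDimensional ℂ V]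
    (η : LinearMap.BilinForm ℂ V) (β : V → V → ℂ) : ℂ :=
  ∑ i, ∑ j, (LinearMap.BilinForm.toMatrix (Module.finBasis ℂ V) η)⁻¹ i j *
    β (Module.finBasis ℂ V i) (Module.finBasis ℂ V j)

/-- The data `(V, η, 1, Ω)` of a cohomological field theory.  The class
`Ω_{g,S} ∈ H^*(M̄_{g,S}; ℂ) ⊗ (V^*)^{⊗ S}` is given as the pairing with homology: `Ω g S a v` is the
intersection number `⟨a, Ω_{g,S}(v)⟩`. -/
structure CohFTData (M : CurveMaps) where
  V : Type
  [addCommGroup : AddCommGroup V]
  [module : Module ℂ V]
  [finiteDimensional : FiniteDimensional ℂ V]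
  /-- the metric -/
  η : LinearMap.BilinForm ℂ V
  /-- the unit vector -/
  one : V
  Ω : ∀ (g : ℕ) (S : Type), M.H g S → MultilinearMap ℂ (fun _ : S => V) ℂ

attribute [instance] CohFTData.addCommGroup CohFTData.module CohFTData.finiteDimensional

section axioms

variable {M : CurveMaps} (Z : CohFTData M)

/-- The intersection number `⟨a, Ω_{g,S}(v)⟩` is linear in the homology class `a`. -/
def OmegaLinear : Prop := ∀ (g : ℕ) (S : Type) (v : S → Z.V),
  (∀ a b : M.H g S, Z.Ω g S (a + b) v = Z.Ω g S a v + Z.Ω g S b v) ∧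
  (∀ (c : ℚ) (a : M.H g S), Z.Ω g S (c • a) v = c * Z.Ω g S a v)

/-- Equivariance. -/
def Equivariance : Prop := ∀ (g : ℕ) (S T : Type) (e : S ≃ T) (a : M.H g S) (v : T → Z.V),
  Z.Ω g T (M.relabel e a) v = Z.Ω g S a (v ∘ e)

/-- The gluing axiom for the separating gluing maps.  It is stated on the products `a × b`, which
span the homology of `M̄_{g₁,S ⊔ none} × M̄_{g₂,T ⊔ none}`.  (Whether the pairing of a product of
cohomology classes with a product of homology classes carries the sign `(-1)^(pq)` does not matter:
both sides vanish when `a` and `b` are both odd, with either convention.) -/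
def Gluing : Prop := ∀ (g₁ g₂ g : ℕ) (h : g₁ + g₂ = g) (S T : Type)
  (a : M.H g₁ (Option S)) (b : M.H g₂ (Option T)) (v : S ⊕ T → Z.V),
    Z.Ω g (S ⊕ T) (M.glue h a b) v = contract Z.η fun x y =>
      Z.Ω g₁ (Option S) a (extend (v ∘ Sum.inl) x) * Z.Ω g₂ (Option T) b (extend (v ∘ Sum.inr) y)

/-- The gluing axiom for the non-separating gluing maps. -/
def SelfGluing : Prop := ∀ (g g' : ℕ) (h : g + 1 = g') (S : Type)
  (a : M.H g (Option (Option S))) (v : S → Z.V),
    Z.Ω g' S (M.selfGlue h a) v = contract Z.η fun x y =>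
      Z.Ω g (Option (Option S)) a (extend (extend v y) x)

/-- The unit axiom `Ω_{g,n+1}(v, 1) = π^* Ω_{g,n}(v)`. -/
def UnitPullback : Prop := ∀ (g : ℕ) (S : Type), Stable g S →
  ∀ (a : M.H g (Option S)) (v : S → Z.V),
    Z.Ω g (Option S) a (extend v Z.one) = Z.Ω g S (M.forget Function.Embedding.some a) v

/-- The unit axiom `Ω_{0,3}(x, y, 1) = η(x, y)` on `M̄_{0,3}`, which is a point. -/
def UnitMetric : Prop := ∀ (a : M.H 0 (Option (Option Unit))) (x y : Z.V),
  Z.Ω 0 (Option (Option Unit)) a (extend (extend (fun _ => Z.one) y) x) = M.aug a * Z.η x y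

end axioms

/-- A cohomological field theory `(V, η, 1, Ω)`. -/
structure CohFT (M : CurveMaps) extends CohFTData M where
  symm : η.IsSymm
  nondegenerate : η.Nondegenerate
  linear : OmegaLinear toCohFTData
  equivariance : Equivariance toCohFTData
  gluing : Gluing toCohFTData
  selfGluing : SelfGluing toCohFTData
  unit_pullback : UnitPullback toCohFTData
  unit_metric : UnitMetric toCohFTData

/-- The statement of Q1 for the pair `(g, S)`: two homology classes of `M̄_{g,S}` that have the same
intersection numbers with every CohFT are equal. -/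
def Determined (M : CurveMaps) (g : ℕ) (S : Type) : Prop :=
  ∀ A B : M.H g S, (∀ (Z : CohFT M) (v : S → Z.V), Z.Ω g S A v = Z.Ω g S B v) → A = B

/-- The homology class `A` of `M̄_{g,S}` is undetected: its intersection numbers with every CohFT
vanish.  Q1 for `(g, S)` says that there are no such classes except zero. -/
def Undetected (M : CurveMaps) {g : ℕ} {S : Type} (A : M.H g S) : Prop :=
  ∀ (Z : CohFT M) (v : S → Z.V), Z.Ω g S A v = 0

end Run7.h225
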