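import Pool.Agent.Run7.h225.Field

/-!
# Graded cohomological field theories

A `ℤ/2`-graded CohFT `(V, η, Ω)` is given by its components in a homogeneous basis `(e_i)` of `V`.
The axioms are required up to signs which depend only on the parities of the basis vectors (and on
the homology classes, markings and genera), so that they hold for every sign convention.
-/

set_option autoImplicit false

namespace Run7.h225

/-- The data of a graded CohFT in a homogeneous basis `(e_i)`, `i ∈ ι`, of `V`. -/
structure GradedData (M : CurveMaps) where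
  ι : Type
  [fintype : Fintype ι]
  [decidableEq : DecidableEq ι]
  /-- the parity of the basis vector `e_i` -/
  parity : ι → ZMod 2
  /-- the matrix `η(e_i, e_j)` of the metric -/
  η : Matrix ι ι ℂ
  /-- `Ω g S a i` is the number `⟨a, Ω_{g,S}(⊗ e_{i s})⟩`. -/
  Ω : ∀ (g : ℕ) (S : Type), M.H g S → (S → ι) → ℂ

attribute [instance] GradedData.fintype GradedData.decidableEq

section axioms

variable {M : CurveMaps} (Z : GradedData M)

/-- `Ω` is linear in the homology class. -/
def GradedLinear : Prop := ∀ (g : ℕ) (S : Type) (i : S → Z.ι),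
  (∀ a b : M.H g S, Z.Ω g S (a + b) i = Z.Ω g S a i + Z.Ω g S b i) ∧
  (∀ (c : ℚ) (a : M.H g S), Z.Ω g S (c • a) i = c * Z.Ω g S a i)

/-- The metric is nondegenerate and even. -/
def EvenMetric : Prop :=
  IsUnit Z.η.det ∧ ∀ k l, Z.η k l ≠ 0 → Z.parity k = Z.parity l

/-- `Ω` is homogeneous: for a homogeneous class `a` the numbers `⟨a, Ω(⊗ e_{i s})⟩` vanish on the
words `i` of one of the two parities. -/
def Homogeneous : Prop := ∀ (g : ℕ) (S : Type) [Fintype S] (d : ℕ) (a : M.H g S),
  a ∈ M.deg g S d → ∃ c : ZMod 2, ∀ i : S → Z.ι, Z.Ω g S a i ≠ 0 → ∑ s, Z.parity (i s) = c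

/-- Equivariance, up to a sign that depends only on the parities. -/
def GradedEquivariance : Prop := ∀ (g : ℕ) (S T : Type) (e : S ≃ T) (d : ℕ) (a : M.H g S),
  a ∈ M.deg g S d → ∃ σ : (T → ZMod 2) → ℤˣ, ∀ i : T → Z.ι,
    Z.Ω g T (M.relabel e a) i = σ (Z.parity ∘ i) • Z.Ω g S a (i ∘ e)

/-- Separating gluing, up to signs that depend only on the parities. -/
def GradedGluing : Prop := ∀ (g₁ g₂ g : ℕ) (h : g₁ + g₂ = g) (S T : Type) (p q : ℕ)
  (a : M.H g₁ (Option S)) (b : M.H g₂ (Option T)), a ∈ M.deg g₁ (Option S) p →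
  b ∈ M.deg g₂ (Option T) q → ∃ σ : (S ⊕ T → ZMod 2) → ZMod 2 → ℤˣ, ∀ i : S ⊕ T → Z.ι,
    Z.Ω g (S ⊕ T) (M.glue h a b) i = ∑ k, ∑ l, σ (Z.parity ∘ i) (Z.parity k) •
      (Z.η⁻¹ k l * Z.Ω g₁ (Option S) a (extend (i ∘ Sum.inl) k) *
        Z.Ω g₂ (Option T) b (extend (i ∘ Sum.inr) l))

/-- Non-separating gluing, up to signs that depend only on the parities. -/
def GradedSelfGluing : Prop := ∀ (g g' : ℕ) (h : g + 1 = g') (S : Type) (d : ℕ)
  (a : M.H g (Option (Option S))), a ∈ M.deg g (Option (Option S)) d →
  ∃ σ : (S → ZMod 2) → ZMod 2 → ℤˣ, ∀ i : S → Z.ι,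
    Z.Ω g' S (M.selfGlue h a) i = ∑ k, ∑ l, σ (Z.parity ∘ i) (Z.parity k) •
      (Z.η⁻¹ k l * Z.Ω g (Option (Option S)) a (extend (extend i l) k))

end axioms

/-- A graded cohomological field theory; a unit is not required. -/
structure GradedCohFT (M : CurveMaps) extends GradedData M where
  linear : GradedLinear toGradedData
  even_metric : EvenMetric toGradedData
  homogeneous : Homogeneous toGradedData
  equivariance : GradedEquivariance toGradedData
  gluing : GradedGluing toGradedData
  selfGluing : GradedSelfGluing toGradedData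

/-- The class `A` is not detected by graded CohFTs: `⟨A, Ω_{g,S}(v)⟩ = 0` for all of them. -/
def GradedUndetected (M : CurveMaps) {g : ℕ} {S : Type} (A : M.H g S) : Prop :=
  ∀ (Z : GradedCohFT M) (i : S → Z.ι), Z.Ω g S A i = 0

/-- Chain composition of classes with two extra markings: the marking `none` of `a` is glued to the
marking `some none` of `b`; the remaining extra markings `some none` of `a` and `none` of `b` keep
their names. -/
def chain (M : CurveMaps) {g₁ g₂ g : ℕ} (h : g₁ + g₂ = g) {S T : Type}
    (a : M.H g₁ (Option (Option S))) (b : M.H g₂ (Option (Option T))) :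
    M.H g (Option (Option (S ⊕ T))) :=
  M.relabel ((sumOption (Option S) T).trans (Equiv.optionCongr (optionSum S T)))
    (M.glue h a (M.relabel (optionSwap T) b))

/-- The powers `x`, `x ∘ x`, `(x ∘ x) ∘ x`, … of a class with two extra markings under chain
composition, with their genus and set of markings. -/
def chainPow (M : CurveMaps) {g : ℕ} {S : Type} (x : M.H g (Option (Option S))) :
    ℕ → Σ (h : ℕ) (T : Type), M.H h (Option (Option T))
  | 0 => ⟨g, S, x⟩
  | n + 1 => ⟨(chainPow M x n).1 + g, (chainPow M x n).2.1 ⊕ S,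
      chain M rfl (chainPow M x n).2.2 x⟩

section statements

variable (M : CurveMaps)

/-- If a homogeneous class `x` is nilpotent for chain composition, then the class obtained by gluing
its two extra markings is not detected by graded CohFTs. -/
def NilpotentClosing : Prop := ∀ (g : ℕ) (S : Type) (d : ℕ) (x : M.H g (Option (Option S))),
  x ∈ M.deg g (Option (Option S)) d → (∃ n, (chainPow M x n).2.2 = 0) →
    GradedUndetected M (g := g + 1) (M.selfGlue rfl x)

/-- If `x ∘ x = 0` for all `x` in a space `U` of homogeneous classes then the classes closed up from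
`a ∘ b` with `a, b ∈ U` are not detected by graded CohFTs. -/
def PairClosing : Prop := ∀ (g : ℕ) (S : Type) (p : ℕ)
  (U : Submodule ℚ (M.H g (Option (Option S)))), U ≤ M.deg g (Option (Option S)) p →
  (∀ x ∈ U, chain M (g := g + g) rfl x x = 0) → ∀ a ∈ U, ∀ b ∈ U,
    GradedUndetected M (g := g + g + 1) (M.selfGlue rfl (chain M (g := g + g) rfl a b))

/-- Undetected homogeneous classes remain undetected after gluing two of their markings. -/
def SelfGlueClosed : Prop := ∀ (g : ℕ) (S : Type) (d : ℕ) (A : M.H g (Option (Option S))),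
  A ∈ M.deg g (Option (Option S)) d → GradedUndetected M A →
    GradedUndetected M (g := g + 1) (M.selfGlue rfl A)

/-- Undetected homogeneous classes remain undetected after gluing with a homogeneous class. -/
def GlueClosed : Prop := ∀ (g₁ g₂ : ℕ) (S T : Type) (p q : ℕ) (A : M.H g₁ (Option S))
  (B : M.H g₂ (Option T)), A ∈ M.deg g₁ (Option S) p → B ∈ M.deg g₂ (Option T) q →
  GradedUndetected M A → GradedUndetected M (g := g₁ + g₂) (M.glue rfl A B)

end statements

end Run7.h225
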