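import Pool.Agent.Run7.h225.Chain

set_option autoImplicit false

namespace Run7.h225

/-- A CohFT on an ungraded space, seen as a graded CohFT with all parities zero. -/
noncomputable def CohFT.toGraded {M : CurveMaps} (Z : CohFT M) : GradedCohFT M where
  ι := Fin (Module.finrank ℂ Z.V)
  parity := fun _ => 0
  η := LinearMap.BilinForm.toMatrix (Module.finBasis ℂ Z.V) Z.η
  Ω := fun g S a i => Z.Ω g S a (fun s => Module.finBasis ℂ Z.V (i s))
  linear := fun g S i => Z.linear g S _
  even_metric := by
    refine ⟨?_, fun _ _ _ => rfl⟩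
    exact isUnit_iff_ne_zero.2 ((LinearMap.BilinForm.nondegenerate_iff_det_ne_zero _).1
      Z.nondegenerate)
  homogeneous := by
    intro g S _ d a _
    exact ⟨0, fun i _ => by simp⟩
  equivariance := by
    intro g S T e d a _
    refine ⟨fun _ => 1, fun i => ?_⟩
    rw [one_smul]
    exact Z.equivariance g S T e a _
  gluing := by
    intro g₁ g₂ g h S T p q a b _ _
    refine ⟨fun _ _ => 1, fun i => ?_⟩
    simp only [one_smul]
    refine (Z.gluing g₁ g₂ g h S T a b _).trans ?_
    unfold contract
    refine Finset.sum_congr rfl fun k _ => Finset.sum_congr rfl fun l _ => ?_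
    have e1 : (fun s => Module.finBasis ℂ Z.V (extend (i ∘ Sum.inl) k s)) =
        extend ((fun s => Module.finBasis ℂ Z.V (i s)) ∘ Sum.inl) (Module.finBasis ℂ Z.V k) := by
      funext o
      rcases o with _ | s <;> rfl
    have e2 : (fun s => Module.finBasis ℂ Z.V (extend (i ∘ Sum.inr) l s)) =
        extend ((fun s => Module.finBasis ℂ Z.V (i s)) ∘ Sum.inr) (Module.finBasis ℂ Z.V l) := by
      funext o
      rcases o with _ | s <;> rfl
    change _ = _ * Z.Ω g₁ (Option S) a (fun s => Module.finBasis ℂ Z.V (extend (i ∘ Sum.inl) k s)) *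
      Z.Ω g₂ (Option T) b (fun s => Module.finBasis ℂ Z.V (extend (i ∘ Sum.inr) l s))
    rw [e1, e2, mul_assoc]
  selfGluing := by
    intro g g' h S d a _
    refine ⟨fun _ _ => 1, fun i => ?_⟩
    simp only [one_smul]
    refine (Z.selfGluing g g' h S a _).trans ?_
    unfold contract
    refine Finset.sum_congr rfl fun k _ => Finset.sum_congr rfl fun l _ => ?_
    have e1 : (fun s => Module.finBasis ℂ Z.V (extend (extend i l) k s)) =
        extend (extend (fun s => Module.finBasis ℂ Z.V (i s)) (Module.finBasis ℂ Z.V l))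
          (Module.finBasis ℂ Z.V k) := by
      funext o
      rcases o with _ | _ | s <;> rfl
    change _ = _ * Z.Ω g (Option (Option S)) a
      (fun s => Module.finBasis ℂ Z.V (extend (extend i l) k s))
    rw [e1]

variable {M : CurveMaps}

/-- Classes that are not seen by graded CohFTs are not seen by CohFTs. -/
theorem gradedUndetected_imp (hM : CurveHomology M) {g : ℕ} {S : Type} {A : M.H g S}
    (hA : GradedUndetected M A) : Undetected M A := by
  intro Z v
  by_cases hst : Stable g S
  · have := hst.1
    have h0 : Z.Ω g S A = 0 := by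
      refine Module.Basis.ext_multilinear (fun _ => Module.finBasis ℂ Z.V) fun i => ?_
      exact hA Z.toGraded i
    rw [h0]
    rfl
  · rw [hM.eq_zero_of_not_stable hst A, Z.Ω_zero]

lemma selfGlue_mem_graded {g g' : ℕ} (h : g + 1 = g') {S : Type} {d : ℕ}
    {A : M.H g (Option (Option S))} (hd : A ∈ M.deg g (Option (Option S)) d)
    (hA : GradedUndetected M A) : GradedUndetected M (M.selfGlue h A) := by
  intro Z i
  obtain ⟨σ, hσ⟩ := Z.selfGluing g g' h S d A hd
  rw [hσ]
  refine Finset.sum_eq_zero fun k _ => Finset.sum_eq_zero fun l _ => ?_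
  rw [hA Z, mul_zero, smul_zero]

lemma glue_mem_graded {g₁ g₂ g : ℕ} (h : g₁ + g₂ = g) {S T : Type} {p q : ℕ}
    {A : M.H g₁ (Option S)} {B : M.H g₂ (Option T)} (hp : A ∈ M.deg g₁ (Option S) p)
    (hq : B ∈ M.deg g₂ (Option T) q) (hA : GradedUndetected M A) :
    GradedUndetected M (M.glue h A B) := by
  intro Z i
  obtain ⟨σ, hσ⟩ := Z.gluing g₁ g₂ g h S T p q A B hp hq
  rw [hσ]
  refine Finset.sum_eq_zero fun k _ => Finset.sum_eq_zero fun l _ => ?_
  rw [hA Z, mul_zero, zero_mul, smul_zero]

/-- Closing up a class that is nilpotent for chain composition. -/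
theorem closeUp_mem (hM : CurveHomology M) {g g' : ℕ} (h : g + 1 = g') {S : Type} {d : ℕ}
    {x : M.H g (Option (Option S))} (hx : x ∈ M.deg g (Option (Option S)) d) (n : ℕ)
    (hn : (chainPow M x n).2.2 = 0) : GradedUndetected M (M.selfGlue h x) := by
  intro Z i
  by_cases hst : Stable g (Option (Option S))
  · have := hst.1
    have : Finite (Option S) := Finite.of_injective _ (Option.some_injective _)
    have : Finite S := Finite.of_injective _ (Option.some_injective _)
    exact closeUp_eq_zero hM Z h hx n hn i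
  · rw [hM.eq_zero_of_not_stable hst x, hM.selfGlue_zero, Z.Ω_zero]

lemma chain_add_left (hM : CurveHomology M) {g₁ g₂ g : ℕ} (h : g₁ + g₂ = g) {S T : Type}
    (a a' : M.H g₁ (Option (Option S))) (b : M.H g₂ (Option (Option T))) :
    chain M h (a + a') b = chain M h a b + chain M h a' b := by
  simp only [chain, hM.glue_add_left, hM.relabel_add]

lemma chain_add_right (hM : CurveHomology M) {g₁ g₂ g : ℕ} (h : g₁ + g₂ = g) {S T : Type}
    (a : M.H g₁ (Option (Option S))) (b b' : M.H g₂ (Option (Option T))) :
    chain M h a (b + b') = chain M h a b + chain M h a b' := by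
  simp only [chain, hM.glue_add_right, hM.relabel_add]

lemma chain_neg_left (hM : CurveHomology M) {g₁ g₂ g : ℕ} (h : g₁ + g₂ = g) {S T : Type}
    (a : M.H g₁ (Option (Option S))) (b : M.H g₂ (Option (Option T))) :
    chain M h (-a) b = -chain M h a b := by
  simp only [chain, hM.glue_neg_left, hM.relabel_neg]

lemma chain_zero_right (hM : CurveHomology M) {g₁ g₂ g : ℕ} (h : g₁ + g₂ = g) {S T : Type}
    (a : M.H g₁ (Option (Option S))) :
    chain M h a (0 : M.H g₂ (Option (Option T))) = 0 := by
  simp only [chain, hM.relabel_zero, hM.glue_zero_right]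

lemma chain_mem_deg (hM : CurveHomology M) {g₁ g₂ g : ℕ} (h : g₁ + g₂ = g) {S T : Type}
    {p q : ℕ} {a : M.H g₁ (Option (Option S))} {b : M.H g₂ (Option (Option T))}
    (ha : a ∈ M.deg g₁ (Option (Option S)) p) (hb : b ∈ M.deg g₂ (Option (Option T)) q) :
    chain M h a b ∈ M.deg g (Option (Option (S ⊕ T))) (p + q) :=
  hM.relabel_deg _ (hM.glue_deg h ha (hM.relabel_deg _ hb))

/-- If `x ∘ x = 0` for all `x ∈ U` then `a ∘ b` squares to zero for all `a, b ∈ U`. -/
lemma chain_sq (hM : CurveHomology M) {g : ℕ} {S : Type}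
    (U : Submodule ℚ (M.H g (Option (Option S))))
    (hU : ∀ x ∈ U, chain M (g := g + g) rfl x x = 0) {a b : M.H g (Option (Option S))}
    (ha : a ∈ U) (hb : b ∈ U) :
    chain M (rfl : g + g + (g + g) = _) (chain M rfl a b) (chain M rfl a b) = 0 := by
  have hanti : chain M (rfl : g + g = g + g) b a = -chain M (rfl : g + g = g + g) a b := by
    have h1 := hU _ (U.add_mem ha hb)
    rw [chain_add_left hM, chain_add_right hM, chain_add_right hM, hU a ha, hU b hb, zero_add,
      add_zero] at h1
    exact eq_neg_of_add_eq_zero_right h1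
  have e1 : g + (g + g + g) = g + g + (g + g) := by omega
  have e2 : g + (g + g) = g + g + g := by omega
  have key := chain_assoc hM (rfl : g + g = g + g) (e2 : g + (g + g) = g + g + g)
    (rfl : g + g + (g + g) = _) e1 a b (chain M rfl a b)
  have hz : chain M e2 b (chain M rfl a b) = 0 := by
    have k2 := chain_assoc hM (rfl : g + g = g + g) (rfl : g + g = g + g)
      (rfl : g + g + g = _) e2 b a b
    have k3 := chain_assoc hM (rfl : g + g = g + g) (rfl : g + g = g + g)
      (rfl : g + g + g = _) e2 a b b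
    rw [← k2, hanti, chain_neg_left hM, hM.relabel_neg, k3, hU b hb, chain_zero_right hM,
      neg_zero]
  rw [hz, chain_zero_right hM] at key
  have := congrArg (M.relabel (Equiv.optionCongr (Equiv.optionCongr
    (Equiv.sumAssoc S S (S ⊕ S)))).symm) key
  rwa [hM.relabel_symm_relabel, hM.relabel_zero] at this

/-- The class closed up from `a ∘ b`, where `a` and `b` lie in a space `U` with `x ∘ x = 0` for all
`x ∈ U`, is not detected. -/
theorem close_mem (hM : CurveHomology M) {g : ℕ} {S : Type} {p : ℕ}
    (U : Submodule ℚ (M.H g (Option (Option S)))) (hUp : U ≤ M.deg g (Option (Option S)) p)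
    (hU : ∀ x ∈ U, chain M (g := g + g) rfl x x = 0) {a b : M.H g (Option (Option S))}
    (ha : a ∈ U) (hb : b ∈ U) :
    GradedUndetected M (g := g + g + 1) (M.selfGlue rfl (chain M (g := g + g) rfl a b)) :=
  closeUp_mem hM rfl (chain_mem_deg hM rfl (hUp ha) (hUp hb)) 1 (chain_sq hM U hU ha hb)

end Run7.h225
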