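import Pool.Agent.Run7.h225.Graded
import Pool.Agent.Run7.h225.Basic

set_option autoImplicit false

open scoped Matrix

namespace Run7.h225

variable {M : CurveMaps}

section single

variable (Z : GradedCohFT M)

lemma GradedCohFT.Ω_smul (Z : GradedCohFT M) {g : ℕ} {S : Type} (c : ℚ) (a : M.H g S)
    (i : S → Z.ι) : Z.Ω g S (c • a) i = c * Z.Ω g S a i := (Z.linear g S i).2 c a

lemma GradedCohFT.Ω_zero (Z : GradedCohFT M) {g : ℕ} {S : Type} (i : S → Z.ι) :
    Z.Ω g S 0 i = 0 := by
  have := Z.Ω_smul 0 (0 : M.H g S) i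
  rwa [smul_zero, Rat.cast_zero, zero_mul] at this

/-- The components of a class with two extra markings as a matrix: the row index sits at the
marking `some none`, the column index at `none`. -/
noncomputable def mat {g : ℕ} {S : Type} (a : M.H g (Option (Option S))) (i : S → Z.ι) :
    Matrix Z.ι Z.ι ℂ :=
  fun k l => Z.Ω g (Option (Option S)) a (extend (extend i k) l)

lemma extend_comp {S V W : Type} (f : V → W) (v : S → V) (x : V) :
    f ∘ extend v x = extend (f ∘ v) (f x) := by
  funext o
  rcases o with _ | s <;> rfl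

lemma inv_even : ∀ k l, Z.η⁻¹ k l ≠ 0 → Z.parity k = Z.parity l := by
  obtain ⟨hdet, hev⟩ := Z.even_metric
  let D : Matrix Z.ι Z.ι ℂ := Matrix.diagonal fun k => if Z.parity k = 0 then 1 else 2
  have hcomm : D * Z.η = Z.η * D := by
    ext k l
    simp only [D, Matrix.diagonal_mul, Matrix.mul_diagonal]
    by_cases h : Z.η k l = 0
    · simp [h]
    · rw [hev k l h, mul_comm]
  have hinv : Z.η⁻¹ * D = D * Z.η⁻¹ := by
    calc Z.η⁻¹ * D = Z.η⁻¹ * D * (Z.η * Z.η⁻¹) := by
          rw [Matrix.mul_nonsing_inv _ hdet, Matrix.mul_one]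
      _ = Z.η⁻¹ * (D * Z.η) * Z.η⁻¹ := by simp only [Matrix.mul_assoc]
      _ = Z.η⁻¹ * Z.η * D * Z.η⁻¹ := by rw [hcomm]; simp only [Matrix.mul_assoc]
      _ = D * Z.η⁻¹ := by rw [Matrix.nonsing_inv_mul _ hdet, Matrix.one_mul]
  intro k l hkl
  have h := congrFun (congrFun hinv k) l
  simp only [D, Matrix.diagonal_mul, Matrix.mul_diagonal] at h
  have h2 : (if Z.parity l = 0 then (1 : ℂ) else 2) = if Z.parity k = 0 then 1 else 2 := by
    rw [mul_comm] at h
    exact mul_right_cancel₀ hkl h
  have key : ∀ x y : ZMod 2, ((if y = 0 then (1 : ℂ) else 2) = if x = 0 then 1 else 2) → x = y := by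
    intro x y h
    have h1 : ∀ z : ZMod 2, z ≠ 0 → z = 1 := by decide
    by_cases hx : x = 0 <;> by_cases hy : y = 0
    · rw [hx, hy]
    · rw [if_neg hy, if_pos hx] at h
      norm_num at h
    · rw [if_pos hy, if_neg hx] at h
      norm_num at h
    · rw [h1 x hx, h1 y hy]
  exact key _ _ h2

/-- The sign in front of a sum of terms with constant sign. -/
lemma sum_sign {ι : Type} [Fintype ι] (f F : ι → ι → ℂ) (u : ℤˣ)
    (h : ∀ k l, F k l = u • f k l) : ∑ k, ∑ l, F k l = u • ∑ k, ∑ l, f k l := by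
  simp only [h, Finset.smul_sum]

lemma extend_swap {S V : Type} (v : S → V) (x y : V) :
    extend (extend v x) y ∘ optionSwap S = extend (extend v y) x := by
  funext o
  rcases o with _ | _ | s <;> rfl

lemma chain_entry {g₁ g₂ g : ℕ} (h : g₁ + g₂ = g) {S T : Type} [Finite S] {p q : ℕ}
    {a : M.H g₁ (Option (Option S))} {b : M.H g₂ (Option (Option T))}
    (ha : a ∈ M.deg g₁ (Option (Option S)) p) (hb : b ∈ M.deg g₂ (Option (Option T)) q)
    (hb' : M.relabel (optionSwap T) b ∈ M.deg g₂ (Option (Option T)) q)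
    (hab : M.glue h a (M.relabel (optionSwap T) b) ∈ M.deg g (Option S ⊕ Option T) (p + q))
    (i : S → Z.ι) (j : T → Z.ι) : ∃ u : ZMod 2 → ZMod 2 → ℤˣ, ∀ k l : Z.ι,
    Z.Ω g _ (chain M h a b) (extend (extend (Sum.elim i j) k) l) =
      u (Z.parity k) (Z.parity l) • (mat Z a i * Z.η⁻¹ * mat Z b j) k l := by
  have := Fintype.ofFinite S
  obtain ⟨σ₁, h₁⟩ := Z.equivariance g _ _
    ((sumOption (Option S) T).trans (Equiv.optionCongr (optionSum S T))) _ _ hab
  obtain ⟨σ₂, h₂⟩ := Z.gluing g₁ g₂ g h (Option S) (Option T) p q a _ ha hb'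
  obtain ⟨σ₃, h₃⟩ := Z.equivariance g₂ _ _ (optionSwap T) q b hb
  obtain ⟨c, hc⟩ := Z.homogeneous g₁ (Option (Option S)) p a ha
  let π : ZMod 2 → ZMod 2 := fun x => c - x - ∑ s, Z.parity (i s)
  refine ⟨fun x y => σ₁ (extend (extend (Z.parity ∘ Sum.elim i j) x) y) *
    (σ₂ (Sum.elim (extend (Z.parity ∘ i) x) (extend (Z.parity ∘ j) y)) (π x) *
      σ₃ (extend (extend (Z.parity ∘ j) y) (π x))), fun k l => ?_⟩
  have hE : (extend (extend (Sum.elim i j) k) l) ∘
      ((sumOption (Option S) T).trans (Equiv.optionCongr (optionSum S T))) =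
      Sum.elim (extend i k) (extend j l) := by
    funext o
    rcases o with (_ | s) | (_ | t) <;> rfl
  have hσ : Z.parity ∘ Sum.elim (extend i k) (extend j l) = Sum.elim
      (extend (Z.parity ∘ i) (Z.parity k)) (extend (Z.parity ∘ j) (Z.parity l)) := by
    rw [Sum.comp_elim, extend_comp, extend_comp]
  rw [chain, h₁, hE, h₂, mul_smul, extend_comp, extend_comp, hσ]
  congr 1
  have hmul : (mat Z a i * Z.η⁻¹ * mat Z b j) k l =
      ∑ k', ∑ l', Z.η⁻¹ k' l' * mat Z a i k k' * mat Z b j l' l := by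
    simp only [Matrix.mul_apply, Finset.sum_mul]
    rw [Finset.sum_comm]
    refine Finset.sum_congr rfl fun _ _ => Finset.sum_congr rfl fun _ _ => ?_
    ring
  rw [hmul]
  refine sum_sign _ _ _ fun k' l' => ?_
  rw [Sum.elim_comp_inl, Sum.elim_comp_inr, h₃, extend_swap]
  change _ = _ •
    (Z.η⁻¹ k' l' * Z.Ω g₁ (Option (Option S)) a (extend (extend i k) k') *
      Z.Ω g₂ (Option (Option T)) b (extend (extend j l') l))
  by_cases hη : Z.η⁻¹ k' l' = 0
  · simp [hη]
  by_cases hA : Z.Ω g₁ (Option (Option S)) a (extend (extend i k) k') = 0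
  · simp [hA]
  have hk' : Z.parity k' = π (Z.parity k) := by
    have := hc _ hA
    rw [Fintype.sum_option, Fintype.sum_option] at this
    simp only [extend, Option.elim] at this
    simp only [π]
    rw [← this]
    ring
  have hl' : Z.parity l' = π (Z.parity k) := by rw [← inv_even Z k' l' hη, hk']
  rw [extend_comp, extend_comp, hl', hk', mul_smul]
  simp only [Units.smul_def, zsmul_eq_mul]
  ring

/-- A signed trace of an even nilpotent matrix vanishes. -/
lemma signed_trace_eq_zero {ι : Type} [Fintype ι] [DecidableEq ι] (parity : ι → ZMod 2)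
    (N : Matrix ι ι ℂ) (hN : IsNilpotent N) (hev : ∀ k l, N k l ≠ 0 → parity k = parity l)
    (σ : ZMod 2 → ℤˣ) : ∑ k, σ (parity k) • N k k = 0 := by
  have key : ∀ ε : ZMod 2, ∑ k, (if parity k = ε then N k k else 0) = 0 := by
    intro ε
    let E : Matrix ι ι ℂ := Matrix.diagonal fun k => if parity k = ε then 1 else 0
    have hcomm : E * N = N * E := by
      ext k l
      simp only [E, Matrix.diagonal_mul, Matrix.mul_diagonal]
      by_cases h : N k l = 0
      · simp [h]
      · rw [hev k l h, mul_comm]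
    have hnil : IsNilpotent (E * N) := Commute.isNilpotent_mul_left hcomm hN
    have htr := (Matrix.isNilpotent_trace_of_isNilpotent hnil).eq_zero
    rw [Matrix.trace] at htr
    refine Eq.trans (Finset.sum_congr rfl fun k _ => ?_) htr
    simp only [E, Matrix.diag_apply, Matrix.diagonal_mul, ite_mul, one_mul, zero_mul]
  have hsum : ∀ k, σ (parity k) • N k k = ∑ ε, σ ε • (if parity k = ε then N k k else 0) := by
    intro k
    rw [Finset.sum_eq_single (parity k)]
    · rw [if_pos rfl]
    · intro ε _ hε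
      rw [if_neg (Ne.symm hε), smul_zero]
    · intro h
      exact absurd (Finset.mem_univ _) h
  simp only [hsum]
  rw [Finset.sum_comm]
  refine Finset.sum_eq_zero fun ε _ => ?_
  rw [← Finset.smul_sum, key, smul_zero]

/-- The powers of a class under chain composition, evaluated on a repeated word. -/
lemma chainPow_entry (hM : CurveHomology M) (Z : GradedCohFT M) {g : ℕ} {S : Type}
    [Finite S] {d : ℕ} {x : M.H g (Option (Option S))} (hx : x ∈ M.deg g (Option (Option S)) d)
    (i : S → Z.ι) (n : ℕ) :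
    Finite (chainPow M x n).2.1 ∧
    (∃ e, (chainPow M x n).2.2 ∈ M.deg _ _ e) ∧
    ∃ (j : (chainPow M x n).2.1 → Z.ι) (u : ZMod 2 → ZMod 2 → ℤˣ), ∀ k l : Z.ι,
      mat Z (chainPow M x n).2.2 j k l =
        u (Z.parity k) (Z.parity l) • ((mat Z x i * Z.η⁻¹) ^ n * mat Z x i) k l := by
  induction n with
  | zero =>
    refine ⟨‹_›, ⟨d, hx⟩, i, fun _ _ => 1, fun k l => ?_⟩
    rw [one_smul, pow_zero, Matrix.one_mul]
    rfl
  | succ n ih =>
    obtain ⟨hfin, ⟨e, he⟩, j, u, hu⟩ := ih
    have hx' : M.relabel (optionSwap S) x ∈ M.deg g (Option (Option S)) d :=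
      hM.degree_additive.1 _ _ _ _ _ _ hx
    have hgl := hM.degree_additive.2.1 _ _ _ rfl _ _ _ _ _ _ he hx'
    refine ⟨?_, ⟨e + d, ?_⟩, Sum.elim j i, ?_⟩
    · change Finite ((chainPow M x n).2.1 ⊕ S)
      infer_instance
    · exact hM.degree_additive.1 _ _ _ _ _ _ hgl
    obtain ⟨v, hv⟩ := chain_entry Z rfl he hx hx' hgl j i
    have := Fintype.ofFinite (chainPow M x n).2.1
    obtain ⟨c, hc⟩ := Z.homogeneous _ _ _ _ he
    let π : ZMod 2 → ZMod 2 := fun y => c - y - ∑ s, Z.parity (j s)
    refine ⟨fun y z => v y z * u y (π y), fun k l => ?_⟩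
    refine (hv k l).trans ?_
    rw [mul_smul]
    congr 1
    have hrow : ∀ m, (mat Z (chainPow M x n).2.2 j * Z.η⁻¹) k m =
        u (Z.parity k) (π (Z.parity k)) • (((mat Z x i * Z.η⁻¹) ^ n * mat Z x i) * Z.η⁻¹) k m := by
      intro m
      rw [Matrix.mul_apply, Matrix.mul_apply, Finset.smul_sum]
      refine Finset.sum_congr rfl fun m' _ => ?_
      rw [← smul_mul_assoc]
      congr 1
      by_cases h0 : mat Z (chainPow M x n).2.2 j k m' = 0
      · rw [h0]
        rw [hu] at h0
        rw [(smul_eq_zero_iff_eq _).1 h0, smul_zero]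
      · have hm' : Z.parity m' = π (Z.parity k) := by
          have := hc _ h0
          rw [Fintype.sum_option, Fintype.sum_option] at this
          simp only [extend, Option.elim] at this
          simp only [π]
          rw [← this]
          ring
        rw [hu, hm']
    rw [Matrix.mul_apply, Finset.sum_congr rfl fun m _ => by rw [hrow m, smul_mul_assoc],
      ← Finset.smul_sum, ← Matrix.mul_apply, pow_succ]
    simp only [Matrix.mul_assoc]

/-- Closing up a class that is nilpotent for chain composition gives a class which is not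
detected. -/
theorem closeUp_eq_zero (hM : CurveHomology M) (Z : GradedCohFT M) {g g' : ℕ}
    (h' : g + 1 = g') {S : Type} [Finite S] {d : ℕ} {x : M.H g (Option (Option S))}
    (hx : x ∈ M.deg g (Option (Option S)) d) (n : ℕ)
    (hn : (chainPow M x n).2.2 = 0) (i : S → Z.ι) : Z.Ω g' S (M.selfGlue h' x) i = 0 := by
  have := Fintype.ofFinite S
  obtain ⟨σ, hσ⟩ := Z.selfGluing g g' h' S d x hx
  obtain ⟨c, hc⟩ := Z.homogeneous g (Option (Option S)) d x hx
  have hXX : (mat Z x i * Z.η⁻¹) ^ n * mat Z x i = 0 := by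
    obtain ⟨-, -, j, u, hu⟩ := chainPow_entry hM Z hx i n
    ext k l
    have := hu k l
    rw [hn] at this
    have h0 : mat Z (0 : M.H (chainPow M x n).1
        (Option (Option (chainPow M x n).2.1))) j k l = 0 := by
      simp only [mat, Z.Ω_zero]
    rw [h0] at this
    rw [Matrix.zero_apply]
    exact (smul_eq_zero_iff_eq _).1 this.symm
  have hc' : ∀ k l, mat Z x i k l ≠ 0 → Z.parity l + (Z.parity k + ∑ s, Z.parity (i s)) = c := by
    intro k l hkl
    have := hc _ hkl
    rw [Fintype.sum_option, Fintype.sum_option] at this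
    exact this
  have hN : IsNilpotent (Z.η⁻¹ * mat Z x i) := by
    have hpow : ∀ m, (Z.η⁻¹ * mat Z x i) ^ (m + 1) =
        Z.η⁻¹ * ((mat Z x i * Z.η⁻¹) ^ m * mat Z x i) := by
      intro m
      induction m with
      | zero => simp
      | succ m ih => rw [pow_succ, ih, pow_succ]; simp only [Matrix.mul_assoc]
    exact ⟨n + 1, by rw [hpow, hXX, Matrix.mul_zero]⟩
  have hsum : Z.Ω g' S (M.selfGlue h' x) i =
      ∑ k, σ (Z.parity ∘ i) (Z.parity k) • (Z.η⁻¹ * mat Z x i) k k := by
    rw [hσ]
    refine Finset.sum_congr rfl fun k _ => ?_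
    rw [← Finset.smul_sum]
    rfl
  rw [hsum]
  have two : ∀ z : ZMod 2, z + z = 0 := by decide
  by_cases hpar : ∑ s, Z.parity (i s) = c
  · refine signed_trace_eq_zero Z.parity _ hN ?_ _
    intro k l hkl
    rw [Matrix.mul_apply] at hkl
    obtain ⟨m, -, hm⟩ := Finset.exists_ne_zero_of_sum_ne_zero hkl
    have h1 := inv_even Z k m (left_ne_zero_of_mul hm)
    have h2 := hc' m l (right_ne_zero_of_mul hm)
    rw [hpar] at h2
    have h3 : Z.parity l + Z.parity m = 0 := by
      have : Z.parity l + Z.parity m + c = 0 + c := by rw [add_assoc, h2, zero_add]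
      exact add_right_cancel this
    rw [h1]
    calc Z.parity m = (Z.parity l + Z.parity m) + Z.parity l := by
          rw [add_comm (Z.parity l), add_assoc, two, add_zero]
      _ = Z.parity l := by rw [h3, zero_add]
  · refine Finset.sum_eq_zero fun k _ => ?_
    have : (Z.η⁻¹ * mat Z x i) k k = 0 := by
      by_contra hne
      rw [Matrix.mul_apply] at hne
      obtain ⟨m, -, hm⟩ := Finset.exists_ne_zero_of_sum_ne_zero hne
      have h1 := inv_even Z k m (left_ne_zero_of_mul hm)
      have h2 := hc' m k (right_ne_zero_of_mul hm)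
      rw [h1, ← add_assoc, two, zero_add] at h2
      exact hpar h2
    rw [this, smul_zero]

end single

end Run7.h225
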