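import Pool.Agent.Run7.h225.Insert

/-!
# Gluing of objects with slots

A `Graft` is a system of objects with slots which can be glued along two slots; the gluing is
symmetric and associative (a cyclic operad in sets, without signs).
-/

set_option autoImplicit false

namespace Run7.h225

universe v

/-- Objects with slots and their gluing. -/
structure Graft where
  Q : Type → Type v
  map : ∀ {R R' : Type}, (R ≃ R') → Q R → Q R'
  map_refl : ∀ {R : Type} (x : Q R), map (Equiv.refl R) x = x
  map_map : ∀ {R R' R'' : Type} (e : R ≃ R') (f : R' ≃ R'') (x : Q R),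
    map f (map e x) = map (e.trans f) x
  gl : ∀ {R R' : Type}, Q (Option R) → Q (Option R') → Q (R ⊕ R')
  gl_map : ∀ {R R' S S' : Type} (e : R ≃ R') (f : S ≃ S') (x : Q (Option R)) (y : Q (Option S)),
    gl (map (Equiv.optionCongr e) x) (map (Equiv.optionCongr f) y) =
      map (Equiv.sumCongr e f) (gl x y)
  gl_comm : ∀ {R R' : Type} (x : Q (Option R)) (y : Q (Option R')),
    map (Equiv.sumComm R R') (gl x y) = gl y x
  gl_assoc : ∀ {R R' R'' : Type} (x : Q (Option R)) (y : Q (Option (Option R')))
    (z : Q (Option R'')), map (Equiv.sumAssoc R R' R'') (gl (map (sumOption R R') (gl x y)) z) =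
      gl x (map (optionSum R' R'') (gl (map (optionSwap R') y) z))

/-- The values `v s`, `s ∈ S`, and the value `x` at `none`. -/
def consOpt {S : Type} {Y : Type v} (v : S → Y) (x : Y) : Option S → Y := fun o => o.elim x v

namespace Graft

variable (G : Graft.{v})

/-- The objects with one slot. -/
abbrev Y : Type v := G.Q (Option Empty)

lemma gl_map_left {R R' S : Type} (e : R ≃ R') (x : G.Q (Option R)) (y : G.Q (Option S)) :
    G.gl (G.map (Equiv.optionCongr e) x) y =
      G.map (Equiv.sumCongr e (Equiv.refl S)) (G.gl x y) := by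
  rw [← G.gl_map, Equiv.optionCongr_refl, G.map_refl]

lemma gl_map_right {R S S' : Type} (f : S ≃ S') (x : G.Q (Option R)) (y : G.Q (Option S)) :
    G.gl x (G.map (Equiv.optionCongr f) y) =
      G.map (Equiv.sumCongr (Equiv.refl R) f) (G.gl x y) := by
  rw [← G.gl_map, Equiv.optionCongr_refl, G.map_refl]

/-- Filling the slot `none` of `x` with `y`. -/
def ins {R : Type} (x : G.Q (Option R)) (y : G.Y) : G.Q R :=
  G.map (Equiv.sumEmpty R Empty) (G.gl x y)

lemma ins_map {R R' : Type} (e : R ≃ R') (x : G.Q (Option R)) (y : G.Y) :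
    G.ins (G.map (Equiv.optionCongr e) x) y = G.map e (G.ins x y) := by
  rw [ins, ins, G.gl_map_left, G.map_map, G.map_map]
  congr 1
  apply Equiv.ext
  rintro (r | r)
  · rfl
  · exact r.elim

lemma map_congr {R R' : Type} {e f : R ≃ R'} (h : ∀ r, e r = f r) (x : G.Q R) :
    G.map e x = G.map f x := by
  rw [Equiv.ext h]

lemma gl_ins_right {R S : Type} (x : G.Q (Option R)) (y : G.Q (Option (Option S))) (z : G.Y) :
    G.gl x (G.ins (G.map (optionSwap S) y) z) =
      G.map ((Equiv.sumAssoc R S Empty).trans (Equiv.sumCongr (Equiv.refl R)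
        (Equiv.sumEmpty S Empty))) (G.gl (G.map (sumOption R S) (G.gl x y)) z) := by
  rw [← G.map_map, G.gl_assoc, ← G.gl_map_right, ins, G.map_map]
  congr 1
  apply G.map_congr
  rintro ((_ | r) | r)
  · rfl
  · rfl
  · exact r.elim

/-- Filling a slot of the first of two glued objects. -/
lemma ins_gl {R S : Type} (x : G.Q (Option (Option R))) (x' : G.Q (Option S)) (y : G.Y) :
    G.ins (G.map (optionSum R S) (G.gl x x')) y =
      G.gl (G.ins (G.map (optionSwap R) x) y) x' := by
  have h0 := G.gl_comm x' (G.ins (G.map (optionSwap R) x) y)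
  rw [← h0, G.gl_ins_right, G.map_map, ins]
  have h1 : G.map (optionSum R S) (G.gl x x') =
      G.map (Equiv.optionCongr (Equiv.sumComm S R)) (G.map (sumOption S R) (G.gl x' x)) := by
    rw [← G.gl_comm x', G.map_map, G.map_map]
    apply G.map_congr
    rintro (s | (_ | r)) <;> rfl
  rw [h1, G.gl_map_left, G.map_map]
  apply G.map_congr
  rintro ((s | r) | e)
  · rfl
  · rfl
  · exact e.elim

/-- The order in which two slots are filled does not matter. -/
lemma ins_swap {R : Type} (x : G.Q (Option (Option R))) (y z : G.Y) :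
    G.ins (G.ins x y) z = G.ins (G.ins (G.map (optionSwap R) x) z) y := by
  have h1 : G.ins x y = G.map (Equiv.optionCongr (Equiv.emptySum Empty R))
      (G.map (sumOption Empty R) (G.gl y x)) := by
    rw [ins, ← G.gl_comm y x, G.map_map, G.map_map]
    apply G.map_congr
    rintro (e | (_ | r))
    · exact e.elim
    · rfl
    · rfl
  have h2 := G.gl_ins_right y x z
  rw [← G.gl_comm (G.ins (G.map (optionSwap R) x) z) y] at h2
  rw [h1, ins, G.gl_map_left, G.map_map]
  have h3 : G.ins (G.ins (G.map (optionSwap R) x) z) y =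
      G.map ((Equiv.sumComm R Empty).trans (Equiv.emptySum Empty R))
        (G.gl (G.ins (G.map (optionSwap R) x) z) y) := by
    rw [ins]
    apply G.map_congr
    rintro (r | e)
    · rfl
    · exact e.elim
  have h4 : G.map ((Equiv.sumComm R Empty).trans (Equiv.emptySum Empty R))
      (G.gl (G.ins (G.map (optionSwap R) x) z) y) = G.map (Equiv.emptySum Empty R)
      (G.map (Equiv.sumComm R Empty) (G.gl (G.ins (G.map (optionSwap R) x) z) y)) :=
    (G.map_map _ _ _).symm
  rw [h3, h4, h2, G.map_map]
  apply G.map_congr
  rintro ((e | r) | e)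
  · exact e.elim
  · rfl
  · exact e.elim

/-- Filling slots. -/
def insSys : InsSys.{v, v} G.Y where
  Q := G.Q
  map := G.map
  map_refl := G.map_refl
  map_map := G.map_map
  ins := G.ins
  ins_map := G.ins_map
  ins_swap := G.ins_swap

/-- Filling slots of an object with one additional slot, which stays open. -/
def rootSys : InsSys.{v, v} G.Y where
  Q := fun R => G.Q (Option R)
  map := fun e x => G.map (Equiv.optionCongr e) x
  map_refl := fun x => by rw [Equiv.optionCongr_refl, G.map_refl]
  map_map := fun e f x => by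
    rw [G.map_map]
    apply G.map_congr
    rintro (_ | r) <;> rfl
  ins := fun {R} x y => G.ins (G.map (optionSwap R) x) y
  ins_map := fun e x y => by
    rw [← G.ins_map, G.map_map, G.map_map]
    congr 1
    apply G.map_congr
    rintro (_ | _ | r) <;> rfl
  ins_swap := fun {R} x y z => by
    rw [← G.ins_map, ← G.ins_map, G.ins_swap, G.map_map, G.map_map, G.map_map, G.map_map]
    congr 2
    apply G.map_congr
    rintro (_ | _ | _ | r) <;> rfl

/-- Filling all slots. -/
noncomputable def tot {S : Type} [Finite S] (x : G.Q S) (y : S → G.Y) : G.Q (Fin 0) :=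
  G.insSys.tot x y

/-- Filling all slots except for `none`. -/
noncomputable def totRoot {S : Type} [Finite S] (x : G.Q (Option S)) (y : S → G.Y) : G.Y :=
  G.map (Equiv.optionCongr (Equiv.equivEmpty (Fin 0))) (G.rootSys.tot x y)

/-- Gluing two objects with one slot. -/
def pair (y z : G.Y) : G.Q (Fin 0) := G.map (Equiv.equivEmpty (Fin 0)).symm (G.ins y z)

lemma pair_comm (y z : G.Y) : G.pair y z = G.pair z y := by
  rw [pair, pair, ins, ins, ← G.gl_comm y z, G.map_map, G.map_map, G.map_map]
  apply G.map_congr
  rintro (r | r) <;> exact r.elim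

lemma tot_map {S T : Type} [Finite S] [Finite T] (e : S ≃ T) (x : G.Q S) (y : T → G.Y) :
    G.tot (G.map e x) y = G.tot x (y ∘ e) := G.insSys.tot_map e x y

lemma tot_option {S : Type} [Finite S] (x : G.Q (Option S)) (y : Option S → G.Y) :
    G.tot x y = G.tot (G.ins x (y none)) (y ∘ some) := G.insSys.tot_option x y

lemma tot_empty {S : Type} (e : S ≃ Fin 0) [Finite S] (x : G.Q S) (y : S → G.Y) :
    G.tot x y = G.map e x := by
  have h := G.tot_map e x (y ∘ e.symm)
  have h2 : (y ∘ e.symm) ∘ e = y := by
    funext s
    simp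
  rw [h2] at h
  rw [← h]
  exact G.insSys.tot_zero _ _

lemma totRoot_map {S T : Type} [Finite S] [Finite T] (e : S ≃ T) (x : G.Q (Option S))
    (y : T → G.Y) : G.totRoot (G.map (Equiv.optionCongr e) x) y = G.totRoot x (y ∘ e) := by
  unfold totRoot
  exact congrArg _ (G.rootSys.tot_map e x y)

lemma totRoot_option {S : Type} [Finite S] (x : G.Q (Option (Option S))) (y : Option S → G.Y) :
    G.totRoot x y = G.totRoot (G.ins (G.map (optionSwap S) x) (y none)) (y ∘ some) := by
  unfold totRoot
  exact congrArg _ (G.rootSys.tot_option x y)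

lemma totRoot_empty {S : Type} (e : S ≃ Empty) [Finite S] (x : G.Q (Option S)) (y : S → G.Y) :
    G.totRoot x y = G.map (Equiv.optionCongr e) x := by
  have h := G.totRoot_map (e.trans (Equiv.equivEmpty (Fin 0)).symm) x
    (y ∘ (e.trans (Equiv.equivEmpty (Fin 0)).symm).symm)
  have h2 : (y ∘ (e.trans (Equiv.equivEmpty (Fin 0)).symm).symm) ∘
      (e.trans (Equiv.equivEmpty (Fin 0)).symm) = y := by
    funext s
    simp
  rw [h2] at h
  rw [← h]
  unfold totRoot
  have h3 := G.rootSys.tot_zero (G.map (Equiv.optionCongr
    (e.trans (Equiv.equivEmpty (Fin 0)).symm)) x)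
    (y ∘ (e.trans (Equiv.equivEmpty (Fin 0)).symm).symm)
  rw [h3, G.map_map]
  apply G.map_congr
  rintro (_ | s)
  · rfl
  · exact (e s).elim

/-- Filling the last slot. -/
theorem tot_eq_pair {S : Type} [Finite S] (x : G.Q (Option S)) (τ : S → G.Y) (y : G.Y) :
    G.tot x (consOpt τ y) = G.pair (G.totRoot x τ) y := by
  have key : ∀ (S : Type) [Finite S], ∀ (x : G.Q (Option S)) (τ : S → G.Y) (y : G.Y),
      G.tot x (consOpt τ y) = G.pair (G.totRoot x τ) y := by
    intro S _
    refine Finite.induction_empty_option (P := fun S => ∀ [Finite S], ∀ (x : G.Q (Option S))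
      (τ : S → G.Y) (y : G.Y), G.tot x (consOpt τ y) = G.pair (G.totRoot x τ) y) ?_ ?_ ?_ S
    · intro S T e h _ x τ y
      have : Finite S := Finite.of_equiv T e.symm
      have hx : x = G.map (Equiv.optionCongr e) (G.map (Equiv.optionCongr e.symm) x) := by
        rw [G.map_map]
        have : ((Equiv.optionCongr e.symm).trans (Equiv.optionCongr e)) = Equiv.refl _ := by
          apply Equiv.ext
          rintro (_ | s)
          · rfl
          · simp
        rw [this, G.map_refl]
      rw [hx, G.totRoot_map, G.tot_map, ← h]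
      congr 1
      funext o
      rcases o with _ | s <;> rfl
    · intro _ x τ y
      rw [G.tot_option, G.tot_empty (Equiv.equivOfIsEmpty PEmpty (Fin 0)),
        G.totRoot_empty (Equiv.equivOfIsEmpty PEmpty Empty), pair, G.ins_map, G.map_map]
      apply G.map_congr
      rintro r
      exact r.elim
    · intro S _ h _ x τ y
      rw [G.tot_option, G.tot_option]
      have e1 : G.ins (G.ins x (consOpt τ y none)) ((consOpt τ y ∘ some) none) =
          G.ins (G.ins (G.map (optionSwap S) x) (τ none)) y := G.ins_swap _ _ _
      rw [e1]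
      have e2 := G.tot_option (G.ins (G.map (optionSwap S) x) (τ none))
        (consOpt (τ ∘ some) y)
      have e3 : (consOpt (τ ∘ some) y) ∘ some = (consOpt τ y ∘ some) ∘ some := rfl
      rw [e3] at e2
      have e4 : consOpt (τ ∘ some) y none = y := rfl
      rw [e4] at e2
      rw [← e2, h, ← G.totRoot_option]
  exact key S x τ y

/-- Filling all slots of two glued objects. -/
theorem tot_gl {S T : Type} [Finite S] [Finite T] (x : G.Q (Option S)) (x' : G.Q (Option T))
    (τ : S → G.Y) (τ' : T → G.Y) :
    G.tot (G.gl x x') (Sum.elim τ τ') = G.pair (G.totRoot x τ) (G.totRoot x' τ') := by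
  have key : ∀ (S : Type) [Finite S], ∀ (x : G.Q (Option S)) (τ : S → G.Y),
      G.tot (G.gl x x') (Sum.elim τ τ') = G.pair (G.totRoot x τ) (G.totRoot x' τ') := by
    intro S _
    refine Finite.induction_empty_option (P := fun S => ∀ [Finite S], ∀ (x : G.Q (Option S))
      (τ : S → G.Y), G.tot (G.gl x x') (Sum.elim τ τ') =
        G.pair (G.totRoot x τ) (G.totRoot x' τ')) ?_ ?_ ?_ S
    · intro S S' e h _ x τ
      have : Finite S := Finite.of_equiv S' e.symm
      have hx : x = G.map (Equiv.optionCongr e) (G.map (Equiv.optionCongr e.symm) x) := by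
        rw [G.map_map]
        have : ((Equiv.optionCongr e.symm).trans (Equiv.optionCongr e)) = Equiv.refl _ := by
          apply Equiv.ext
          rintro (_ | s)
          · rfl
          · simp
        rw [this, G.map_refl]
      rw [hx, G.totRoot_map, G.gl_map_left, G.tot_map, ← h]
      congr 1
      funext o
      rcases o with s | s <;> rfl
    · intro _ x τ
      let e0 : PEmpty ≃ Empty := Equiv.equivOfIsEmpty PEmpty Empty
      rw [G.totRoot_empty e0, G.pair_comm, ← G.tot_eq_pair, G.tot_option]
      have e1 : G.ins x' (consOpt τ' (G.map (Equiv.optionCongr e0) x) none) =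
          G.map (Equiv.emptySum PEmpty T) (G.gl x x') := by
        change G.map _ (G.gl x' (G.map (Equiv.optionCongr e0) x)) = _
        rw [G.gl_map_right, ← G.gl_comm x x', G.map_map, G.map_map]
        apply G.map_congr
        rintro (r | t)
        · exact r.elim
        · rfl
      rw [e1, G.tot_map]
      congr 1
      funext o
      rcases o with r | t
      · exact r.elim
      · rfl
    · intro S _ h _ x τ
      have e1 := G.tot_map (optionSum S T) (G.gl x x')
        (consOpt (Sum.elim (τ ∘ some) τ') (τ none))
      have e2 : (consOpt (Sum.elim (τ ∘ some) τ') (τ none)) ∘ (optionSum S T) =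
          Sum.elim τ τ' := by
        funext o
        rcases o with (_ | s) | t <;> rfl
      rw [e2] at e1
      rw [← e1, G.tot_option, G.totRoot_option, ← h]
      have e3 : (consOpt (Sum.elim (τ ∘ some) τ') (τ none)) ∘ some =
          Sum.elim (τ ∘ some) τ' := rfl
      rw [e3]
      congr 1
      exact G.ins_gl x x' (τ none)
  exact key S x τ

end Graft

end Run7.h225
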