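import Pool.Agent.Run7.h225.Curves

/-!
# Intersection theory on the moduli spaces of stable curves
-/

set_option autoImplicit false

open scoped TensorProduct

namespace Run7.h225

/-- The operations of intersection theory on the homology of the moduli spaces of stable curves. -/
structure IntersectionOps (M : CurveMaps) where
  /-- `psi a = ψ ∩ a`, where `ψ` is the first Chern class of the cotangent line at `none`. -/
  psi : ∀ {g : ℕ} {S : Type}, M.H g (Option S) → M.H g (Option S)
  /-- The pull-back `π^! : H_d(M̄_{g,S}) → H_{d+2}(M̄_{g,S ⊔ none})` for the map `π` that forgets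
  the marking `none` (the family of curves over a cycle). -/
  pull : ∀ {g : ℕ} {S : Type}, M.H g S → M.H g (Option S)
  /-- The Gysin pull-back `ξ^! : H_d(M̄_{g,S ⊔ T}) → H_{d-2}(M̄_{g₁,S ⊔ none} × M̄_{g₂,T ⊔ none})` for
  the separating gluing map `ξ`; the homology of the product is the tensor product. -/
  gysin : ∀ {g₁ g₂ g : ℕ}, g₁ + g₂ = g → ∀ {S T : Type},
    M.H g (S ⊕ T) → M.H g₁ (Option S) ⊗[ℚ] M.H g₂ (Option T)

section axioms

variable {M : CurveMaps} (I : IntersectionOps M)

/-- The operations are linear. -/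
def OpsLinear : Prop :=
  (∀ (g : ℕ) (S : Type), IsLinearMap ℚ fun a : M.H g (Option S) => I.psi a) ∧
  (∀ (g : ℕ) (S : Type), IsLinearMap ℚ fun a : M.H g S => I.pull a) ∧
  (∀ (g₁ g₂ g : ℕ) (h : g₁ + g₂ = g) (S T : Type),
    IsLinearMap ℚ fun a : M.H g (S ⊕ T) => I.gysin h a)

/-- `π^!` raises the degree by `2`. -/
def PullDegree : Prop := ∀ (g : ℕ) (S : Type) (d : ℕ) (a : M.H g S),
  a ∈ M.deg g S d → I.pull a ∈ M.deg g (Option S) (d + 2)

/-- `π_* π^! = 0`, because the fibres of `π` are curves. -/
def ForgetPull : Prop := ∀ (g : ℕ) (S : Type) (a : M.H g S),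
  M.forget Function.Embedding.some (I.pull a) = 0

/-- The dilaton equation `π_*(ψ ∩ π^! a) = (2g - 2 + |S|) a`. -/
def Dilaton : Prop := ∀ (g : ℕ) (S : Type) (a : M.H g S),
  M.forget Function.Embedding.some (I.psi (I.pull a)) = ((2 * g + Nat.card S : ℚ) - 2) • a

/-- The self-intersection formula `ξ^! ξ_* x = c₁(N) ∩ x` for the gluing map `ξ`.  It is a closed
immersion when there are markings on both sides, and its normal bundle `N` is the tensor product
of the tangent lines at the two glued markings, so that `c₁(N) = - ψ ⊗ 1 - 1 ⊗ ψ`. -/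
def SelfIntersection : Prop := ∀ (g₁ g₂ g : ℕ) (h : g₁ + g₂ = g) (S T : Type)
  [Nonempty S] [Nonempty T] (a : M.H g₁ (Option S)) (b : M.H g₂ (Option T)),
    I.gysin h (M.glue h a b) = (-1 : ℚ) • (I.psi a ⊗ₜ[ℚ] b + a ⊗ₜ[ℚ] I.psi b)

end axioms

/-- Basic properties of intersection theory on the moduli spaces of stable curves (the operations on
homology are given by Poincaré duality and by the cotangent line classes). -/
structure IntersectionTheory {M : CurveMaps} (I : IntersectionOps M) : Prop where
  linear : OpsLinear I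
  pull_degree : PullDegree I
  forget_pull : ForgetPull I
  dilaton : Dilaton I
  self_intersection : SelfIntersection I

end Run7.h225
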