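import Pool.Agent.Run7.h225.Field

/-!
# Ideals in the homology of the moduli spaces of stable curves
-/

set_option autoImplicit false

namespace Run7.h225

/-- A family `J` of subspaces of the homology of the moduli spaces is an ideal if it is closed under
forgetting and relabelling markings and under gluing with arbitrary classes. -/
structure IsIdeal (M : CurveMaps) (J : ∀ (g : ℕ) (S : Type), Submodule ℚ (M.H g S)) : Prop where
  forget : ∀ (g : ℕ) (S T : Type) (i : T ↪ S) (a : M.H g S), a ∈ J g S → M.forget i a ∈ J g T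
  glue_left : ∀ (g₁ g₂ g : ℕ) (h : g₁ + g₂ = g) (S T : Type) (a : M.H g₁ (Option S))
    (b : M.H g₂ (Option T)), a ∈ J g₁ (Option S) → M.glue h a b ∈ J g (S ⊕ T)
  glue_right : ∀ (g₁ g₂ g : ℕ) (h : g₁ + g₂ = g) (S T : Type) (a : M.H g₁ (Option S))
    (b : M.H g₂ (Option T)), b ∈ J g₂ (Option T) → M.glue h a b ∈ J g (S ⊕ T)

/-- `J` contains the classes glued from two classes of odd degree along a separating node. -/
def ContainsOddGlue (M : CurveMaps) (J : ∀ (g : ℕ) (S : Type), Submodule ℚ (M.H g S)) : Prop :=
  ∀ (g₁ g₂ g : ℕ) (h : g₁ + g₂ = g) (S T : Type) (p q : ℕ) (a : M.H g₁ (Option S))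
    (b : M.H g₂ (Option T)), Odd p → Odd q → a ∈ M.deg g₁ (Option S) p →
    b ∈ M.deg g₂ (Option T) q → M.glue h a b ∈ J g (S ⊕ T)

/-- `J` contains the classes supported on the non-separating boundary, the images of the
non-separating gluing maps. -/
def ContainsSelfGlue (M : CurveMaps) (J : ∀ (g : ℕ) (S : Type), Submodule ℚ (M.H g S)) : Prop :=
  ∀ (g g' : ℕ) (h : g + 1 = g') (S : Type) (a : M.H g (Option (Option S))),
    M.selfGlue h a ∈ J g' S

/-- The smallest ideal with the property `P`: the intersection of all such ideals. -/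
def idealOf (M : CurveMaps) (P : (∀ (g : ℕ) (S : Type), Submodule ℚ (M.H g S)) → Prop) (g : ℕ)
    (S : Type) : Submodule ℚ (M.H g S) :=
  ⨅ (J : ∀ (g : ℕ) (S : Type), Submodule ℚ (M.H g S)) (_ : IsIdeal M J) (_ : P J), J g S

/-- The ideal generated by the classes glued from two classes of odd degree along a separating
node. -/
def oddIdeal (M : CurveMaps) : ∀ (g : ℕ) (S : Type), Submodule ℚ (M.H g S) :=
  idealOf M (ContainsOddGlue M)

/-- The ideal generated by the images of the non-separating gluing maps, the classes supported on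
the non-separating boundary. -/
def nonsepIdeal (M : CurveMaps) : ∀ (g : ℕ) (S : Type), Submodule ℚ (M.H g S) :=
  idealOf M (ContainsSelfGlue M)

end Run7.h225
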