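import Pool.Agent.Run7.h225.Chain

/-!
# Inserting elements into all slots

An `InsSys Y` is a functor on finite sets of slots with an operation that fills one slot with an
element of `Y`; the order in which two slots are filled does not matter.  Then one can fill all
slots simultaneously.
-/

set_option autoImplicit false

namespace Run7.h225

universe u v

/-- Sets `Q R` of objects with a set `R` of slots, and the operation of filling one slot. -/
structure InsSys (Y : Type u) where
  Q : Type → Type v
  map : ∀ {R R' : Type}, (R ≃ R') → Q R → Q R'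
  map_refl : ∀ {R : Type} (x : Q R), map (Equiv.refl R) x = x
  map_map : ∀ {R R' R'' : Type} (e : R ≃ R') (f : R' ≃ R'') (x : Q R),
    map f (map e x) = map (e.trans f) x
  ins : ∀ {R : Type}, Q (Option R) → Y → Q R
  ins_map : ∀ {R R' : Type} (e : R ≃ R') (x : Q (Option R)) (y : Y),
    ins (map (Equiv.optionCongr e) x) y = map e (ins x y)
  ins_swap : ∀ {R : Type} (x : Q (Option (Option R))) (y z : Y),
    ins (ins x y) z = ins (ins (map (optionSwap R) x) z) y

namespace InsSys

variable {Y : Type u} (I : InsSys.{u, v} Y)

/-- Filling all slots, numbered by `Fin n`. -/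
def totFin : ∀ n : ℕ, I.Q (Fin n) → (Fin n → Y) → I.Q (Fin 0)
  | 0, x, _ => x
  | n + 1, x, y => totFin n (I.ins (I.map (finSuccEquiv n) x) (y 0)) (fun i => y i.succ)

lemma totFin_perm (n : ℕ) (e : Equiv.Perm (Fin n)) (x : I.Q (Fin n)) (y : Fin n → Y) :
    I.totFin n (I.map e x) y = I.totFin n x (y ∘ e) := by
  induction n with
  | zero =>
    have : e = Equiv.refl _ := Subsingleton.elim _ _
    subst this
    rw [I.map_refl]
    rfl
  | succ n ih =>
    -- the same on `Option (Fin n)`
    let t : I.Q (Option (Fin n)) → (Option (Fin n) → Y) → I.Q (Fin 0) := fun x y =>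
      I.totFin n (I.ins x (y none)) (y ∘ some)
    have ht : ∀ (x : I.Q (Fin (n + 1))) (y : Fin (n + 1) → Y), I.totFin (n + 1) x y =
        t (I.map (finSuccEquiv n) x) (y ∘ (finSuccEquiv n).symm) := fun x y => rfl
    let G : Equiv.Perm (Option (Fin n)) → Prop := fun e => ∀ x y, t (I.map e x) y = t x (y ∘ e)
    have hmul : ∀ e f, G e → G f → G (e.trans f) := by
      intro e f he hf x y
      rw [← I.map_map, hf, he]
      rfl
    have hcongr : ∀ σ : Equiv.Perm (Fin n), G (Equiv.optionCongr σ) := by
      intro σ x y
      change I.totFin n (I.ins (I.map (Equiv.optionCongr σ) x) (y none)) (y ∘ some) = _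
      rw [I.ins_map, ih]
      rfl
    have hswap : ∀ i : Fin n, G (Equiv.swap none (some i)) := by
      obtain _ | m := n
      · intro i
        exact i.elim0
      have h0 : G (Equiv.swap none (some 0)) := by
        intro x y
        change I.totFin m (I.ins (I.map (finSuccEquiv m) (I.ins (I.map _ x) (y none)))
          (y (some 0))) _ = I.totFin m (I.ins (I.map (finSuccEquiv m) (I.ins x _)) _) _
        rw [← I.ins_map, ← I.ins_map, I.map_map]
        have e1 : (Equiv.swap none (some (0 : Fin (m + 1)))).trans
            (Equiv.optionCongr (finSuccEquiv m)) =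
            (Equiv.optionCongr (finSuccEquiv m)).trans (optionSwap (Fin m)) := by
          apply Equiv.ext
          intro o
          rcases o with _ | i
          · rw [Equiv.trans_apply, Equiv.swap_apply_left]
            rfl
          · refine Fin.cases ?_ (fun j => ?_) i
            · rw [Equiv.trans_apply, Equiv.swap_apply_right]
              rfl
            · rw [Equiv.trans_apply, Equiv.swap_apply_of_ne_of_ne (by simp)
                (by simp [Fin.succ_ne_zero])]
              rfl
        rw [e1, ← I.map_map, ← I.ins_swap]
        have e2 : (y ∘ (Equiv.swap none (some (0 : Fin (m + 1))))) none = y (some 0) := by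
          simp
        have e3 : ((y ∘ (Equiv.swap none (some (0 : Fin (m + 1))))) ∘ some) 0 = y none := by
          simp
        have e5 : (fun i : Fin m => (y ∘ some) i.succ) =
            fun i : Fin m => ((y ∘ (Equiv.swap none (some (0 : Fin (m + 1))))) ∘ some) i.succ := by
          funext i
          have : Equiv.swap none (some (0 : Fin (m + 1))) (some i.succ) = some i.succ :=
            Equiv.swap_apply_of_ne_of_ne (by simp) (by simp [Fin.succ_ne_zero])
          simp only [Function.comp_apply, this]
        rw [e2, e3, e5]
      intro i
      have e1 : Equiv.swap none (some i) =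
          ((Equiv.optionCongr (Equiv.swap 0 i)).trans (Equiv.swap none (some 0))).trans
            (Equiv.optionCongr (Equiv.swap 0 i)) := by
        have h1 : Equiv.optionCongr (Equiv.swap 0 i) = Equiv.swap (some 0) (some i) := by
          simp
        rw [h1]
        have h2 := Equiv.swap_mul_swap_mul_swap (x := (none : Option (Fin (m + 1))))
          (y := some 0) (z := some i) (by simp) (by simp)
        rw [Equiv.swap_comm none (some i), ← h2]
        rfl
      rw [e1]
      exact hmul _ _ (hmul _ _ (hcongr _) h0) (hcongr _)
    have hall : ∀ e, G e := by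
      intro e
      have h1 := _root_.map_equiv_removeNone e
      have h2 : e = (Equiv.optionCongr (Equiv.removeNone e)).trans
          (Equiv.swap none (e none)) := by
        rw [h1]
        apply Equiv.ext
        intro o
        simp [Equiv.Perm.mul_apply]
      rw [h2]
      refine hmul _ _ (hcongr _) ?_
      rcases h3 : e none with _ | i
      · rw [Equiv.swap_self]
        intro x y
        rw [I.map_refl]
        rfl
      · exact hswap i
    rw [ht, ht, I.map_map]
    have e4 : e.trans (finSuccEquiv n) = (finSuccEquiv n).trans
        (((finSuccEquiv n).symm.trans e).trans (finSuccEquiv n)) := by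
      apply Equiv.ext
      intro i
      simp
    rw [e4, ← I.map_map, hall]
    congr 1
    funext o
    simp

/-- Filling all slots of a finite set `S` of slots. -/
noncomputable def tot {S : Type} [Finite S] (x : I.Q S) (y : S → Y) : I.Q (Fin 0) :=
  I.totFin (Nat.card S) (I.map (Finite.equivFin S) x) (y ∘ (Finite.equivFin S).symm)

lemma tot_eq {S : Type} [Finite S] {n : ℕ} (e : S ≃ Fin n) (x : I.Q S) (y : S → Y) :
    I.tot x y = I.totFin n (I.map e x) (y ∘ e.symm) := by
  have hn : Nat.card S = n := by rw [Nat.card_congr e, Nat.card_fin]
  subst hn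
  have e1 : Finite.equivFin S = e.trans (e.symm.trans (Finite.equivFin S)) := by
    apply Equiv.ext
    intro s
    simp
  rw [tot]
  conv_lhs => rw [e1]
  rw [← I.map_map, totFin_perm]
  congr 1
  funext i
  simp

lemma tot_map {S T : Type} [Finite S] [Finite T] (e : S ≃ T) (x : I.Q S) (y : T → Y) :
    I.tot (I.map e x) y = I.tot x (y ∘ e) := by
  rw [I.tot_eq (Finite.equivFin T), I.tot_eq (e.trans (Finite.equivFin T)), I.map_map]
  congr 1
  funext i
  simp

lemma tot_option {S : Type} [Finite S] (x : I.Q (Option S)) (y : Option S → Y) :
    I.tot x y = I.tot (I.ins x (y none)) (y ∘ some) := by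
  let e := Finite.equivFin S
  rw [I.tot_eq ((Equiv.optionCongr e).trans (finSuccEquiv _).symm), I.tot_eq e, totFin,
    I.map_map, ← I.ins_map]
  congr 1
  congr 1
  congr 1
  apply Equiv.ext
  intro o
  simp

lemma tot_zero (x : I.Q (Fin 0)) (y : Fin 0 → Y) : I.tot x y = x := by
  rw [I.tot_eq (Equiv.refl _), I.map_refl]
  rfl

end InsSys

end Run7.h225
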