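import Pool.Agent.Run7.h225.Raw

/-!
# Linearisation
-/

set_option autoImplicit false

namespace Run7.h225

/-- A basis for a pairing of finite rank. -/
theorem exists_basis' {Y : Type 1} (η : Y → Y → ℂ) (W : Submodule ℂ (Y → ℂ))
    [fd : FiniteDimensional ℂ W] (hW : ∀ y, η y ∈ W) :
    ∃ (r : ℕ) (y : Fin r → Y) (c : Y → Fin r → ℂ), (∀ x z, η x z = ∑ i, c x i * η (y i) z) ∧
      (∀ i, c (y i) = Pi.single i 1) ∧
      (∀ v : Fin r → ℂ, (∀ z, ∑ i, v i * η (y i) z = 0) → v = 0) := by
  classical
  let v : Y → W := fun y => ⟨η y, hW y⟩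
  obtain ⟨κ, a, ha, hsp, hli⟩ := exists_linearIndependent' ℂ v
  have hfin : Finite κ := hli.finite
  let e := Finite.equivFin κ
  let y : Fin (Nat.card κ) → Y := a ∘ e.symm
  have hli2 : LinearIndependent ℂ (fun i => v (y i)) := hli.comp e.symm e.symm.injective
  have hspan : ∀ x, v x ∈ Submodule.span ℂ (Set.range fun i => v (y i)) := by
    intro x
    have h1 : Set.range (fun i => v (y i)) = Set.range (v ∘ a) := by
      ext w
      constructor
      · rintro ⟨i, rfl⟩
        exact ⟨e.symm i, rfl⟩
      · rintro ⟨i, rfl⟩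
        exact ⟨e i, by simp [y]⟩
    rw [h1, hsp]
    exact Submodule.subset_span ⟨x, rfl⟩
  have hc : ∀ x, ∃ c : Fin (Nat.card κ) → ℂ, ∑ i, c i • v (y i) = v x := fun x =>
    (Submodule.mem_span_range_iff_exists_fun ℂ).1 (hspan x)
  choose c hc using hc
  have hval : ∀ (w : Fin (Nat.card κ) → ℂ) (z : Y),
      ((∑ i, w i • v (y i) : W) : Y → ℂ) z = ∑ i, w i * η (y i) z := by
    intro w z
    rw [Submodule.coe_sum, Finset.sum_apply]
    rfl
  refine ⟨Nat.card κ, y, c, fun x z => ?_, fun i => ?_, fun w hw => ?_⟩
  · rw [← hval, hc]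
  · have h1 : ∑ j, (c (y i) j - (Pi.single i 1 : Fin (Nat.card κ) → ℂ) j) • v (y j) = 0 := by
      have h0 : ∀ j, (c (y i) j - (Pi.single i 1 : Fin (Nat.card κ) → ℂ) j) • v (y j) =
          c (y i) j • v (y j) - (Pi.single i 1 : Fin (Nat.card κ) → ℂ) j • v (y j) :=
        fun j => sub_smul (c (y i) j) ((Pi.single i 1 : Fin (Nat.card κ) → ℂ) j) (v (y j))
      rw [Finset.sum_congr rfl fun j _ => h0 j, Finset.sum_sub_distrib, hc,
        Finset.sum_eq_single i]
      · rw [Pi.single_eq_same, one_smul, sub_self]
      · intro j _ hj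
        rw [Pi.single_eq_of_ne hj, zero_smul]
      · intro h
        exact absurd (Finset.mem_univ i) h
    have h2 := Fintype.linearIndependent_iff.1 hli2 _ h1
    funext j
    exact sub_eq_zero.1 (h2 j)
  · have h1 : ∑ i, w i • v (y i) = 0 := by
      apply Subtype.ext
      funext z
      rw [hval, hw]
      rfl
    funext i
    exact Fintype.linearIndependent_iff.1 hli2 w h1 i

/-- A basis for a pairing of finite rank. -/
theorem exists_basis {Y : Type 1} (η : Y → Y → ℂ)
    (fd : FiniteDimensional ℂ (Submodule.span ℂ (Set.range η))) :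
    ∃ (r : ℕ) (y : Fin r → Y) (c : Y → Fin r → ℂ), (∀ x z, η x z = ∑ i, c x i * η (y i) z) ∧
      (∀ i, c (y i) = Pi.single i 1) ∧
      (∀ v : Fin r → ℂ, (∀ z, ∑ i, v i * η (y i) z = 0) → v = 0) :=
  exists_basis' η (Submodule.span ℂ (Set.range η))
    fun y => Submodule.subset_span (Set.mem_range_self y)

section

variable {r : ℕ}

/-- Multiplication of a multilinear map with a coordinate of a further vector. -/
def consCoord {S : Type} (i : Fin r) (L : MultilinearMap ℂ (fun _ : S => Fin r → ℂ) ℂ) :
    MultilinearMap ℂ (fun _ : Option S => Fin r → ℂ) ℂ where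
  toFun := fun v => v none i * L (v ∘ some)
  map_update_add' := by
    intro _ v o x y
    rcases o with _ | s
    · have h : ∀ z, (Function.update v none z) ∘ some = v ∘ some := by
        intro z
        funext s
        simp
      rw [h, h, h, Function.update_self, Function.update_self, Function.update_self,
        Pi.add_apply, add_mul]
    · classical
      have h : ∀ z, (Function.update v (some s) z) ∘ some =
          Function.update (v ∘ some) s z := by
        intro z
        funext t
        by_cases ht : t = s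
        · subst ht
          simp
        · simp [ht]
      have h2 : ∀ z, Function.update v (some s) z none = v none := fun z => by simp
      rw [h, h, h, h2, h2, h2, L.map_update_add, mul_add]
  map_update_smul' := by
    intro _ v o c x
    rcases o with _ | s
    · have h : ∀ z, (Function.update v none z) ∘ some = v ∘ some := by
        intro z
        funext s
        simp
      rw [h, h, Function.update_self, Function.update_self, Pi.smul_apply, smul_eq_mul,
        smul_eq_mul, mul_assoc]
    · classical
      have h : ∀ z, (Function.update v (some s) z) ∘ some =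
          Function.update (v ∘ some) s z := by
        intro z
        funext t
        by_cases ht : t = s
        · subst ht
          simp
        · simp [ht]
      have h2 : ∀ z, Function.update v (some s) z none = v none := fun z => by simp
      rw [h, h, h2, h2, L.map_update_smul, smul_eq_mul, smul_eq_mul]
      ring

lemma consCoord_apply {S : Type} (i : Fin r)
    (L : MultilinearMap ℂ (fun _ : S => Fin r → ℂ) ℂ) (v : Option S → Fin r → ℂ) :
    consCoord i L v = v none i * L (v ∘ some) := rfl

variable {Y : Type 1} (η : Y → Y → ℂ) (y : Fin r → Y) (c : Y → Fin r → ℂ)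

/-- As a function of the label of any one marking, `ω` is a pairing with a fixed element. -/
def SlotRep {S : Type} (ω : (S → Y) → ℂ) : Prop :=
  ∀ (S' : Type) (e : Option S' ≃ S) (τ : S' → Y), ∃ y', ∀ z,
    ω ((consOpt τ z) ∘ e.symm) = η y' z

include y in
/-- A function of labels that is a pairing in each label is induced by a multilinear map. -/
theorem exists_multilinear (hsymm : ∀ x z, η x z = η z x)
    (hc : ∀ x z, η x z = ∑ i, c x i * η (y i) z) {S : Type} [Finite S] (ω : (S → Y) → ℂ)
    (h : SlotRep η ω) : ∃ L : MultilinearMap ℂ (fun _ : S => Fin r → ℂ) ℂ,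
      ∀ τ : S → Y, L (fun s => c (τ s)) = ω τ := by
  have key : ∀ (S : Type) [Finite S], ∀ (ω : (S → Y) → ℂ), SlotRep η ω →
      ∃ L : MultilinearMap ℂ (fun _ : S => Fin r → ℂ) ℂ,
        ∀ τ : S → Y, L (fun s => c (τ s)) = ω τ := by
    intro S _
    refine Finite.induction_empty_option (P := fun S => ∀ (ω : (S → Y) → ℂ), SlotRep η ω →
      ∃ L : MultilinearMap ℂ (fun _ : S => Fin r → ℂ) ℂ,
        ∀ τ : S → Y, L (fun s => c (τ s)) = ω τ) ?_ ?_ ?_ S
    · intro S T e ih ω hω
      obtain ⟨L, hL⟩ := ih (fun τ => ω (τ ∘ e.symm)) (by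
        intro S' f τ
        obtain ⟨y', hy'⟩ := hω S' (f.trans e) τ
        exact ⟨y', fun z => hy' z⟩)
      refine ⟨L.domDomCongr e, fun τ => ?_⟩
      have h1 := hL (τ ∘ e)
      rw [MultilinearMap.domDomCongr_apply]
      refine h1.trans ?_
      congr 1
      funext t
      simp
    · intro ω _
      refine ⟨MultilinearMap.constOfIsEmpty ℂ _ (ω fun s => s.elim), fun τ => ?_⟩
      rw [MultilinearMap.constOfIsEmpty_apply]
      exact congrArg ω (funext fun s => s.elim)
    · intro S _ ih ω hω
      have h1 : ∀ i, ∃ L : MultilinearMap ℂ (fun _ : S => Fin r → ℂ) ℂ,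
          ∀ τ : S → Y, L (fun s => c (τ s)) = ω (consOpt τ (y i)) := by
        intro i
        refine ih _ ?_
        intro S' e τ
        obtain ⟨y', hy'⟩ := hω (Option S') ((optionSwap S').trans (Equiv.optionCongr e))
          (consOpt τ (y i))
        refine ⟨y', fun z => ?_⟩
        rw [← hy' z]
        refine congrArg ω (funext fun o => ?_)
        rcases o with _ | s
        · rfl
        · obtain ⟨s, rfl⟩ := e.surjective s
          have h2 : (Equiv.optionCongr e).symm (some (e s)) = some s := by
            rw [Equiv.symm_apply_eq]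
            rfl
          rcases s with _ | s
          · simp [consOpt, optionSwap, h2]
          · simp [consOpt, optionSwap, h2]
      choose L hL using h1
      refine ⟨∑ i, consCoord i (L i), fun τ => ?_⟩
      rw [sum_apply]
      have h2 : ∀ i, consCoord i (L i) (fun s => c (τ s)) =
          c (τ none) i * ω (consOpt (τ ∘ some) (y i)) := by
        intro i
        rw [consCoord_apply, ← hL]
        rfl
      simp only [h2]
      obtain ⟨y', hy'⟩ := hω S (Equiv.refl _) (τ ∘ some)
      have h3 : ∀ z, ω (consOpt (τ ∘ some) z) = η y' z := hy'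
      have h4 : ω τ = η y' (τ none) := by
        rw [← h3]
        congr 1
        funext o
        rcases o with _ | s <;> rfl
      rw [h4, hsymm, hc]
      refine Finset.sum_congr rfl fun i _ => ?_
      rw [h3, hsymm]
  exact key S ω h

/-- A multilinear map is determined by its values on labels. -/
theorem mult_ext (hcy : ∀ i, c (y i) = Pi.single i 1) {S : Type} [Finite S]
    {L L' : MultilinearMap ℂ (fun _ : S => Fin r → ℂ) ℂ}
    (h : ∀ τ : S → Y, L (fun s => c (τ s)) = L' (fun s => c (τ s))) : L = L' := by
  refine Module.Basis.ext_multilinear (fun _ => Pi.basisFun ℂ (Fin r)) fun v => ?_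
  have h1 := h (fun s => y (v s))
  simp only [hcy] at h1
  simpa [Pi.basisFun_apply] using h1

/-- A linear map is determined by its values on labels. -/
theorem lin_ext (hcy : ∀ i, c (y i) = Pi.single i 1) {V : Type} [AddCommGroup V] [Module ℂ V]
    {L L' : (Fin r → ℂ) →ₗ[ℂ] V} (h : ∀ x, L (c x) = L' (c x)) : L = L' := by
  refine (Pi.basisFun ℂ (Fin r)).ext fun i => ?_
  rw [Pi.basisFun_apply, ← hcy, h]

/-- The form on labels as a bilinear form. -/
noncomputable def form : LinearMap.BilinForm ℂ (Fin r → ℂ) :=
  Matrix.toBilin' (Matrix.of fun i j => η (y i) (y j))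

lemma form_apply (hsymm : ∀ x z, η x z = η z x)
    (hc : ∀ x z, η x z = ∑ i, c x i * η (y i) z) (v : Fin r → ℂ) (z : Y) :
    form η y v (c z) = ∑ i, v i * η (y i) z := by
  unfold form
  rw [Matrix.toBilin'_apply]
  refine Finset.sum_congr rfl fun i _ => ?_
  rw [hsymm (y i) z, hc z, Finset.mul_sum]
  refine Finset.sum_congr rfl fun j _ => ?_
  rw [Matrix.of_apply, hsymm (y i) (y j)]
  ring

lemma form_cl (hsymm : ∀ x z, η x z = η z x)
    (hc : ∀ x z, η x z = ∑ i, c x i * η (y i) z) (x z : Y) :
    form η y (c x) (c z) = η x z := by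
  rw [form_apply η y c hsymm hc, ← hc]

lemma form_symm (hsymm : ∀ x z, η x z = η z x) : (form η y).IsSymm := by
  refine ⟨fun v u => ?_⟩
  unfold form
  rw [Matrix.toBilin'_apply, Matrix.toBilin'_apply, Finset.sum_comm]
  refine Finset.sum_congr rfl fun i _ => Finset.sum_congr rfl fun j _ => ?_
  rw [Matrix.of_apply, Matrix.of_apply, hsymm (y i) (y j)]
  ring

lemma form_nondeg (hsymm : ∀ x z, η x z = η z x)
    (hc : ∀ x z, η x z = ∑ i, c x i * η (y i) z)
    (hv : ∀ v : Fin r → ℂ, (∀ z, ∑ i, v i * η (y i) z = 0) → v = 0) :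
    (form η y).Nondegenerate := by
  have hs := form_symm η y hsymm
  have key : ∀ v, (∀ u, form η y v u = 0) → v = 0 := ?_
  · exact ⟨key, fun v h => key v fun u => by rw [hs.eq]; exact h u⟩
  intro v h
  refine hv v fun z => ?_
  rw [← form_apply η y c hsymm hc, h]

end

end Run7.h225
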