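import Pool.Agent.Run7.h225.Graft

/-!
# Field theories before linearisation
-/

set_option autoImplicit false

namespace Run7.h225

/-- The numbers `raw a τ`, for homology classes `a` and maps `τ` from the markings to a set `Y` of
labels, from which a CohFT is constructed. -/
structure RawTheory (M : CurveMaps) where
  Y : Type 1
  η : Y → Y → ℂ
  w : Y → ℕ
  w₀ : ℕ
  xu : Y
  zs : Y
  raw : ∀ {g : ℕ} {S : Type} [Finite S], M.H g S → (S → Y) → ℂ
  root : ∀ {g : ℕ} {S : Type} [Finite S], M.H g (Option S) → (S → Y) → Y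
  symm : ∀ y z, η y z = η z y
  fd : FiniteDimensional ℂ (Submodule.span ℂ (Set.range η))
  raw_add : ∀ {g : ℕ} {S : Type} [Finite S] (a b : M.H g S) (τ : S → Y),
    raw (a + b) τ = raw a τ + raw b τ
  raw_smul : ∀ {g : ℕ} {S : Type} [Finite S] (c : ℚ) (a : M.H g S) (τ : S → Y),
    raw (c • a) τ = c * raw a τ
  raw_relabel : ∀ {g : ℕ} {S T : Type} [Finite S] [Finite T] (e : S ≃ T) (a : M.H g S)
    (τ : T → Y), raw (M.relabel e a) τ = raw a (τ ∘ e)
  raw_root : ∀ {g : ℕ} {S : Type} [Finite S] (a : M.H g (Option S)) (τ : S → Y) (y : Y),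
    raw a (consOpt τ y) = η (root a τ) y
  raw_glue : ∀ {g₁ g₂ g : ℕ} (h : g₁ + g₂ = g) {S T : Type} [Finite S] [Finite T]
    (a : M.H g₁ (Option S)) (b : M.H g₂ (Option T)) (τ : S → Y) (τ' : T → Y),
    raw (M.glue h a b) (Sum.elim τ τ') = η (root a τ) (root b τ')
  raw_selfGlue : ∀ {g g' : ℕ} (h : g + 1 = g') {S : Type} [Finite S]
    (a : M.H g (Option (Option S))) (τ : S → Y), raw (M.selfGlue h a) τ = 0
  raw_unit : ∀ {g : ℕ} {S : Type} [Finite S], Stable g S → ∀ (a : M.H g (Option S))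
    (τ : S → Y), raw a (consOpt τ xu) = raw (M.forget Function.Embedding.some a) τ
  raw_three : ∀ (a : M.H 0 (Option (Option Unit))) (x y : Y),
    raw a (consOpt (consOpt (fun _ => xu) y) x) = M.aug a * η x y
  w_root : ∀ {g : ℕ} {S : Type} [Fintype S] (a : M.H g (Option S)) (τ : S → Y),
    w (root a τ) = g + ∑ s, w (τ s)
  w_eta : ∀ y z, η y z ≠ 0 → w y + w z = w₀
  w₀_pos : 0 < w₀
  w_zero : ∀ y, w y = 0 → ∃ c : ℂ, ∀ z, η y z = c * η xu z
  w_xu : w xu = 0
  eta_zs : η xu zs = 1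

end Run7.h225
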