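import Pool.Agent.Run7.h225.RawLin
import Pool.Agent.Run7.h225.Basic

set_option autoImplicit false

namespace Run7.h225

variable {M : CurveMaps}

lemma CurveHomology.aug_relabel (hM : CurveHomology M) {g : ℕ} {S T : Type} (e : S ≃ T)
    (a : M.H g S) : M.aug (M.relabel e a) = M.aug a := by
  by_cases hs : Stable g T
  · exact hM.aug_natural.1 _ _ _ _ _ hs
  · have hs' : ¬ Stable g S := fun h => hs (h.congr e)
    rw [hM.eq_zero_of_not_stable hs' a, hM.relabel_zero, hM.aug_zero, hM.aug_zero]

namespace RawTheory

variable (R : RawTheory M)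

lemma raw_zero {g : ℕ} {S : Type} [Finite S] (τ : S → R.Y) : R.raw (0 : M.H g S) τ = 0 := by
  have := R.raw_smul 0 (0 : M.H g S) τ
  rwa [smul_zero, Rat.cast_zero, zero_mul] at this

lemma eta_zs' : R.η R.zs R.xu = 1 := by rw [R.symm, R.eta_zs]

lemma w_zs : R.w R.zs = R.w₀ := by
  have h := R.w_eta R.xu R.zs (by rw [R.eta_zs]; exact one_ne_zero)
  rwa [R.w_xu, zero_add] at h

lemma eta_zs_pos {x : R.Y} (h : R.w x ≠ 0) : R.η R.zs x = 0 := by
  by_contra hc
  have h1 := R.w_eta _ _ hc
  rw [R.w_zs] at h1
  omega

lemma eta_zs_zs : R.η R.zs R.zs = 0 := by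
  refine R.eta_zs_pos ?_
  rw [R.w_zs]
  exact R.w₀_pos.ne'

lemma eta_large {x z : R.Y} (h : R.w₀ < R.w x) : R.η x z = 0 := by
  by_contra hc
  have h1 := R.w_eta _ _ hc
  omega

variable (hM : CurveHomology M)
include hM

lemma three {S : Type} [Finite S] (a : M.H 0 (Option (Option S))) (x y : R.Y) :
    R.raw a (consOpt (consOpt (fun _ => R.xu) y) x) = M.aug a * R.η x y := by
  have key : ∀ (S : Type) [Finite S], ∀ (a : M.H 0 (Option (Option S))) (x y : R.Y),
      R.raw a (consOpt (consOpt (fun _ => R.xu) y) x) = M.aug a * R.η x y := by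
    intro S _
    refine Finite.induction_empty_option (P := fun S => ∀ [Finite S],
      ∀ (a : M.H 0 (Option (Option S))) (x y : R.Y),
      R.raw a (consOpt (consOpt (fun _ => R.xu) y) x) = M.aug a * R.η x y) ?_ ?_ ?_ S
    · intro S T e ih _ a x y
      have : Finite S := Finite.of_equiv T e.symm
      have ha : a = M.relabel (Equiv.optionCongr (Equiv.optionCongr e))
          (M.relabel (Equiv.optionCongr (Equiv.optionCongr e)).symm a) :=
        (hM.relabel_relabel_symm _ a).symm
      have h := ih (M.relabel (Equiv.optionCongr (Equiv.optionCongr e)).symm a) x y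
      rw [hM.aug_relabel] at h
      rw [← h]
      conv_lhs => rw [ha, R.raw_relabel]
      congr 1
      funext o
      rcases o with _ | _ | s <;> rfl
    · intro _ a x y
      have hs : ¬ Stable 0 (Option (Option PEmpty)) := by
        rintro ⟨_, h⟩
        simp at h
      rw [hM.eq_zero_of_not_stable hs a, R.raw_zero, hM.aug_zero, Rat.cast_zero, zero_mul]
    · intro S _ ih _ a x y
      by_cases hS : Nonempty S
      · let f : Option (Option (Option S)) ≃ Option (Option (Option S)) :=
          { toFun := fun o => o.elim (some none) fun o => o.elim (some (some none)) fun o =>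
              o.elim none fun s => some (some (some s))
            invFun := fun o => o.elim (some (some none)) fun o => o.elim none fun o =>
              o.elim (some none) fun s => some (some (some s))
            left_inv := by rintro (_ | _ | _ | s) <;> rfl
            right_inv := by rintro (_ | _ | _ | s) <;> rfl }
        have h1 := R.raw_relabel f a
          (consOpt (consOpt (consOpt (fun _ => R.xu) y) x) R.xu)
        have h2 : (consOpt (consOpt (consOpt (fun _ : S => R.xu) y) x) R.xu) ∘ f =
            consOpt (consOpt (fun _ => R.xu) y) x := by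
          funext o
          rcases o with _ | _ | _ | s <;> rfl
        have hst : Stable 0 (Option (Option S)) := by
          refine ⟨inferInstance, ?_⟩
          have := Nat.card_pos (α := S)
          simp only [Finite.card_option]
          omega
        rw [h2, R.raw_unit hst, ih] at h1
        rw [← h1, hM.aug_natural.1 _ _ _ _ _ hst, hM.aug_relabel]
      · have : IsEmpty S := not_nonempty_iff.1 hS
        let e : Option S ≃ Unit :=
          { toFun := fun _ => ()
            invFun := fun _ => none
            left_inv := by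
              rintro (_ | s)
              · rfl
              · exact isEmptyElim s
            right_inv := fun _ => rfl }
        have h1 := R.raw_relabel (Equiv.optionCongr (Equiv.optionCongr e)) a
          (consOpt (consOpt (fun _ => R.xu) y) x)
        rw [R.raw_three, hM.aug_relabel] at h1
        rw [h1]
        congr 1
        funext o
        rcases o with _ | _ | o <;> rfl
  exact key S a x y

lemma two {S : Type} [Finite S] (a : M.H 0 (Option S)) (x : R.Y) :
    R.raw a (consOpt (fun _ => R.xu) x) = M.aug a * R.η x R.xu := by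
  classical
  by_cases hS : Nonempty S
  · obtain ⟨s₀⟩ := hS
    let e : Option {s // s ≠ s₀} ≃ S := Equiv.optionSubtypeNe s₀
    have h1 := R.raw_relabel (Equiv.optionCongr e).symm a
      (consOpt (consOpt (fun _ => R.xu) R.xu) x)
    rw [R.three hM, hM.aug_relabel] at h1
    rw [h1]
    congr 1
    funext o
    rcases o with _ | s
    · rfl
    · obtain ⟨s, rfl⟩ := e.surjective s
      have h2 : (Equiv.optionCongr e).symm (some (e s)) = some s := by
        rw [Equiv.symm_apply_eq]
        rfl
      rw [Function.comp_apply, h2]
      rcases s with _ | s <;> rfl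
  · have : IsEmpty S := not_nonempty_iff.1 hS
    have hs : ¬ Stable 0 (Option S) := by
      rintro ⟨_, h⟩
      simp at h
    rw [hM.eq_zero_of_not_stable hs a, R.raw_zero, hM.aug_zero, Rat.cast_zero, zero_mul]

end RawTheory

namespace Lin

variable {R : RawTheory M} (D : Lin R)

lemma c_eq_zero {x : R.Y} (h : R.w₀ < R.w x) : D.c x = 0 := by
  refine D.vec_ext fun z => ?_
  rw [D.B_cl, R.eta_large h, map_zero, LinearMap.zero_apply]

lemma c_of_w_zero {x : R.Y} (h : R.w x = 0) : D.c x = R.η R.zs x • D.c R.xu := by
  obtain ⟨q, hq⟩ := R.w_zero x h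
  have h1 : R.η R.zs x = q := by
    rw [R.symm, hq, R.eta_zs, mul_one]
  refine D.vec_ext fun z => ?_
  rw [D.B_cl, hq, h1, map_smul, LinearMap.smul_apply, D.B_cl, smul_eq_mul]

lemma extend_cl {S : Type} (τ : S → R.Y) (x : R.Y) :
    extend (fun s => D.c (τ s)) (D.c x) = fun s => D.c (consOpt τ x s) := by
  funext o
  rcases o with _ | s <;> rfl

/-- The vector that represents a theory with one free marking. -/
noncomputable def vec {g : ℕ} {S : Type} [Fintype S] (a : M.H g (Option S)) (τ : S → R.Y) :
    D.V :=
  D.c (R.root a τ) + ((if g = 1 then (D.r : ℂ) * M.aug a else 0) *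
    ∏ s, R.η R.zs (τ s)) • D.c R.zs

lemma om_vec {g : ℕ} {S : Type} [Fintype S] (a : M.H g (Option S)) (τ : S → R.Y) (x : D.V) :
    D.om g (Option S) a (extend (fun s => D.c (τ s)) x) = D.B (D.vec a τ) x := by
  have h : atNone (D.om g (Option S) a) (fun s => D.c (τ s)) = D.B (D.vec a τ) := by
    refine D.l_ext fun z => ?_
    rw [atNone_apply, D.extend_cl, D.om_cl, R.raw_root, Fintype.prod_option]
    unfold vec
    rw [map_add, map_smul, LinearMap.add_apply, LinearMap.smul_apply, D.B_cl, D.B_cl,
      smul_eq_mul]
    simp only [consOpt, Option.elim]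
    ring
  exact congrArg (fun f => f x) h

variable (hM : CurveHomology M)
include hM

include D in
/-- The pairing of the vector `root b τ` with the dual of the unit. -/
lemma eta_zs_root {g : ℕ} {S : Type} [Fintype S] (b : M.H g (Option S)) (τ : S → R.Y) :
    R.η R.zs (R.root b τ) = if g = 0 then (M.aug b : ℂ) * ∏ s, R.η R.zs (τ s) else 0 := by
  by_cases hg : g = 0
  · subst hg
    rw [if_pos rfl]
    by_cases hw : ∀ s, R.w (τ s) = 0
    · have h1 : R.η R.zs (R.root b τ) = D.mraw b (extend (fun s => D.c (τ s)) (D.c R.zs)) := by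
        rw [D.extend_cl, D.mraw_cl, R.raw_root, R.symm]
      have h2 : (fun s => D.c (τ s)) = fun s => R.η R.zs (τ s) • D.c R.xu :=
        funext fun s => D.c_of_w_zero (hw s)
      rw [h1, h2, ← restr_apply, MultilinearMap.map_smul_univ, restr_apply]
      have h3 : extend (fun _ : S => D.c R.xu) (D.c R.zs) =
          fun s => D.c (consOpt (fun _ => R.xu) R.zs s) := by
        funext o
        rcases o with _ | s <;> rfl
      rw [h3, D.mraw_cl, R.two hM, R.eta_zs', mul_one, smul_eq_mul, mul_comm]
    · push Not at hw
      obtain ⟨s, hs⟩ := hw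
      rw [Finset.prod_eq_zero (Finset.mem_univ s) (R.eta_zs_pos hs), mul_zero]
      refine R.eta_zs_pos ?_
      rw [R.w_root]
      have := Finset.single_le_sum (f := fun s => R.w (τ s)) (fun _ _ => Nat.zero_le _)
        (Finset.mem_univ s)
      omega
  · rw [if_neg hg]
    refine R.eta_zs_pos ?_
    rw [R.w_root]
    omega

lemma gluing : Gluing D.data := by
  intro g₁ g₂ g h S T a b v
  by_cases hS : Finite S
  · by_cases hT : Finite T
    · have := Fintype.ofFinite S
      have := Fintype.ofFinite T
      have key : D.om g (S ⊕ T) (M.glue h a b) = contrMul D.B fun x y =>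
          mulMul (restr (D.om g₁ (Option S) a) x) (restr (D.om g₂ (Option T) b) y) := by
        refine D.m_ext fun τ => ?_
        obtain ⟨τ₁, τ₂, rfl⟩ : ∃ τ₁ τ₂, τ = Sum.elim τ₁ τ₂ :=
          ⟨τ ∘ Sum.inl, τ ∘ Sum.inr, by funext o; rcases o with o | o <;> rfl⟩
        rw [contrMul_apply]
        have h1 : (fun x y => (mulMul (restr (D.om g₁ (Option S) a) x)
            (restr (D.om g₂ (Option T) b) y)) fun s => D.c (Sum.elim τ₁ τ₂ s)) =
            fun x y => D.B (D.vec a τ₁) x * D.B (D.vec b τ₂) y := by
          funext x y
          rw [mulMul_apply, restr_apply, restr_apply, ← D.om_vec, ← D.om_vec]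
          rfl
        rw [h1, contract_mul D.B_symm D.B_nondeg, D.om_cl, R.raw_glue h]
        unfold vec
        simp only [map_add, map_smul, LinearMap.add_apply, LinearMap.smul_apply, D.B_cl,
          smul_eq_mul, R.eta_zs_zs, R.symm (R.root a τ₁) R.zs, D.eta_zs_root hM,
          Fintype.prod_sum_type, Sum.elim_inl, Sum.elim_inr, hM.aug_natural.2.1]
        by_cases h₁ : g₁ = 0
        · by_cases h₂ : g₂ = 0
          · simp [show g = 0 by omega, h₁, h₂]
          · by_cases h₃ : g₂ = 1
            · simp [show g = 1 by omega, h₁, h₃]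
              ring
            · simp [show g ≠ 1 by omega, h₁, h₃]
        · by_cases h₂ : g₂ = 0
          · by_cases h₃ : g₁ = 1
            · simp [show g = 1 by omega, h₂, h₃]
              ring
            · simp [show g ≠ 1 by omega, h₂, h₃]
          · simp [show g ≠ 1 by omega, h₁, h₂]
      have h2 := congrArg (fun f => f v) key
      simp only [contrMul_apply] at h2
      exact h2
    · have hb : b = 0 := hM.eq_zero_of_not_stable (fun h => hT
        (have := h.1; Finite.of_injective _ (Option.some_injective _))) b
      have hT' : ¬ Finite (S ⊕ T) := fun h =>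
        hT (Finite.of_injective (Sum.inr : T → S ⊕ T) Sum.inr_injective)
      have h1 : D.om g (S ⊕ T) (M.glue h a b) = 0 := D.om_of_infinite hT' _
      have hT'' : ¬ Finite (Option T) := fun h => hT
        (Finite.of_injective _ (Option.some_injective _))
      have h2 : D.om g₂ (Option T) b = 0 := D.om_of_infinite hT'' _
      change D.om g (S ⊕ T) (M.glue h a b) v = contract D.B fun x y =>
        D.om g₁ (Option S) a (extend (v ∘ Sum.inl) x) *
          D.om g₂ (Option T) b (extend (v ∘ Sum.inr) y)
      rw [h1, h2]
      simp [contract]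
  · have hT' : ¬ Finite (S ⊕ T) := fun h =>
      hS (Finite.of_injective (Sum.inl : S → S ⊕ T) Sum.inl_injective)
    have h1 : D.om g (S ⊕ T) (M.glue h a b) = 0 := D.om_of_infinite hT' _
    have hT'' : ¬ Finite (Option S) := fun h => hS
      (Finite.of_injective _ (Option.some_injective _))
    have h2 : D.om g₁ (Option S) a = 0 := D.om_of_infinite hT'' _
    change D.om g (S ⊕ T) (M.glue h a b) v = contract D.B fun x y =>
      D.om g₁ (Option S) a (extend (v ∘ Sum.inl) x) *
        D.om g₂ (Option T) b (extend (v ∘ Sum.inr) y)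
    rw [h1, h2]
    simp [contract]

end Lin

end Run7.h225
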