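import Pool.Agent.Run7.h225.Linearise
import Pool.Agent.Run7.h225.Contract

set_option autoImplicit false

namespace Run7.h225

variable {M : CurveMaps}

/-- A choice of a basis. -/
structure Lin (R : RawTheory M) where
  r : ℕ
  y : Fin r → R.Y
  c : R.Y → Fin r → ℂ
  hc : ∀ x z, R.η x z = ∑ i, c x i * R.η (y i) z
  hcy : ∀ i, c (y i) = Pi.single i 1
  hv : ∀ v : Fin r → ℂ, (∀ z, ∑ i, v i * R.η (y i) z = 0) → v = 0

lemma exists_Lin (R : RawTheory M) : Nonempty (Lin R) := by
  obtain ⟨r, y, c, hc, hcy, hv⟩ := exists_basis R.η R.fd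
  exact ⟨⟨r, y, c, hc, hcy, hv⟩⟩

section

variable {V S : Type}

lemma extend_eq_update (v : S → V) (x z : V) [DecidableEq (Option S)] :
    extend v x = Function.update (extend v z) none x := by
  funext o
  rcases o with _ | s
  · simp [extend]
  · simp [extend]

lemma extend_update [DecidableEq S] [DecidableEq (Option S)] (v : S → V) (s : S) (z x : V) :
    extend (Function.update v s z) x = Function.update (extend v x) (some s) z := by
  funext o
  rcases o with _ | t
  · simp [extend]
  · by_cases h : t = s
    · subst h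
      simp [extend]
    · simp [extend, h]

variable [AddCommGroup V] [Module ℂ V]

/-- A multilinear map as a linear function of the vector at the extra marking. -/
noncomputable def atNone (L : MultilinearMap ℂ (fun _ : Option S => V) ℂ) (v : S → V) :
    V →ₗ[ℂ] ℂ where
  toFun := fun x => L (extend v x)
  map_add' := fun x y => by
    classical
    rw [extend_eq_update v (x + y) 0, L.map_update_add, ← extend_eq_update, ← extend_eq_update]
  map_smul' := fun c x => by
    classical
    rw [extend_eq_update v (c • x) 0, L.map_update_smul, ← extend_eq_update]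
    rfl

lemma atNone_apply (L : MultilinearMap ℂ (fun _ : Option S => V) ℂ) (v : S → V) (x : V) :
    atNone L v x = L (extend v x) := rfl

/-- Fixing the vector at the extra marking. -/
noncomputable def restr (L : MultilinearMap ℂ (fun _ : Option S => V) ℂ) (x : V) :
    MultilinearMap ℂ (fun _ : S => V) ℂ where
  toFun := fun v => L (extend v x)
  map_update_add' := by
    intro _ v s z z'
    classical
    rw [extend_update, extend_update, extend_update, L.map_update_add]
  map_update_smul' := by
    intro _ v s c z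
    classical
    rw [extend_update, extend_update, L.map_update_smul]

lemma restr_apply (L : MultilinearMap ℂ (fun _ : Option S => V) ℂ) (x : V) (v : S → V) :
    restr L x v = L (extend v x) := rfl

/-- A multilinear map as a bilinear function of the vectors at the two extra markings. -/
noncomputable def atTwo (L : MultilinearMap ℂ (fun _ : Option (Option S) => V) ℂ) (v : S → V) :
    V →ₗ[ℂ] V →ₗ[ℂ] ℂ where
  toFun := fun y => atNone L (extend v y)
  map_add' := fun y y' => by
    ext x
    change L (extend (extend v (y + y')) x) = L (extend (extend v y) x) +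
      L (extend (extend v y') x)
    exact (atNone (restr L x) v).map_add y y'
  map_smul' := fun c y => by
    ext x
    change L (extend (extend v (c • y)) x) = c • L (extend (extend v y) x)
    exact (atNone (restr L x) v).map_smul c y

lemma atTwo_apply (L : MultilinearMap ℂ (fun _ : Option (Option S) => V) ℂ) (v : S → V)
    (y x : V) : atTwo L v y x = L (extend (extend v y) x) := rfl

/-- Contraction of multilinear maps. -/
noncomputable def contrMul [FiniteDimensional ℂ V] (η : LinearMap.BilinForm ℂ V) (β : V → V → MultilinearMap ℂ (fun _ : S => V) ℂ) :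
    MultilinearMap ℂ (fun _ : S => V) ℂ :=
  ∑ i, ∑ j, (LinearMap.BilinForm.toMatrix (Module.finBasis ℂ V) η)⁻¹ i j •
    β (Module.finBasis ℂ V i) (Module.finBasis ℂ V j)

lemma contrMul_apply [FiniteDimensional ℂ V] (η : LinearMap.BilinForm ℂ V) (β : V → V → MultilinearMap ℂ (fun _ : S => V) ℂ) (v : S → V) :
    contrMul η β v = contract η fun x y => β x y v := by
  unfold contrMul contract
  simp only [sum_apply, smul_apply, smul_eq_mul]

/-- The product of two multilinear maps. -/
noncomputable def mulMul {T : Type} (L : MultilinearMap ℂ (fun _ : S => V) ℂ)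
    (L' : MultilinearMap ℂ (fun _ : T => V) ℂ) : MultilinearMap ℂ (fun _ : S ⊕ T => V) ℂ :=
  (LinearMap.mul' ℂ ℂ).compMultilinearMap (L.domCoprod L')

lemma mulMul_apply {T : Type} (L : MultilinearMap ℂ (fun _ : S => V) ℂ)
    (L' : MultilinearMap ℂ (fun _ : T => V) ℂ) (v : S ⊕ T → V) :
    mulMul L L' v = L (v ∘ Sum.inl) * L' (v ∘ Sum.inr) := rfl

end

namespace Lin

variable {R : RawTheory M} (D : Lin R)

/-- The vector space. -/
abbrev V : Type := Fin D.r → ℂ

/-- The metric. -/
noncomputable def B : LinearMap.BilinForm ℂ D.V := form R.η D.y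

lemma B_cl (x z : R.Y) : D.B (D.c x) (D.c z) = R.η x z := form_cl _ _ _ R.symm D.hc x z

lemma B_symm : D.B.IsSymm := form_symm _ _ R.symm

lemma B_nondeg : D.B.Nondegenerate := form_nondeg _ _ _ R.symm D.hc D.hv

/-- Vectors are determined by their pairing with labels. -/
lemma vec_ext {u v : D.V} (h : ∀ z, D.B u (D.c z) = D.B v (D.c z)) : u = v := by
  rw [← sub_eq_zero]
  refine D.hv _ fun z => ?_
  have h1 : D.B (u - v) (D.c z) = 0 := by
    rw [map_sub, LinearMap.sub_apply, h, sub_self]
  rw [← h1]
  exact (form_apply _ _ _ R.symm D.hc (u - v) z).symm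

lemma slotRep {g : ℕ} {S : Type} [Finite S] (a : M.H g S) : SlotRep R.η (R.raw a) := by
  intro S' e τ
  have : Finite (Option S') := Finite.of_equiv S e.symm
  have : Finite S' := Finite.of_injective _ (Option.some_injective _)
  refine ⟨R.root (M.relabel e.symm a) τ, fun z => ?_⟩
  rw [← R.raw_root, R.raw_relabel]

/-- The linearisation of `raw a`. -/
noncomputable def mraw {g : ℕ} {S : Type} [Finite S] (a : M.H g S) :
    MultilinearMap ℂ (fun _ : S => D.V) ℂ :=
  (exists_multilinear R.η D.y D.c R.symm D.hc (R.raw a) (slotRep a)).choose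

lemma mraw_cl {g : ℕ} {S : Type} [Finite S] (a : M.H g S) (τ : S → R.Y) :
    D.mraw a (fun s => D.c (τ s)) = R.raw a τ :=
  (exists_multilinear R.η D.y D.c R.symm D.hc (R.raw a) (slotRep a)).choose_spec τ

lemma m_ext {S : Type} [Finite S] {L L' : MultilinearMap ℂ (fun _ : S => D.V) ℂ}
    (h : ∀ τ : S → R.Y, L (fun s => D.c (τ s)) = L' (fun s => D.c (τ s))) : L = L' :=
  mult_ext D.y D.c D.hcy h

lemma l_ext {V : Type} [AddCommGroup V] [Module ℂ V] {L L' : D.V →ₗ[ℂ] V}
    (h : ∀ x, L (D.c x) = L' (D.c x)) : L = L' := lin_ext D.y D.c D.hcy h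

/-- The linear form dual to the unit. -/
noncomputable def chi : D.V →ₗ[ℂ] ℂ := D.B (D.c R.zs)

lemma chi_cl (x : R.Y) : D.chi (D.c x) = R.η R.zs x := D.B_cl _ _

/-- The product of the values of `chi`. -/
noncomputable def prodchi (S : Type) [Finite S] : MultilinearMap ℂ (fun _ : S => D.V) ℂ :=
  letI := Fintype.ofFinite S
  (MultilinearMap.mkPiAlgebra ℂ S ℂ).compLinearMap fun _ => D.chi

lemma prodchi_apply {S : Type} [Fintype S] (v : S → D.V) :
    D.prodchi S v = ∏ s, D.chi (v s) := by
  unfold prodchi
  have key : ∀ (i j : Fintype S), (letI := i; MultilinearMap.mkPiAlgebra ℂ S ℂ)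
      (fun s => D.chi (v s)) = ∏ s ∈ @Finset.univ S j, D.chi (v s) := by
    intro i j
    rw [Subsingleton.elim j i]
    rfl
  exact key _ _

/-- The correction in genus `1`. -/
noncomputable def corr {g : ℕ} {S : Type} [Finite S] (a : M.H g S) :
    MultilinearMap ℂ (fun _ : S => D.V) ℂ :=
  (if g = 1 then (D.r : ℂ) * M.aug a else 0) • D.prodchi S

open Classical in
/-- The field theory. -/
noncomputable def om (g : ℕ) (S : Type) (a : M.H g S) : MultilinearMap ℂ (fun _ : S => D.V) ℂ :=
  if _ : Finite S then D.mraw a + D.corr a else 0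

lemma om_eq {g : ℕ} {S : Type} [h : Finite S] (a : M.H g S) :
    D.om g S a = D.mraw a + D.corr a := dif_pos h

lemma corr_apply {g : ℕ} {S : Type} [Fintype S] (a : M.H g S) (v : S → D.V) :
    D.corr a v = (if g = 1 then (D.r : ℂ) * M.aug a else 0) * ∏ s, D.chi (v s) := by
  unfold corr
  rw [smul_apply, D.prodchi_apply, smul_eq_mul]

lemma om_cl {g : ℕ} {S : Type} [Fintype S] (a : M.H g S) (τ : S → R.Y) :
    D.om g S a (fun s => D.c (τ s)) =
      R.raw a τ + (if g = 1 then (D.r : ℂ) * M.aug a else 0) * ∏ s, R.η R.zs (τ s) := by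
  rw [D.om_eq, add_apply, D.mraw_cl, D.corr_apply]
  simp only [D.chi_cl]

lemma om_of_infinite {g : ℕ} {S : Type} (h : ¬ Finite S) (a : M.H g S) : D.om g S a = 0 :=
  dif_neg h

/-- The data of the field theory. -/
noncomputable def data : CohFTData M where
  V := D.V
  η := D.B
  one := D.c R.xu
  Ω := D.om

end Lin

end Run7.h225
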