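import Pool.Agent.Run7.h225.StateDrop

/-!
# Coloured legs by insertion
-/

set_option autoImplicit false

namespace Run7.h225

variable {M : CurveMaps} {J : ∀ (g : ℕ) (S : Type), Submodule ℚ (M.H g S)}
  {g₀ : ℕ} {S₀ : Type}

/-- The slot `none` becomes a leg. -/
def slotLeg (R N : Type) : Option R ⊕ N ≃ R ⊕ Option N where
  toFun := Sum.elim (fun o => o.elim (Sum.inr none) Sum.inl) (fun n => Sum.inr (some n))
  invFun := Sum.elim (fun r => Sum.inl (some r)) (fun o => o.elim (Sum.inl none) Sum.inr)
  left_inv := by rintro ((_ | r) | n) <;> rfl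
  right_inv := by rintro (r | (_ | n)) <;> rfl

/-- The colours of the legs after the slot `none` has become a leg of colour `c`. -/
def addCol {N C : Type} (κ : N → C) (c : C) : Option N → C := fun o => o.elim c κ

namespace Setup

variable (D : Setup M J g₀ S₀)

/-- Filling a slot with a rational component with one coloured leg makes the slot a leg. -/
lemma ev_ins_leg {R : Type} [Finite R] {g : ℕ} {N N' : Type} [Finite N] [Finite N']
    (κ : N → Option S₀) (κ' : N' → Option S₀) (a : M.H g (Option R ⊕ N))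
    (b : M.H 0 (Option Empty ⊕ N')) (t : N') (ht : ∀ n, n ≠ t → κ' n = none) (τ : R → D.G.Y) :
    D.ev (D.G.ins (D.st g κ a) (D.st 0 κ' b)) τ =
      M.aug b * D.ev (D.st g (addCol κ (κ' t)) (M.relabel (slotLeg R N) a)) τ := by
  by_cases hs : Stable g (R ⊕ Option N)
  · have h0 := D.ev_drop (g := g) (Sum.elim κ κ') (tail N t) ?_ τ hs
      (M.relabel (Equiv.sumCongr (Equiv.sumEmpty R Empty) (Equiv.refl (N ⊕ N'))) (M.glc a b))
    · rw [D.ins_mk]
      refine h0.trans ?_
      have hκ : Sum.elim κ κ' ∘ tail N t = addCol κ (κ' t) := by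
        funext o
        rcases o with _ | n <;> rfl
      have h := glc_contr D.hM a b (Sum.inr t) (slotLeg R N)
        ((dropEmb R (tail N t)).trans
          (Equiv.sumCongr (Equiv.sumEmpty R Empty) (Equiv.refl _)).symm.toEmbedding)
        (fun r => rfl) (fun n => rfl) rfl
      rw [hκ, forget_relabel D.hM, ← D.ev_smul]
      exact congrArg (fun x => D.ev (D.st g (addCol κ (κ' t)) x) τ) h
    · rintro (n | n) hn
      · exact absurd rfl (hn (some n))
      · refine ht n fun h => hn none ?_
        rw [h]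
        rfl
  · have hs' : ¬ Stable g (Option R ⊕ N) := fun h => hs (h.congr (slotLeg R N))
    rw [D.ins_mk, D.hM.eq_zero_of_not_stable hs' a]
    have e1 : M.glc (0 : M.H g (Option R ⊕ N)) b = 0 := by
      rw [← glcₗ_apply D.hM, map_zero, LinearMap.zero_apply]
    rw [e1, D.hM.relabel_zero, D.hM.relabel_zero, D.ev_zero, D.ev_zero, mul_zero]

/-- Gluing with a rational component all of whose legs are dropped. -/
lemma ev_ins_unit {g : ℕ} {N N' : Type} [Finite N] [Finite N'] (κ : N → Option S₀)
    (κ' : N' → Option S₀) (b : M.H 0 (Option (Option Empty) ⊕ N)) (hκ : ∀ n, κ n = none)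
    (a : M.H g (Option Empty ⊕ N')) (τ : Option Empty → D.G.Y) :
    D.ev (D.G.ins (D.st 0 κ b) (D.st g κ' a)) τ =
      M.aug b * D.ev (D.st g κ' a) τ := by
  have h0 : D.G.ins (D.st 0 κ b) (D.st g κ' a) =
      D.G.map ((Equiv.sumComm Empty (Option Empty)).trans (Equiv.sumEmpty (Option Empty) Empty))
        (D.G.gl (D.st g κ' a) (D.st 0 κ b)) := by
    rw [Graft.ins, ← D.G.gl_comm (D.st g κ' a), D.G.map_map]
  rw [h0, D.ev_map, D.gl_mk]
  by_cases hs : Stable g (Option Empty ⊕ N')
  · have hs' : Stable g ((Empty ⊕ Option Empty) ⊕ N') :=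
      hs.congr (Equiv.sumCongr (Equiv.emptySum Empty (Option Empty)).symm (Equiv.refl N'))
    let j : N' ↪ N' ⊕ N := Function.Embedding.inl
    have h1 := D.ev_drop (Sum.elim κ' κ) j ?_ (τ ∘ ((Equiv.sumComm Empty (Option Empty)).trans
      (Equiv.sumEmpty (Option Empty) Empty))) hs' (M.glc a b)
    · have h2 := glc_contr D.hM a b (Sum.inl none)
        (Equiv.sumCongr (Equiv.emptySum Empty (Option Empty)).symm (Equiv.refl N'))
        (dropEmb (Empty ⊕ Option Empty) j) (fun r => r.elim) (fun n => rfl) rfl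
      refine h1.trans ?_
      have h3 : Sum.elim κ' κ ∘ j = κ' := rfl
      rw [h3]
      refine (congrArg (fun x => D.ev (D.st g κ' x) (τ ∘ ((Equiv.sumComm Empty
        (Option Empty)).trans (Equiv.sumEmpty (Option Empty) Empty)))) h2).trans ?_
      rw [D.ev_smul]
      congr 1
      rw [← D.map_mk, D.ev_map]
      congr 1
    · rintro (n | n) hn
      · exact absurd rfl (hn n)
      · exact hκ n
  · rw [D.hM.eq_zero_of_not_stable hs a]
    have e1 : M.glc (0 : M.H g (Option Empty ⊕ N')) b = 0 := by
      rw [← glcₗ_apply D.hM, map_zero, LinearMap.zero_apply]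
    rw [e1, D.ev_zero, D.ev_zero, mul_zero]

/-- A point of `M̄_{0,3}`. -/
lemma exists_pt (D : Setup M J g₀ S₀) : ∃ a : M.H 0 (Option Empty ⊕ Bool), M.aug a = 1 := by
  obtain ⟨a, _, ha⟩ := D.hM.aug_degree.2.1 0 (Option Empty ⊕ Bool)
    ⟨inferInstance, by rw [Nat.card_sum, Finite.card_option]; simp⟩
  exact ⟨a, ha⟩

/-- A point of `M̄_{0,3}`. -/
noncomputable def pt : M.H 0 (Option Empty ⊕ Bool) := D.exists_pt.choose

lemma aug_pt : M.aug D.pt = 1 := D.exists_pt.choose_spec

/-- The rational component with one leg of colour `c` and one leg without colour. -/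
noncomputable def xc (c : Option S₀) : D.G.Y := D.st 0 (fun b : Bool => cond b c none) D.pt

/-- Filling a slot with `xc c` makes the slot a leg of colour `c`. -/
lemma ev_ins_xc {R : Type} [Finite R] {g : ℕ} {N : Type} [Finite N] (κ : N → Option S₀)
    (a : M.H g (Option R ⊕ N)) (c : Option S₀) (τ : R → D.G.Y) :
    D.ev (D.G.ins (D.st g κ a) (D.xc c)) τ =
      D.ev (D.st g (addCol κ c) (M.relabel (slotLeg R N) a)) τ := by
  have h := D.ev_ins_leg κ (fun b : Bool => cond b c none) a D.pt true
    (fun n hn => by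
      rcases n with _ | _
      · rfl
      · exact absurd rfl hn) τ
  rw [D.aug_pt, Rat.cast_one, one_mul] at h
  exact h

/-- Filling all slots with coloured legs. -/
lemma ev_colours {R : Type} [Finite R] {g : ℕ} {N : Type} [Finite N] (κ : N → Option S₀)
    (a : M.H g (R ⊕ N)) (c : R → Option S₀) {P : Type} [Finite P] (κ' : P → Option S₀)
    (e : R ⊕ N ≃ Fin 0 ⊕ P) (he : ∀ o, Sum.elim Fin.elim0 κ' (e o) = Sum.elim c κ o) :
    D.ev (D.st g κ a) (fun r => D.xc (c r)) = D.val (D.st g κ' (M.relabel e a)) := by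
  have key : ∀ (R : Type) [Finite R], ∀ (N : Type) [Finite N] (κ : N → Option S₀)
      (a : M.H g (R ⊕ N)) (c : R → Option S₀) (P : Type) [Finite P] (κ' : P → Option S₀)
      (e : R ⊕ N ≃ Fin 0 ⊕ P) (_ : ∀ o, Sum.elim Fin.elim0 κ' (e o) = Sum.elim c κ o),
      D.ev (D.st g κ a) (fun r => D.xc (c r)) = D.val (D.st g κ' (M.relabel e a)) := by
    intro R _
    refine Finite.induction_empty_option (P := fun R => ∀ [Finite R], ∀ (N : Type) [Finite N]
      (κ : N → Option S₀) (a : M.H g (R ⊕ N)) (c : R → Option S₀) (P : Type) [Finite P]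
      (κ' : P → Option S₀) (e : R ⊕ N ≃ Fin 0 ⊕ P)
      (_ : ∀ o, Sum.elim Fin.elim0 κ' (e o) = Sum.elim c κ o),
      D.ev (D.st g κ a) (fun r => D.xc (c r)) =
        D.val (D.st g κ' (M.relabel e a))) ?_ ?_ ?_ R
    · intro R R' f ih _ N _ κ a c P _ κ' e he
      have : Finite R := Finite.of_equiv R' f.symm
      have ha : a = M.relabel (Equiv.sumCongr f (Equiv.refl N))
          (M.relabel (Equiv.sumCongr f (Equiv.refl N)).symm a) :=
        (D.hM.relabel_relabel_symm _ a).symm
      have h := ih N κ (M.relabel (Equiv.sumCongr f (Equiv.refl N)).symm a) (c ∘ f) P κ'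
        ((Equiv.sumCongr f (Equiv.refl N)).trans e) (fun o => by
          rw [Equiv.trans_apply, he]
          rcases o with o | o <;> rfl)
      rw [← D.hM.relabel_relabel, ← ha] at h
      rw [← h]
      conv_lhs => rw [ha, ← D.map_mk, D.ev_map]
      rfl
    · intro _ N _ κ a c P _ κ' e he
      let f : PEmpty ≃ Fin 0 := Equiv.equivOfIsEmpty _ _
      rw [D.ev_empty f, D.map_mk]
      let e' : N ≃ P := (Equiv.emptySum PEmpty N).symm.trans (e.trans (Equiv.emptySum (Fin 0) P))
      have he' : ∀ n, e (Sum.inr n) = Sum.inr (e' n) := by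
        intro n
        change e (Sum.inr n) = Sum.inr (Equiv.emptySum (Fin 0) P (e (Sum.inr n)))
        rcases e (Sum.inr n) with o | o
        · exact o.elim0
        · rfl
      have h1 := D.mk_relabel κ κ' e' (fun n => by
          have := he (Sum.inr n)
          rw [he'] at this
          exact this)
        (M.relabel (Equiv.sumCongr f (Equiv.refl N)) a)
      rw [h1, D.hM.relabel_relabel]
      congr 2
      apply relabel_eq_of
      rintro (n | n)
      · exact n.elim
      · rw [he']
        rfl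
    · intro R _ ih _ N _ κ a c P _ κ' e he
      rw [D.ev_option, D.ev_ins_xc]
      have h := ih (Option N) (addCol κ (c none)) (M.relabel (slotLeg R N) a) (c ∘ some) P κ'
        ((slotLeg R N).symm.trans e) (fun o => by
          rw [Equiv.trans_apply, he]
          rcases o with o | (_ | o) <;> rfl)
      rw [← D.hM.relabel_relabel, D.hM.relabel_symm_relabel] at h
      exact h
  exact key R N κ a c P κ' e he

end Setup

end Run7.h225
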