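import Pool.Agent.Run7.h225.StateEv

/-!
# Dropping legs
-/

set_option autoImplicit false

namespace Run7.h225

variable {M : CurveMaps} {J : ∀ (g : ℕ) (S : Type), Submodule ℚ (M.H g S)}
  {g₀ : ℕ} {S₀ : Type}

section

variable (hM : CurveHomology M)
include hM

lemma forget_relabel {g : ℕ} {S T U : Type} (e : S ≃ T) (i : U ↪ T) (a : M.H g S) :
    M.forget i (M.relabel e a) = M.forget (i.trans e.symm.toEmbedding) a :=
  hM.forget_forget _ _ _

lemma relabel_forget {g : ℕ} {S T U : Type} (i : T ↪ S) (e : T ≃ U) (a : M.H g S) :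
    M.relabel e (M.forget i a) = M.forget (e.symm.toEmbedding.trans i) a :=
  hM.forget_forget _ _ _

omit hM in
lemma forget_eq_of {g : ℕ} {S T : Type} {i j : T ↪ S} (h : ∀ t, i t = j t) (a : M.H g S) :
    M.forget i a = M.forget j a := by
  have : i = j := by
    ext t
    exact h t
  rw [this]

/-- Dropping legs commutes with gluing. -/
lemma glc_forget {g₁ g₂ : ℕ} {R R' N N' P P' : Type} (j : P ↪ N) (j' : P' ↪ N')
    (a : M.H g₁ (Option R ⊕ N)) (b : M.H g₂ (Option R' ⊕ N'))
    (hs : Stable g₁ (Option R ⊕ P)) (hs' : Stable g₂ (Option R' ⊕ P')) :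
    M.forget ((Function.Embedding.refl (R ⊕ R')).sumMap (j.sumMap j')) (M.glc a b) =
      M.glc (M.forget ((Function.Embedding.refl (Option R)).sumMap j) a)
        (M.forget ((Function.Embedding.refl (Option R')).sumMap j') b) := by
  unfold CurveMaps.glc
  have e1 : M.relabel (optionSum R P)
      (M.forget ((Function.Embedding.refl (Option R)).sumMap j) a) =
      M.forget (((Function.Embedding.refl R).sumMap j).optionMap)
        (M.relabel (optionSum R N) a) := by
    rw [forget_relabel hM, relabel_forget hM]
    apply forget_eq_of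
    rintro (_ | r | n) <;> rfl
  have e2 : M.relabel (optionSum R' P')
      (M.forget ((Function.Embedding.refl (Option R')).sumMap j') b) =
      M.forget (((Function.Embedding.refl R').sumMap j').optionMap)
        (M.relabel (optionSum R' N') b) := by
    rw [forget_relabel hM, relabel_forget hM]
    apply forget_eq_of
    rintro (_ | r | n) <;> rfl
  rw [e1, e2, ← hM.glue_forget _ _ _ _ _ _ _ _ _ _ _ _ (hs.congr (optionSum R P))
    (hs'.congr (optionSum R' P')), forget_relabel hM, relabel_forget hM]
  apply forget_eq_of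
  rintro ((r | r) | (n | n)) <;> rfl

/-- Contraction of a rational component. -/
lemma glc_contr {g : ℕ} {R R' N N' T : Type} (a : M.H g (Option R ⊕ N))
    (b : M.H 0 (Option R' ⊕ N')) (t : R' ⊕ N') (e : Option R ⊕ N ≃ T)
    (i : T ↪ (R ⊕ R') ⊕ (N ⊕ N')) (h1 : ∀ r, i (e (Sum.inl (some r))) = Sum.inl (Sum.inl r))
    (h2 : ∀ n, i (e (Sum.inr n)) = Sum.inr (Sum.inl n))
    (h3 : i (e (Sum.inl none)) = Sum.map Sum.inr Sum.inr t) :
    M.forget i (M.glc a b) = M.aug b • M.relabel e a := by
  unfold CurveMaps.glc
  have key := hM.contraction g (R ⊕ N) (R' ⊕ N') t (M.relabel (optionSum R N) a)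
    (M.relabel (optionSum R' N') b)
  have haug : M.aug (M.relabel (optionSum R' N') b) = M.aug b := by
    by_cases hs : Stable 0 (Option (R' ⊕ N'))
    · exact hM.aug_natural.1 0 _ _ (optionSum R' N').symm.toEmbedding b hs
    · have hs' : ¬ Stable 0 (Option R' ⊕ N') := fun h => hs (h.congr (optionSum R' N'))
      rw [hM.eq_zero_of_not_stable hs' b, hM.relabel_zero, hM.aug_zero, hM.aug_zero]
  rw [haug] at key
  have h := congrArg (M.relabel ((optionSum R N).symm.trans e)) key
  rw [hM.relabel_smul, hM.relabel_relabel, relabel_forget hM] at h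
  have e1 : (optionSum R N).trans ((optionSum R N).symm.trans e) = e := by
    apply Equiv.ext
    intro o
    simp
  rw [e1] at h
  rw [← h, forget_relabel hM]
  apply forget_eq_of
  intro o
  obtain ⟨o, rfl⟩ := e.surjective o
  have e2 : (((optionSum R N).symm.trans e).symm.toEmbedding.trans (tail (R ⊕ N) t)) (e o) =
      tail (R ⊕ N) t (optionSum R N o) := by
    simp [Function.Embedding.trans_apply]
  rw [e2]
  rcases o with (_ | r) | n
  · change (Equiv.sumSumSumComm R N R' N').symm (i (e (Sum.inl none))) = _
    rw [h3]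
    rcases t with t | t <;> rfl
  · change (Equiv.sumSumSumComm R N R' N').symm (i (e (Sum.inl (some r)))) = _
    rw [h1]
    rfl
  · change (Equiv.sumSumSumComm R N R' N').symm (i (e (Sum.inr n))) = _
    rw [h2]
    rfl

end

namespace Setup

variable (D : Setup M J g₀ S₀)

/-- Dropping legs that carry no colour does not change the value. -/
lemma ev_drop {R : Type} [Finite R] {g : ℕ} {N N' : Type} [Finite N] [Finite N']
    (κ : N → Option S₀) (j : N' ↪ N) (hj : ∀ n, (∀ n', n ≠ j n') → κ n = none)
    (τ : R → D.G.Y) (hs : Stable g (R ⊕ N')) (a : M.H g (R ⊕ N)) :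
    D.ev (D.st g κ a) τ = D.ev (D.st g (κ ∘ j) (M.forget (dropEmb R j) a)) τ := by
  have key : ∀ (R : Type) [Finite R], ∀ (g : ℕ) (N N' : Type) [Finite N] [Finite N']
      (κ : N → Option S₀) (j : N' ↪ N) (_ : ∀ n, (∀ n', n ≠ j n') → κ n = none)
      (τ : R → D.G.Y) (_ : Stable g (R ⊕ N')) (a : M.H g (R ⊕ N)),
      D.ev (D.st g κ a) τ =
        D.ev (D.st g (κ ∘ j) (M.forget (dropEmb R j) a)) τ := by
    intro R _
    refine Finite.induction_empty_option (P := fun R => ∀ [Finite R], ∀ (g : ℕ) (N N' : Type)
      [Finite N] [Finite N'] (κ : N → Option S₀) (j : N' ↪ N)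
      (_ : ∀ n, (∀ n', n ≠ j n') → κ n = none) (τ : R → D.G.Y) (_ : Stable g (R ⊕ N'))
      (a : M.H g (R ⊕ N)), D.ev (D.st g κ a) τ =
        D.ev (D.st g (κ ∘ j) (M.forget (dropEmb R j) a)) τ) ?_ ?_ ?_ R
    · intro R R' e ih _ g N N' _ _ κ j hj τ hs a
      have : Finite R := Finite.of_equiv R' e.symm
      have ha : a = M.relabel (Equiv.sumCongr e (Equiv.refl N))
          (M.relabel (Equiv.sumCongr e (Equiv.refl N)).symm a) :=
        (D.hM.relabel_relabel_symm _ a).symm
      have h := ih g N N' κ j hj (τ ∘ e) (hs.congr (Equiv.sumCongr e (Equiv.refl N')).symm)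
        (M.relabel (Equiv.sumCongr e (Equiv.refl N)).symm a)
      rw [← D.ev_map, ← D.ev_map, D.map_mk, D.map_mk, ← ha] at h
      rw [h, forget_relabel D.hM, relabel_forget D.hM]
      congr 2
      apply forget_eq_of
      rintro (r | n)
      · exact congrArg Sum.inl (e.apply_symm_apply r)
      · rfl
    · intro _ g N N' _ _ κ j hj τ hs a
      let e : PEmpty ≃ Fin 0 := Equiv.equivOfIsEmpty _ _
      rw [D.ev_empty e, D.ev_empty e, D.map_mk, D.map_mk, D.val_mk, D.val_mk]
      refine preVal_drop D.α D.hM D.hα D.hJ rfl j (fun _ => rfl) hj (mem_of_eq ?_)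
      rw [castG_rfl, forget_relabel D.hM, relabel_forget D.hM]
      apply forget_eq_of
      rintro (r | n)
      · exact r.elim0
      · rfl
    · intro R _ ih _ g N N' _ _ κ j hj τ hs a
      obtain ⟨g', N'', _, κ', b, hb⟩ := D.exists_mk (τ none)
      rw [D.ev_option, D.ev_option, hb, D.ins_mk, D.ins_mk]
      by_cases hs' : Stable g' (Option Empty ⊕ N'')
      · have hst : Stable (g + g') (R ⊕ (N' ⊕ N'')) := by
          have h1 := Stable.sum rfl (hs.congr (optionSum R N'))
            (hs'.congr (optionSum Empty N''))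
          refine h1.congr ?_
          exact (Equiv.sumSumSumComm R N' Empty N'').trans
            (Equiv.sumCongr (Equiv.sumEmpty R Empty) (Equiv.refl _))
        have h := ih (g + g') (N ⊕ N'') (N' ⊕ N'') (Sum.elim κ κ')
          (j.sumMap (Function.Embedding.refl N'')) ?_ (τ ∘ some) hst
          (M.relabel (Equiv.sumCongr (Equiv.sumEmpty R Empty) (Equiv.refl (N ⊕ N'')))
            (M.glc a b))
        · rw [h]
          have hκ : Sum.elim κ κ' ∘ (j.sumMap (Function.Embedding.refl N'')) =
              Sum.elim (κ ∘ j) κ' := by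
            funext o
            rcases o with o | o <;> rfl
          rw [hκ]
          congr 2
          have h3 := glc_forget D.hM j (Function.Embedding.refl N'') a b hs hs'
          have h4 : M.forget ((Function.Embedding.refl (Option Empty)).sumMap
              (Function.Embedding.refl N'')) b = b := by
            have : (Function.Embedding.refl (Option Empty)).sumMap
                (Function.Embedding.refl N'') = Function.Embedding.refl _ := by
              ext o
              rcases o with o | o <;> rfl
            rw [this]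
            exact D.hM.forget_functorial.1 _ _ _
          rw [h4] at h3
          change _ = M.relabel _ (M.glc (M.forget _ a) b)
          rw [← h3, forget_relabel D.hM, relabel_forget D.hM]
          apply forget_eq_of
          rintro (r | (n | n)) <;> rfl
        · rintro (n | n) hn
          · refine hj n fun n' h' => hn (Sum.inl n') ?_
            rw [h']
            rfl
          · exact absurd rfl (hn (Sum.inr n))
      · rw [D.hM.eq_zero_of_not_stable hs' b]
        have e1 : M.glc a (0 : M.H g' (Option Empty ⊕ N'')) = 0 := by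
          rw [← glcₗ_apply D.hM, map_zero]
        have e2 : M.glc (M.forget (dropEmb (Option R) j) a)
            (0 : M.H g' (Option Empty ⊕ N'')) = 0 := by
          rw [← glcₗ_apply D.hM, map_zero]
        rw [e1, e2, D.hM.relabel_zero, D.hM.relabel_zero, D.ev_zero, D.ev_zero]
  exact key R g N N' κ j hj τ hs a

end Setup

end Run7.h225
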