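import Pool.Agent.Run7.h225.StateVal

/-!
# Evaluation of classes with slots and coloured legs
-/

set_option autoImplicit false

namespace Run7.h225

/-- The data from which the field theory is constructed. -/
structure Setup (M : CurveMaps) (J : ∀ (g : ℕ) (S : Type), Submodule ℚ (M.H g S)) (g₀ : ℕ)
    (S₀ : Type) : Type where
  hM : CurveHomology M
  hJ : IsIdeal M J
  hodd : ContainsOddGlue M J
  hself : ContainsSelfGlue M J
  stable : Stable g₀ S₀
  α : M.H g₀ S₀ →ₗ[ℚ] ℚ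
  hα : ∀ a ∈ J g₀ S₀, α a = 0
  A : M.H g₀ S₀
  hA : α A = 1

variable {M : CurveMaps} {J : ∀ (g : ℕ) (S : Type), Submodule ℚ (M.H g S)}
  {g₀ : ℕ} {S₀ : Type}

namespace Setup

variable (D : Setup M J g₀ S₀)

/-- The system of classes with coloured legs. -/
abbrev G : Graft.{1} := stGraft D.hM D.hJ D.hodd (Option S₀)

/-- The class of `a` with slots `R` and legs `N`. -/
def st {R : Type} (g : ℕ) {N : Type} [fN : Finite N] (κ : N → Option S₀)
    (a : M.H g (R ⊕ N)) : D.G.Q R := Quot.mk _ ⟨g, N, fN, κ, a⟩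

lemma exists_mk {R : Type} (x : D.G.Q R) : ∃ (g : ℕ) (N : Type) (_ : Finite N)
    (κ : N → Option S₀) (a : M.H g (R ⊕ N)), x = D.st g κ a := by
  obtain ⟨⟨g, N, fN, κ, a⟩⟩ := x
  exact ⟨g, N, fN, κ, a, rfl⟩

/-- The value of a class without slots. -/
noncomputable def val (x : D.G.Q (Fin 0)) : ℂ :=
  Quot.lift (preVal D.α) (preVal_rel D.α D.hM D.hα D.hJ) x

lemma val_mk {g : ℕ} {N : Type} [fN : Finite N] (κ : N → Option S₀) (a : M.H g (Fin 0 ⊕ N)) :
    D.val (D.st g κ a) = preVal D.α ⟨g, N, fN, κ, a⟩ := rfl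

lemma map_mk {g : ℕ} {N R R' : Type} [fN : Finite N] (κ : N → Option S₀) (a : M.H g (R ⊕ N))
    (e : R ≃ R') : D.G.map e (D.st g κ a) =
      D.st g κ (M.relabel (Equiv.sumCongr e (Equiv.refl N)) a) := rfl

lemma gl_mk {g g' : ℕ} {N N' R R' : Type} [Finite N] [Finite N'] (κ : N → Option S₀)
    (κ' : N' → Option S₀) (a : M.H g (Option R ⊕ N)) (b : M.H g' (Option R' ⊕ N')) :
    D.G.gl (D.st g κ a) (D.st g' κ' b) = D.st (g + g') (Sum.elim κ κ') (M.glc a b) := rfl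

lemma ins_mk {g g' : ℕ} {N N' R : Type} [Finite N] [Finite N'] (κ : N → Option S₀)
    (κ' : N' → Option S₀) (a : M.H g (Option R ⊕ N)) (b : M.H g' (Option Empty ⊕ N')) :
    D.G.ins (D.st g κ a) (D.st g' κ' b) = D.st (g + g') (Sum.elim κ κ')
      (M.relabel (Equiv.sumCongr (Equiv.sumEmpty R Empty) (Equiv.refl (N ⊕ N'))) (M.glc a b)) :=
  rfl

/-- The value after filling all slots. -/
noncomputable def ev {R : Type} [Finite R] (x : D.G.Q R) (τ : R → D.G.Y) : ℂ :=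
  D.val (D.G.tot x τ)

lemma ev_map {R R' : Type} [Finite R] [Finite R'] (e : R ≃ R') (x : D.G.Q R) (τ : R' → D.G.Y) :
    D.ev (D.G.map e x) τ = D.ev x (τ ∘ e) := by
  unfold ev
  rw [D.G.tot_map]

lemma ev_option {R : Type} [Finite R] (x : D.G.Q (Option R)) (τ : Option R → D.G.Y) :
    D.ev x τ = D.ev (D.G.ins x (τ none)) (τ ∘ some) := by
  unfold ev
  rw [D.G.tot_option]

lemma ev_empty {R : Type} [Finite R] (e : R ≃ Fin 0) (x : D.G.Q R) (τ : R → D.G.Y) :
    D.ev x τ = D.val (D.G.map e x) := by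
  unfold ev
  rw [D.G.tot_empty e]

/-- The value is linear in the class. -/
lemma ev_lin {R : Type} [Finite R] {g : ℕ} {N : Type} [Finite N] (κ : N → Option S₀)
    (τ : R → D.G.Y) :
    ∃ L : M.H g (R ⊕ N) →ₗ[ℚ] ℂ, ∀ a, L a = D.ev (D.st g κ a) τ := by
  have key : ∀ (R : Type) [Finite R], ∀ (g : ℕ) (N : Type) [Finite N] (κ : N → Option S₀)
      (τ : R → D.G.Y), ∃ L : M.H g (R ⊕ N) →ₗ[ℚ] ℂ, ∀ a, L a = D.ev (D.st g κ a) τ := by
    intro R _
    refine Finite.induction_empty_option (P := fun R => ∀ [Finite R], ∀ (g : ℕ) (N : Type)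
      [Finite N] (κ : N → Option S₀) (τ : R → D.G.Y), ∃ L : M.H g (R ⊕ N) →ₗ[ℚ] ℂ,
        ∀ a, L a = D.ev (D.st g κ a) τ) ?_ ?_ ?_ R
    · intro R R' e ih _ g N _ κ τ
      have : Finite R := Finite.of_equiv R' e.symm
      obtain ⟨L, hL⟩ := ih g N κ (τ ∘ e)
      refine ⟨L.comp (D.hM.forgetₗ (Equiv.sumCongr e (Equiv.refl N)).toEmbedding),
        fun a => ?_⟩
      have ha : a = M.relabel (Equiv.sumCongr e (Equiv.refl N))
          (M.relabel (Equiv.sumCongr e (Equiv.refl N)).symm a) :=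
        (D.hM.relabel_relabel_symm _ a).symm
      rw [LinearMap.comp_apply]
      conv_rhs => rw [ha, ← D.map_mk, D.ev_map]
      exact hL _
    · intro _ g N _ κ τ
      obtain ⟨L, hL⟩ := preVal_lin D.α D.hM (g := g) (N := N) inferInstance κ
      let e : PEmpty ≃ Fin 0 := Equiv.equivOfIsEmpty _ _
      refine ⟨L.comp (D.hM.forgetₗ (Equiv.sumCongr e (Equiv.refl N)).symm.toEmbedding),
        fun a => ?_⟩
      rw [D.ev_empty e, D.map_mk, D.val_mk, ← hL]
      rfl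
    · intro R _ ih _ g N _ κ τ
      obtain ⟨g', N', _, κ', b, hb⟩ := D.exists_mk (τ none)
      obtain ⟨L, hL⟩ := ih (g + g') (N ⊕ N') (Sum.elim κ κ') (τ ∘ some)
      refine ⟨L.comp ((D.hM.forgetₗ (Equiv.sumCongr (Equiv.sumEmpty R Empty)
        (Equiv.refl (N ⊕ N'))).symm.toEmbedding).comp ((glcₗ D.hM).flip b)), fun a => ?_⟩
      rw [D.ev_option, hb, D.ins_mk, ← hL]
      rfl
  exact key R g N κ τ

lemma ev_zero {R : Type} [Finite R] {g : ℕ} {N : Type} [Finite N] (κ : N → Option S₀)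
    (τ : R → D.G.Y) : D.ev (D.st g κ (0 : M.H g (R ⊕ N))) τ = 0 := by
  obtain ⟨L, hL⟩ := D.ev_lin (R := R) (g := g) κ τ
  rw [← hL, map_zero]

lemma ev_smul {R : Type} [Finite R] {g : ℕ} {N : Type} [Finite N] (κ : N → Option S₀)
    (τ : R → D.G.Y) (c : ℚ) (a : M.H g (R ⊕ N)) :
    D.ev (D.st g κ (c • a)) τ = c * D.ev (D.st g κ a) τ := by
  obtain ⟨L, hL⟩ := D.ev_lin (R := R) (g := g) κ τ
  rw [← hL, ← hL, map_smul, Rat.smul_def]

lemma ev_add {R : Type} [Finite R] {g : ℕ} {N : Type} [Finite N] (κ : N → Option S₀)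
    (τ : R → D.G.Y) (a b : M.H g (R ⊕ N)) :
    D.ev (D.st g κ (a + b)) τ = D.ev (D.st g κ a) τ + D.ev (D.st g κ b) τ := by
  obtain ⟨L, hL⟩ := D.ev_lin (R := R) (g := g) κ τ
  rw [← hL, ← hL, ← hL, map_add]

/-- Two classes with the same legs that differ by an element of the ideal are equal. -/
lemma mk_congr {R : Type} {g : ℕ} {N : Type} [Finite N] (κ : N → Option S₀)
    {a b : M.H g (R ⊕ N)} (h : a - b ∈ J g (R ⊕ N)) :
    D.st g κ a = D.st g κ b := by
  refine st_sound rfl (Equiv.refl N) (fun _ => rfl) ?_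
  rw [castG_rfl, Equiv.sumCongr_refl, D.hM.relabel_refl]
  exact h

/-- Renaming the legs. -/
lemma mk_relabel {R : Type} {g : ℕ} {N N' : Type} [Finite N] [Finite N'] (κ : N → Option S₀)
    (κ' : N' → Option S₀) (e : N ≃ N') (h : ∀ n, κ' (e n) = κ n) (a : M.H g (R ⊕ N)) :
    D.st g κ a = D.st g κ' (M.relabel (Equiv.sumCongr (Equiv.refl R) e) a) := by
  refine st_sound rfl e h ?_
  rw [castG_rfl, sub_self]
  exact Submodule.zero_mem _

end Setup

end Run7.h225
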