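import Pool.Agent.Run7.h225.StateRaw

set_option autoImplicit false

namespace Run7.h225

variable {M : CurveMaps} {J : ∀ (g : ℕ) (S : Type), Submodule ℚ (M.H g S)}
  {g₀ : ℕ} {S₀ : Type}

namespace Setup

variable (D : Setup M J g₀ S₀)

lemma val_some {P : Type} [Finite P] (κ : P → Option S₀) (i : S₀ ↪ P) (hi : Sec κ i)
    (a : M.H g₀ (Fin 0 ⊕ P)) (h : M.forget (i.trans Function.Embedding.inr) a = D.A) :
    D.val (D.st g₀ κ a) = 1 := by
  have h1 := preVal_eq D.α (fN := inferInstance) (a := a) rfl i hi
  refine Eq.trans h1 ?_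
  rw [castG_rfl, h, D.hA, Rat.cast_one]

lemma exists_zs : ∃ z : D.G.Y, D.eta (D.xc none) z = 1 := by
  have : Finite S₀ := D.stable.1
  obtain ⟨a, ha⟩ := D.hM.forget_surjective g₀ (Option S₀) S₀ Function.Embedding.some
    D.stable.option D.stable D.A
  let e₀ : Option S₀ ≃ Option Empty ⊕ S₀ :=
    { toFun := fun o => o.elim (Sum.inl none) Sum.inr
      invFun := Sum.elim (fun _ => none) some
      left_inv := by rintro (_ | s) <;> rfl
      right_inv := by
        rintro ((_ | s) | s)
        · rfl
        · exact s.elim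
        · rfl }
  let e : Option Empty ⊕ S₀ ≃ Fin 0 ⊕ Option S₀ := e₀.symm.trans (Equiv.emptySum (Fin 0) _).symm
  refine ⟨D.st g₀ some (M.relabel e₀ a), ?_⟩
  rw [D.eta_symm, D.eta_eq_ev]
  have h := D.ev_colours (R := Option Empty) some (M.relabel e₀ a) (fun _ => none)
    (P := Option S₀) id e (by
      rintro ((_ | s) | s)
      · rfl
      · exact s.elim
      · rfl)
  refine Eq.trans h ?_
  refine D.val_some id Function.Embedding.some (fun n s => Iff.rfl) _ ?_
  rw [forget_relabel D.hM, forget_relabel D.hM, ← ha]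
  apply forget_eq_of
  intro s
  rfl

/-- An element that pairs to `1` with the unit. -/
noncomputable def zs : D.G.Y := D.exists_zs.choose

lemma eta_zs : D.eta (D.xc none) D.zs = 1 := D.exists_zs.choose_spec

/-- The class `A` is detected. -/
lemma raw_A [Finite S₀] : D.raw D.A (fun s => D.xc (some s)) = 1 := by
  let e : S₀ ⊕ Empty ≃ Fin 0 ⊕ S₀ :=
    (Equiv.sumEmpty S₀ Empty).trans (Equiv.emptySum (Fin 0) _).symm
  have h := D.ev_colours (R := S₀) (fun n : Empty => n.elim)
    (M.relabel (Equiv.sumEmpty S₀ Empty).symm D.A) some (P := S₀) some e (by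
      rintro (s | s)
      · rfl
      · exact s.elim)
  refine Eq.trans h ?_
  refine D.val_some some (Function.Embedding.refl S₀) (fun n s => Option.some_inj) _ ?_
  rw [forget_relabel D.hM, forget_relabel D.hM]
  refine (forget_eq_of (j := Function.Embedding.refl S₀) ?_ _).trans
    (D.hM.forget_functorial.1 _ _ _)
  intro s
  rfl

lemma w_some (s : S₀) : D.w (D.xc (some s)) ≠ 0 := by
  unfold xc
  rw [D.w_st, zero_add]
  have : Nonempty {n : Bool // (cond n (some s) none : Option S₀) ≠ none} :=
    ⟨⟨true, by simp⟩⟩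
  exact Nat.card_pos.ne'

/-- The functional given by a class with one slot. -/
noncomputable def func (g : ℕ) (n : ℕ) (κ : Fin n → Option S₀) :
    M.H g (Option Empty ⊕ Fin n) →ₗ[ℚ] (D.G.Y → ℂ) where
  toFun := fun a z => D.ev (D.st g κ a) (fun _ => z)
  map_add' := fun a b => by
    funext z
    exact D.ev_add κ _ a b
  map_smul' := fun c a => by
    funext z
    have := D.ev_smul κ (fun _ => z) c a
    rw [this]
    simp [Rat.smul_def]

lemma func_fd (g : ℕ) (n : ℕ) (κ : Fin n → Option S₀) :
    FiniteDimensional ℂ (Submodule.span ℂ (Set.range (D.func g n κ))) := by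
  have := (D.hM.isGraded g (Option Empty ⊕ Fin n)).1
  obtain ⟨s, hs⟩ := this
  have h1 : FiniteDimensional ℂ (Submodule.span ℂ (D.func g n κ '' (s : Set _))) :=
    FiniteDimensional.span_of_finite ℂ (s.finite_toSet.image _)
  refine Submodule.finiteDimensional_of_le (S₂ := Submodule.span ℂ (D.func g n κ '' (s : Set _)))
    (Submodule.span_le.2 ?_)
  rintro _ ⟨a, rfl⟩
  have ha : a ∈ Submodule.span ℚ (s : Set _) := by
    rw [hs]
    trivial
  induction ha using Submodule.span_induction with
  | mem x hx => exact Submodule.subset_span ⟨x, hx, rfl⟩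
  | zero =>
    rw [map_zero]
    exact Submodule.zero_mem _
  | add x y _ _ hx hy =>
    rw [map_add]
    exact Submodule.add_mem _ hx hy
  | smul c x _ hx =>
    rw [map_smul]
    have : c • D.func g n κ x = (c : ℂ) • D.func g n κ x := by
      funext z
      simp [Rat.smul_def]
    rw [this]
    exact Submodule.smul_mem _ _ hx

/-- The eta-functional of `y` is one of the functionals `func`, if `y` has few legs. -/
lemma eta_func {g : ℕ} {N : Type} [Finite N] (κ : N → Option S₀)
    (a : M.H g (Option Empty ⊕ N)) : ∃ (κ' : Fin (Nat.card N) → Option S₀)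
      (b : M.H g (Option Empty ⊕ Fin (Nat.card N))),
      D.eta (D.st g κ a) = D.func g (Nat.card N) κ' b := by
  let e := Finite.equivFin N
  refine ⟨κ ∘ e.symm, M.relabel (Equiv.sumCongr (Equiv.refl _) e) a, ?_⟩
  funext z
  rw [D.eta_eq_ev]
  change _ = D.ev _ _
  rw [← D.mk_relabel κ (κ ∘ e.symm) e (fun n => by simp) a]

lemma fd : FiniteDimensional ℂ (Submodule.span ℂ (Set.range D.eta)) := by
  have : Finite S₀ := D.stable.1
  let w₀ := g₀ + Nat.card S₀
  let ι := Σ (_ : Fin (w₀ + 1)) (n : Fin (w₀ + 3)), (Fin n → Option S₀)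
  let U : ι → Submodule ℂ (D.G.Y → ℂ) := fun p =>
    Submodule.span ℂ (Set.range (D.func p.1 p.2.1 p.2.2))
  have hU : ∀ p, FiniteDimensional ℂ (U p) := fun p => D.func_fd _ _ _
  have hUU : FiniteDimensional ℂ (⨆ p, U p : Submodule ℂ (D.G.Y → ℂ)) :=
    Submodule.finiteDimensional_iSup U
  refine Submodule.finiteDimensional_of_le (S₂ := ⨆ p, U p) (Submodule.span_le.2 ?_)
  have hmem : ∀ (g : ℕ) (N : Type) [Finite N] (κ : N → Option S₀)
      (a : M.H g (Option Empty ⊕ N)), g ≤ w₀ → Nat.card N ≤ w₀ + 2 →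
      D.eta (D.st g κ a) ∈ ⨆ p, U p := by
    intro g N _ κ a hg hN
    obtain ⟨κ', b, hb⟩ := D.eta_func κ a
    rw [hb]
    refine (le_iSup U ⟨⟨g, by omega⟩, ⟨Nat.card N, by omega⟩, κ'⟩) ?_
    exact Submodule.subset_span ⟨b, rfl⟩
  rintro _ ⟨y, rfl⟩
  by_cases h0 : ∀ z, D.eta y z = 0
  · have : D.eta y = 0 := funext h0
    rw [this]
    exact Submodule.zero_mem _
  push Not at h0
  obtain ⟨z, hz⟩ := h0
  have hw := D.w_eta y z hz
  obtain ⟨g, N, _, κ, a, rfl⟩ := D.exists_mk y
  rw [D.w_st] at hw
  by_cases hN : Nat.card {n // κ n = none} ≤ 2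
  · refine hmem g N κ a (by omega) ?_
    have e : N ≃ {n // κ n = none} ⊕ {n // κ n ≠ none} :=
      (Equiv.sumCompl (fun n => κ n = none)).symm
    rw [Nat.card_congr e, Nat.card_sum]
    omega
  · obtain ⟨j₀⟩ : Nonempty (Bool ↪ {n // κ n = none}) := by
      have := Fintype.ofFinite {n // κ n = none}
      refine Function.Embedding.nonempty_of_card_le ?_
      rw [← Nat.card_eq_fintype_card, ← Nat.card_eq_fintype_card,
        Nat.card_eq_fintype_card (α := Bool), Fintype.card_bool]
      omega
    let j : Bool ⊕ {n // κ n ≠ none} ↪ N :=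
      { toFun := Sum.elim (fun b => (j₀ b).1) (fun n => n.1)
        inj' := by
          rintro (b | n) (b' | n') h
          · exact congrArg Sum.inl (j₀.injective (Subtype.ext h))
          · exfalso
            change (j₀ b).1 = n'.1 at h
            have h1 := (j₀ b).2
            rw [h] at h1
            exact n'.2 h1
          · exfalso
            change n.1 = (j₀ b').1 at h
            have h1 := (j₀ b').2
            rw [← h] at h1
            exact n.2 h1
          · exact congrArg Sum.inr (Subtype.ext h) }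
    have hs : Stable g (Option Empty ⊕ (Bool ⊕ {n // κ n ≠ none})) := by
      refine ⟨inferInstance, ?_⟩
      rw [Nat.card_sum, Nat.card_sum, Finite.card_option, Nat.card_eq_fintype_card (α := Bool),
        Fintype.card_bool]
      omega
    have hj : ∀ n, (∀ n', n ≠ j n') → κ n = none := by
      intro n hn
      by_contra hc
      exact hn (Sum.inr ⟨n, hc⟩) rfl
    have h1 : D.eta (D.st g κ a) = D.eta (D.st g (κ ∘ j) (M.forget (dropEmb _ j) a)) := by
      funext z
      rw [D.eta_eq_ev, D.eta_eq_ev, D.ev_drop κ j hj _ hs]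
    rw [h1]
    refine hmem g _ _ _ (by omega) ?_
    rw [Nat.card_sum, Nat.card_eq_fintype_card (α := Bool), Fintype.card_bool]
    omega

/-- The field theory before linearisation. -/
noncomputable def rawTheory : RawTheory M where
  Y := D.G.Y
  η := D.eta
  w := D.w
  w₀ := g₀ + Nat.card S₀
  xu := D.xc none
  zs := D.zs
  raw := D.raw
  root := D.root
  symm := D.eta_symm
  fd := D.fd
  raw_add := D.raw_add
  raw_smul := D.raw_smul
  raw_relabel := D.raw_relabel
  raw_root := D.raw_root
  raw_glue := D.raw_glue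
  raw_selfGlue := D.raw_selfGlue
  raw_unit := D.raw_unit
  raw_three := D.raw_three
  w_root := D.w_root
  w_eta := D.w_eta
  w₀_pos := by
    have := D.stable.2
    omega
  w_zero := D.w_zero
  w_xu := D.w_xu
  eta_zs := D.eta_zs

end Setup

end Run7.h225
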