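import Pool.Agent.Run7.h225.States

set_option autoImplicit false

namespace Run7.h225

variable {M : CurveMaps} {J : ∀ (g : ℕ) (S : Type), Submodule ℚ (M.H g S)}

lemma relabel_eq_of {g : ℕ} {S T : Type} {e f : S ≃ T} (h : ∀ s, e s = f s) (a : M.H g S) :
    M.relabel e a = M.relabel f a := by
  rw [Equiv.ext h]

lemma sub_mem_congr {g : ℕ} {S : Type} {a a' b : M.H g S} (h : a' - b ∈ J g S) (e : a = a') :
    a - b ∈ J g S := e ▸ h

lemma mem_of_eq {g : ℕ} {S : Type} {a b : M.H g S} (h : a = b) : a - b ∈ J g S := by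
  rw [h, sub_self]
  exact Submodule.zero_mem _

lemma castG_glc {g₁ g₁' g₂ g₂' : ℕ} (h₁ : g₁ = g₁') (h₂ : g₂ = g₂') (h : g₁ + g₂ = g₁' + g₂')
    {R R' N N' : Type} (a : M.H g₁ (Option R ⊕ N)) (b : M.H g₂ (Option R' ⊕ N')) :
    castG h (M.glc a b) = M.glc (castG h₁ a) (castG h₂ b) := by
  subst h₁ h₂
  rfl

section

variable (hM : CurveHomology M)
include hM

lemma glc_relabel {g₁ g₂ : ℕ} {R R' N N' S S' P P' : Type} (e : R ≃ S) (e' : R' ≃ S')
    (f : N ≃ P) (f' : N' ≃ P') (a : M.H g₁ (Option R ⊕ N)) (b : M.H g₂ (Option R' ⊕ N')) :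
    M.glc (M.relabel (Equiv.sumCongr (Equiv.optionCongr e) f) a)
      (M.relabel (Equiv.sumCongr (Equiv.optionCongr e') f') b) =
      M.relabel (Equiv.sumCongr (Equiv.sumCongr e e') (Equiv.sumCongr f f')) (M.glc a b) := by
  unfold CurveMaps.glc
  have e1 : M.relabel (optionSum S P)
      (M.relabel (Equiv.sumCongr (Equiv.optionCongr e) f) a) =
      M.relabel (Equiv.optionCongr (Equiv.sumCongr e f)) (M.relabel (optionSum R N) a) := by
    rw [hM.relabel_relabel, hM.relabel_relabel]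
    apply relabel_eq_of
    rintro ((_ | r) | n) <;> rfl
  have e2 : M.relabel (optionSum S' P')
      (M.relabel (Equiv.sumCongr (Equiv.optionCongr e') f') b) =
      M.relabel (Equiv.optionCongr (Equiv.sumCongr e' f')) (M.relabel (optionSum R' N') b) := by
    rw [hM.relabel_relabel, hM.relabel_relabel]
    apply relabel_eq_of
    rintro ((_ | r) | n) <;> rfl
  rw [e1, e2, hM.relabel_glue]
  simp only [hM.relabel_relabel]
  apply relabel_eq_of
  rintro ((r | n) | (r | n)) <;> rfl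

lemma glc_relabel_left {g₁ g₂ : ℕ} {R R' N N' S P : Type} (e : R ≃ S)
    (f : N ≃ P) (a : M.H g₁ (Option R ⊕ N)) (b : M.H g₂ (Option R' ⊕ N')) :
    M.glc (M.relabel (Equiv.sumCongr (Equiv.optionCongr e) f) a) b =
      M.relabel (Equiv.sumCongr (Equiv.sumCongr e (Equiv.refl R'))
        (Equiv.sumCongr f (Equiv.refl N'))) (M.glc a b) := by
  rw [← glc_relabel hM, Equiv.optionCongr_refl, Equiv.sumCongr_refl, hM.relabel_refl]

lemma glc_relabel_right {g₁ g₂ : ℕ} {R R' N N' S' P' : Type} (e' : R' ≃ S')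
    (f' : N' ≃ P') (a : M.H g₁ (Option R ⊕ N)) (b : M.H g₂ (Option R' ⊕ N')) :
    M.glc a (M.relabel (Equiv.sumCongr (Equiv.optionCongr e') f') b) =
      M.relabel (Equiv.sumCongr (Equiv.sumCongr (Equiv.refl R) e')
        (Equiv.sumCongr (Equiv.refl N) f')) (M.glc a b) := by
  rw [← glc_relabel hM, Equiv.optionCongr_refl, Equiv.sumCongr_refl, hM.relabel_refl]

lemma glc_assoc {g₁ g₂ g₃ : ℕ} {R R' R'' N N' N'' : Type} (a : M.H g₁ (Option R ⊕ N))
    (b : M.H g₂ (Option (Option R') ⊕ N')) (c : M.H g₃ (Option R'' ⊕ N'')) :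
    M.relabel (Equiv.sumCongr (Equiv.sumAssoc R R' R'') (Equiv.sumAssoc N N' N''))
      (castG (Nat.add_assoc g₁ g₂ g₃) (M.glc (M.relabel (Equiv.sumCongr (sumOption R R')
        (Equiv.refl (N ⊕ N'))) (M.glc a b)) c)) =
    M.glc a (M.relabel (Equiv.sumCongr (optionSum R' R'') (Equiv.refl (N' ⊕ N'')))
      (M.glc (M.relabel (Equiv.sumCongr (optionSwap R') (Equiv.refl N')) b) c)) := by
  -- the three classes
  obtain ⟨a', ha'⟩ : ∃ a', a' = M.relabel (optionSum R N) a := ⟨_, rfl⟩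
  obtain ⟨b', hbd⟩ : ∃ b', b' = M.relabel (Equiv.optionCongr (optionSum R' N'))
    (M.relabel (optionSum (Option R') N') b) := ⟨_, rfl⟩
  obtain ⟨c', hc'⟩ : ∃ c', c' = M.relabel (optionSum R'' N'') c := ⟨_, rfl⟩
  have key := hM.glue_assoc' (rfl : g₁ + g₂ = _) (rfl : g₂ + g₃ = _)
    (Nat.add_assoc g₁ g₂ g₃) rfl a' b' c'
  have hb : M.relabel (optionSum (Option R') N') b =
      M.relabel (Equiv.optionCongr (optionSum R' N').symm) b' := by
    rw [hbd, hM.relabel_relabel (Equiv.optionCongr (optionSum R' N'))]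
    have : (Equiv.optionCongr (optionSum R' N')).trans
        (Equiv.optionCongr (optionSum R' N').symm) = Equiv.refl _ := by
      apply Equiv.ext
      rintro (_ | n)
      · rfl
      · simp
    rw [this, hM.relabel_refl]
  have hb' : M.relabel (optionSum (Option R') N')
      (M.relabel ((optionSwap R').sumCongr (Equiv.refl N')) b) =
      M.relabel (Equiv.optionCongr (optionSum R' N').symm)
        (M.relabel (optionSwap (R' ⊕ N')) b') := by
    rw [hbd]
    simp only [hM.relabel_relabel]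
    apply relabel_eq_of
    rintro ((_ | _ | r) | n) <;> rfl
  unfold CurveMaps.glc
  rw [castG_relabel, castG_glue, hb, hb', ← ha', ← hc', hM.relabel_glue_left,
    hM.relabel_glue_right]
  -- left hand side
  have hL : M.relabel (optionSum (R ⊕ R') (N ⊕ N'))
      (M.relabel ((sumOption R R').sumCongr (Equiv.refl (N ⊕ N')))
        (M.relabel (Equiv.sumSumSumComm R N (Option R') N')
          (M.relabel ((Equiv.refl (R ⊕ N)).sumCongr (optionSum R' N').symm)
            (M.glue rfl a' b')))) =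
      M.relabel (Equiv.optionCongr (Equiv.sumSumSumComm R N R' N'))
        (M.relabel (sumOption (R ⊕ N) (R' ⊕ N')) (M.glue rfl a' b')) := by
    simp only [hM.relabel_relabel]
    apply relabel_eq_of
    rintro ((r | n) | (_ | r | n)) <;> rfl
  have hR : M.relabel (optionSum (R' ⊕ R'') (N' ⊕ N''))
      (M.relabel ((optionSum R' R'').sumCongr (Equiv.refl (N' ⊕ N'')))
        (M.relabel (Equiv.sumSumSumComm (Option R') N' R'' N'')
          (M.relabel ((optionSum R' N').symm.sumCongr (Equiv.refl (R'' ⊕ N'')))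
            (M.glue rfl (M.relabel (optionSwap (R' ⊕ N')) b') c')))) =
      M.relabel (Equiv.optionCongr (Equiv.sumSumSumComm R' N' R'' N''))
        (M.relabel (optionSum (R' ⊕ N') (R'' ⊕ N''))
          (M.glue rfl (M.relabel (optionSwap (R' ⊕ N')) b') c')) := by
    simp only [hM.relabel_relabel]
    apply relabel_eq_of
    rintro ((_ | r | n) | (r | n)) <;> rfl
  rw [hL, hR, hM.relabel_glue_left, hM.relabel_glue_right, ← key]
  simp only [hM.relabel_relabel]
  apply relabel_eq_of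
  rintro (((r | n) | (r | n)) | (r | n)) <;> rfl

/-- `glc` as a bilinear map. -/
noncomputable def glcₗ {g₁ g₂ : ℕ} {R R' N N' : Type} :
    M.H g₁ (Option R ⊕ N) →ₗ[ℚ] M.H g₂ (Option R' ⊕ N') →ₗ[ℚ]
      M.H (g₁ + g₂) ((R ⊕ R') ⊕ (N ⊕ N')) :=
  ((hM.glueₗ rfl).compl₁₂ (hM.forgetₗ (optionSum R N).symm.toEmbedding)
    (hM.forgetₗ (optionSum R' N').symm.toEmbedding)).compr₂
      (hM.forgetₗ (Equiv.sumSumSumComm R N R' N').symm.toEmbedding)

lemma glcₗ_apply {g₁ g₂ : ℕ} {R R' N N' : Type} (a : M.H g₁ (Option R ⊕ N))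
    (b : M.H g₂ (Option R' ⊕ N')) : glcₗ hM a b = M.glc a b := rfl

variable (hJ : IsIdeal M J)
include hJ

omit hM in
lemma glc_mem_left {g₁ g₂ : ℕ} {R R' N N' : Type} {a : M.H g₁ (Option R ⊕ N)}
    (b : M.H g₂ (Option R' ⊕ N')) (ha : a ∈ J g₁ (Option R ⊕ N)) :
    M.glc a b ∈ J (g₁ + g₂) ((R ⊕ R') ⊕ (N ⊕ N')) :=
  relabel_mem_ideal hJ _ (hJ.glue_left _ _ _ _ _ _ _ _ (relabel_mem_ideal hJ _ ha))

omit hM in
lemma glc_mem_right {g₁ g₂ : ℕ} {R R' N N' : Type} (a : M.H g₁ (Option R ⊕ N))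
    {b : M.H g₂ (Option R' ⊕ N')} (hb : b ∈ J g₂ (Option R' ⊕ N')) :
    M.glc a b ∈ J (g₁ + g₂) ((R ⊕ R') ⊕ (N ⊕ N')) :=
  relabel_mem_ideal hJ _ (hJ.glue_right _ _ _ _ _ _ _ _ (relabel_mem_ideal hJ _ hb))

lemma glc_comm_mod (hodd : ContainsOddGlue M J) {g₁ g₂ : ℕ} (h : g₁ + g₂ = g₂ + g₁)
    {R R' N N' : Type} (a : M.H g₁ (Option R ⊕ N)) (b : M.H g₂ (Option R' ⊕ N')) :
    M.relabel (Equiv.sumCongr (Equiv.sumComm R R') (Equiv.sumComm N N')) (castG h (M.glc a b)) -
      M.glc b a ∈ J (g₂ + g₁) ((R' ⊕ R) ⊕ (N' ⊕ N)) := by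
  unfold CurveMaps.glc
  rw [castG_relabel, castG_glue, hM.relabel_relabel]
  have h1 := glue_comm_mod hM hJ hodd ((rfl : g₁ + g₂ = _).trans h) rfl
    (M.relabel (optionSum R N) a) (M.relabel (optionSum R' N') b)
  have h2 := relabel_sub_mem hM hJ (Equiv.sumSumSumComm R' N' R N) h1
  rw [hM.relabel_relabel] at h2
  refine sub_mem_congr h2 ?_
  apply relabel_eq_of
  rintro ((r | n) | (r | n)) <;> rfl

end

section

variable (hM : CurveHomology M) (hJ : IsIdeal M J) (hodd : ContainsOddGlue M J) (C : Type)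

include hM hJ in
lemma map_rel {R R' : Type} (e : R ≃ R') (x y : Pre M C R) (h : Pre.Rel J x y) :
    Pre.Rel J (Pre.map e x) (Pre.map e y) := by
  obtain ⟨hg, f, hκ, ha⟩ := h
  refine ⟨hg, f, hκ, ?_⟩
  have := relabel_sub_mem hM hJ (Equiv.sumCongr e (Equiv.refl y.N)) ha
  simp only [Pre.map]
  rw [castG_relabel, hM.relabel_relabel]
  rw [hM.relabel_relabel] at this
  rwa [relabel_eq_of (f := (Equiv.sumCongr (Equiv.refl R) f).trans
    (Equiv.sumCongr e (Equiv.refl y.N)))]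
  rintro (r | n) <;> rfl

include hM hJ in
lemma gl_rel_right {R R' : Type} (x : Pre M C (Option R)) (y y' : Pre M C (Option R'))
    (h : Pre.Rel J y y') : Pre.Rel J (Pre.gl x y) (Pre.gl x y') := by
  obtain ⟨hg, f, hκ, ha⟩ := h
  refine ⟨congrArg (x.g + ·) hg, Equiv.sumCongr (Equiv.refl x.N) f, ?_, ?_⟩
  · rintro (n | n)
    · rfl
    · exact hκ n
  obtain ⟨g, N, fN, κ, a⟩ := y
  obtain ⟨g', N', fN', κ', a'⟩ := y'
  dsimp only [Pre.gl] at hg f hκ ha ⊢
  subst hg
  have h1 := glc_mem_right hJ x.a ha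
  rw [← glcₗ_apply hM, map_sub, glcₗ_apply, glcₗ_apply, castG_rfl,
    ← Equiv.optionCongr_refl, glc_relabel_right hM, Equiv.sumCongr_refl] at h1
  exact h1

include hM hJ in
lemma gl_rel_left {R R' : Type} (x x' : Pre M C (Option R)) (y : Pre M C (Option R'))
    (h : Pre.Rel J x x') : Pre.Rel J (Pre.gl x y) (Pre.gl x' y) := by
  obtain ⟨hg, f, hκ, ha⟩ := h
  refine ⟨congrArg (· + y.g) hg, Equiv.sumCongr f (Equiv.refl y.N), ?_, ?_⟩
  · rintro (n | n)
    · exact hκ n
    · rfl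
  obtain ⟨g, N, fN, κ, a⟩ := x
  obtain ⟨g', N', fN', κ', a'⟩ := x'
  dsimp only [Pre.gl] at hg f hκ ha ⊢
  subst hg
  have h1 := glc_mem_left hJ y.a ha
  have h2 : M.glc (M.relabel (Equiv.sumCongr (Equiv.refl (Option R)) f) a - a') y.a =
      M.glc (M.relabel (Equiv.sumCongr (Equiv.refl (Option R)) f) a) y.a - M.glc a' y.a := by
    rw [← glcₗ_apply hM, map_sub, LinearMap.sub_apply]
    rfl
  rw [castG_rfl, h2, ← Equiv.optionCongr_refl, glc_relabel_left hM, Equiv.sumCongr_refl] at h1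
  exact h1

/-- The classes with coloured legs form a `Graft`. -/
def stGraft : Graft.{1} where
  Q := St J C
  map := fun e => Quot.map (Pre.map e) (map_rel hM hJ C e)
  map_refl := by
    rintro R ⟨x⟩
    refine st_sound rfl (Equiv.refl x.N) (fun _ => rfl) (mem_of_eq ?_)
    rw [castG_rfl, hM.relabel_relabel]
    have : ((Equiv.refl R).sumCongr (Equiv.refl x.N)).trans
        ((Equiv.refl R).sumCongr (Equiv.refl x.N)) = Equiv.refl _ := by
      apply Equiv.ext
      rintro (r | n) <;> rfl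
    rw [this, hM.relabel_refl]
  map_map := by
    rintro R R' R'' e f ⟨x⟩
    refine st_sound rfl (Equiv.refl x.N) (fun _ => rfl) (mem_of_eq ?_)
    simp only [Pre.map]
    rw [castG_rfl, hM.relabel_relabel, hM.relabel_relabel]
    apply relabel_eq_of
    rintro (r | n) <;> rfl
  gl := fun {R R'} => Quot.map₂ Pre.gl (gl_rel_right hM hJ C) (gl_rel_left hM hJ C)
  gl_map := by
    rintro R R' S S' e f ⟨x⟩ ⟨y⟩
    refine st_sound rfl (Equiv.refl _) (fun _ => rfl) (mem_of_eq ?_)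
    change M.relabel (Equiv.sumCongr (Equiv.refl _) (Equiv.refl _))
      (M.glc (M.relabel (Equiv.sumCongr (Equiv.optionCongr e) (Equiv.refl x.N)) x.a)
        (M.relabel (Equiv.sumCongr (Equiv.optionCongr f) (Equiv.refl y.N)) y.a)) =
      M.relabel (Equiv.sumCongr (Equiv.sumCongr e f) (Equiv.refl _)) (M.glc x.a y.a)
    rw [glc_relabel hM, Equiv.sumCongr_refl, hM.relabel_refl, Equiv.sumCongr_refl]
  gl_comm := by
    rintro R R' ⟨x⟩ ⟨y⟩
    refine st_sound (Nat.add_comm x.g y.g) (Equiv.sumComm x.N y.N) ?_ ?_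
    · rintro (n | n) <;> rfl
    have h := glc_comm_mod hM hJ hodd (Nat.add_comm x.g y.g) x.a y.a
    refine sub_mem_congr h ?_
    change M.relabel _ (castG _ (M.relabel (Equiv.sumCongr (Equiv.sumComm R R')
      (Equiv.refl (x.N ⊕ y.N))) (M.glc x.a y.a))) = _
    rw [castG_relabel, hM.relabel_relabel]
    apply relabel_eq_of
    rintro ((r | r) | (n | n)) <;> rfl
  gl_assoc := by
    rintro R R' R'' ⟨x⟩ ⟨y⟩ ⟨z⟩
    refine st_sound (Nat.add_assoc x.g y.g z.g) (Equiv.sumAssoc x.N y.N z.N) ?_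
      (mem_of_eq ?_)
    · rintro ((n | n) | n) <;> rfl
    have h := glc_assoc hM x.a y.a z.a
    refine Eq.trans ?_ h
    change M.relabel _ (castG _ (M.relabel (Equiv.sumCongr (Equiv.sumAssoc R R' R'')
      (Equiv.refl ((x.N ⊕ y.N) ⊕ z.N))) (M.glc (M.relabel (Equiv.sumCongr (sumOption R R')
        (Equiv.refl (x.N ⊕ y.N))) (M.glc x.a y.a)) z.a))) = _
    rw [castG_relabel, hM.relabel_relabel]
    apply relabel_eq_of
    rintro (((r | r) | r) | ((n | n) | n)) <;> rfl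

end

end Run7.h225
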