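import Pool.Agent.Run7.h225.StateWeight
import Pool.Agent.Run7.h225.Raw

set_option autoImplicit false

namespace Run7.h225

variable {M : CurveMaps} {J : ∀ (g : ℕ) (S : Type), Submodule ℚ (M.H g S)}
  {g₀ : ℕ} {S₀ : Type}

namespace Setup

variable (D : Setup M J g₀ S₀)

/-- A class without legs. -/
def obj {g : ℕ} {S : Type} (a : M.H g S) : D.G.Q S :=
  D.st g (N := Empty) (fun n => n.elim) (M.relabel (Equiv.sumEmpty S Empty).symm a)

lemma obj_map {g : ℕ} {S T : Type} (e : S ≃ T) (a : M.H g S) :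
    D.G.map e (D.obj a) = D.obj (M.relabel e a) := by
  unfold obj
  rw [D.map_mk, D.hM.relabel_relabel, D.hM.relabel_relabel]
  congr 1
  apply relabel_eq_of
  intro s
  rfl

lemma obj_gl {g₁ g₂ g : ℕ} (h : g₁ + g₂ = g) {S T : Type} (a : M.H g₁ (Option S))
    (b : M.H g₂ (Option T)) : D.G.gl (D.obj a) (D.obj b) = D.obj (M.glue h a b) := by
  subst h
  unfold obj
  rw [D.gl_mk]
  refine (D.mk_relabel _ (fun n : Empty => n.elim) (Equiv.sumEmpty Empty Empty) ?_ _).trans ?_
  · rintro (n | n) <;> exact n.elim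
  congr 1
  unfold CurveMaps.glc
  have e1 : M.relabel (optionSum S Empty) (M.relabel (Equiv.sumEmpty (Option S) Empty).symm a) =
      M.relabel (Equiv.optionCongr (Equiv.sumEmpty S Empty).symm) a := by
    rw [D.hM.relabel_relabel]
    apply relabel_eq_of
    rintro (_ | s) <;> rfl
  have e2 : M.relabel (optionSum T Empty) (M.relabel (Equiv.sumEmpty (Option T) Empty).symm b) =
      M.relabel (Equiv.optionCongr (Equiv.sumEmpty T Empty).symm) b := by
    rw [D.hM.relabel_relabel]
    apply relabel_eq_of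
    rintro (_ | s) <;> rfl
  rw [e1, e2, D.hM.relabel_glue]
  simp only [D.hM.relabel_relabel]
  apply relabel_eq_of
  rintro (s | s) <;> rfl

lemma w_obj {g : ℕ} {S : Type} (a : M.H g S) : D.w (D.obj a) = g := by
  unfold obj
  rw [D.w_st]
  simp

/-- The pairing. -/
noncomputable def eta (y z : D.G.Y) : ℂ := D.val (D.G.pair y z)

lemma eta_eq_ev (y z : D.G.Y) : D.eta y z = D.ev y (fun _ => z) := by
  have h := D.G.tot_eq_pair y (fun e : Empty => e.elim) z
  have h2 : D.G.totRoot y (fun e : Empty => e.elim) = y := by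
    rw [D.G.totRoot_empty (Equiv.refl Empty), Equiv.optionCongr_refl, D.G.map_refl]
  rw [h2] at h
  unfold eta ev
  rw [← h]
  congr 2
  funext o
  rcases o with _ | o
  · rfl
  · exact o.elim

lemma eta_symm (y z : D.G.Y) : D.eta y z = D.eta z y := by
  unfold eta
  rw [D.G.pair_comm]

/-- The numbers from which the field theory is constructed. -/
noncomputable def raw {g : ℕ} {S : Type} [Finite S] (a : M.H g S) (τ : S → D.G.Y) : ℂ :=
  D.ev (D.obj a) τ

/-- Filling all slots but one. -/
noncomputable def root {g : ℕ} {S : Type} [Finite S] (a : M.H g (Option S)) (τ : S → D.G.Y) :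
    D.G.Y := D.G.totRoot (D.obj a) τ

lemma raw_root {g : ℕ} {S : Type} [Finite S] (a : M.H g (Option S)) (τ : S → D.G.Y)
    (y : D.G.Y) : D.raw a (consOpt τ y) = D.eta (D.root a τ) y := by
  unfold raw ev eta root
  rw [D.G.tot_eq_pair]

lemma raw_glue {g₁ g₂ g : ℕ} (h : g₁ + g₂ = g) {S T : Type} [Finite S] [Finite T]
    (a : M.H g₁ (Option S)) (b : M.H g₂ (Option T)) (τ : S → D.G.Y) (τ' : T → D.G.Y) :
    D.raw (M.glue h a b) (Sum.elim τ τ') = D.eta (D.root a τ) (D.root b τ') := by
  unfold raw ev eta root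
  rw [← D.obj_gl, D.G.tot_gl]

lemma raw_relabel {g : ℕ} {S T : Type} [Finite S] [Finite T] (e : S ≃ T) (a : M.H g S)
    (τ : T → D.G.Y) : D.raw (M.relabel e a) τ = D.raw a (τ ∘ e) := by
  unfold raw
  rw [← D.obj_map, D.ev_map]

lemma raw_add {g : ℕ} {S : Type} [Finite S] (a b : M.H g S) (τ : S → D.G.Y) :
    D.raw (a + b) τ = D.raw a τ + D.raw b τ := by
  unfold raw obj
  rw [D.hM.relabel_add, D.ev_add]

lemma raw_smul {g : ℕ} {S : Type} [Finite S] (c : ℚ) (a : M.H g S) (τ : S → D.G.Y) :
    D.raw (c • a) τ = c * D.raw a τ := by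
  unfold raw obj
  rw [D.hM.relabel_smul, D.ev_smul]

lemma raw_zero {g : ℕ} {S : Type} [Finite S] (τ : S → D.G.Y) :
    D.raw (0 : M.H g S) τ = 0 := by
  have := D.raw_smul 0 (0 : M.H g S) τ
  rwa [smul_zero, Rat.cast_zero, zero_mul] at this

lemma raw_selfGlue {g g' : ℕ} (h : g + 1 = g') {S : Type} [Finite S]
    (a : M.H g (Option (Option S))) (τ : S → D.G.Y) : D.raw (M.selfGlue h a) τ = 0 := by
  unfold raw obj
  have h1 : M.relabel (Equiv.sumEmpty S Empty).symm (M.selfGlue h a) - 0 ∈
      J g' (S ⊕ Empty) := by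
    rw [sub_zero]
    exact D.hJ.forget _ _ _ _ _ (D.hself g g' h S a)
  rw [D.mk_congr _ h1, D.ev_zero]

lemma raw_unit {g : ℕ} {S : Type} [Finite S] (hs : Stable g S) (a : M.H g (Option S))
    (τ : S → D.G.Y) : D.raw a (consOpt τ (D.xc none)) =
      D.raw (M.forget Function.Embedding.some a) τ := by
  unfold raw
  rw [D.ev_option]
  change D.ev (D.G.ins (D.obj a) (D.xc none)) τ = _
  unfold obj
  rw [D.ev_ins_xc]
  let j : Empty ↪ Option Empty := Function.Embedding.some
  have hs' : Stable g (S ⊕ Empty) := hs.congr (Equiv.sumEmpty S Empty).symm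
  rw [D.ev_drop (addCol (fun n : Empty => n.elim) none) j ?_ τ hs', forget_relabel D.hM,
    forget_relabel D.hM, relabel_forget D.hM]
  · congr 1
    have e1 : addCol (fun n : Empty => n.elim) (none : Option S₀) ∘ j = fun n => n.elim := by
      funext n
      exact n.elim
    rw [e1]
    congr 1
    apply forget_eq_of
    rintro (s | s)
    · rfl
    · exact s.elim
  · rintro (_ | n) _
    · rfl
    · exact n.elim

lemma raw_three (a : M.H 0 (Option (Option Unit))) (x y : D.G.Y) :
    D.raw a (consOpt (consOpt (fun _ => D.xc none) y) x) = M.aug a * D.eta x y := by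
  let e : Option (Option Unit) ≃ Option (Option (Option Empty)) :=
    { toFun := fun o => o.elim (some none) fun o => o.elim (some (some none)) fun _ => none
      invFun := fun o => o.elim (some (some ())) fun o => o.elim none fun _ => some none
      left_inv := by rintro (_ | _ | _) <;> rfl
      right_inv := by
        rintro (_ | _ | _ | o)
        · rfl
        · rfl
        · rfl
        · exact o.elim }
  let τ' : Option (Option (Option Empty)) → D.G.Y :=
    fun o => o.elim (D.xc none) fun o => o.elim x fun _ => y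
  have h1 : τ' ∘ e = consOpt (consOpt (fun _ => D.xc none) y) x := by
    funext o
    rcases o with _ | _ | o <;> rfl
  obtain ⟨g, N, _, κ, b, hb⟩ := D.exists_mk x
  have h2 : M.aug (M.relabel (slotLeg (Option (Option Empty)) Empty)
      (M.relabel (Equiv.sumEmpty (Option (Option (Option Empty))) Empty).symm
        (M.relabel e a))) = M.aug a := by
    have hst : ∀ T : Type, Nat.card T = 3 → Finite T → Stable 0 T := fun T h _ =>
      ⟨inferInstance, by omega⟩
    unfold CurveMaps.relabel
    rw [D.hM.aug_natural.1 _ _ _ _ _ (hst _ ?_ inferInstance),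
      D.hM.aug_natural.1 _ _ _ _ _ (hst _ ?_ inferInstance),
      D.hM.aug_natural.1 _ _ _ _ _ (hst _ ?_ inferInstance)]
    · simp
    · simp
    · simp
  rw [← h1, ← D.raw_relabel]
  unfold raw
  rw [D.ev_option]
  change D.ev (D.G.ins (D.obj (M.relabel e a)) (D.xc none)) _ = _
  unfold obj
  rw [D.ev_ins_xc, D.ev_option]
  change D.ev (D.G.ins _ x) (fun _ => y) = _
  rw [hb, D.ev_ins_unit, h2, D.eta_eq_ev]
  rintro (_ | n)
  · rfl
  · exact n.elim

lemma w_root {g : ℕ} {S : Type} [Fintype S] (a : M.H g (Option S)) (τ : S → D.G.Y) :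
    D.w (D.root a τ) = g + ∑ s, D.w (τ s) := by
  unfold root
  rw [D.w_totRoot, D.w_obj]

lemma w_eta (y z : D.G.Y) (h : D.eta y z ≠ 0) : D.w y + D.w z = g₀ + Nat.card S₀ := by
  rw [← D.w_pair]
  exact D.w_val _ h

lemma w_xu : D.w (D.xc none) = 0 := by
  unfold xc
  rw [D.w_st]
  have : IsEmpty {n : Bool // (cond n none none : Option S₀) ≠ none} := by
    refine ⟨fun n => n.2 ?_⟩
    rcases n.1 with _ | _ <;> rfl
  rw [Nat.card_of_isEmpty]

lemma w_zero (y : D.G.Y) (h : D.w y = 0) :
    ∃ c : ℂ, ∀ z, D.eta y z = c * D.eta (D.xc none) z := by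
  obtain ⟨g, N, _, κ, a, rfl⟩ := D.exists_mk y
  rw [D.w_st, Nat.add_eq_zero_iff] at h
  obtain ⟨hg, hN⟩ := h
  subst hg
  have hκ : ∀ n, κ n = none := by
    rw [Nat.card_eq_zero] at hN
    rcases hN with hN | hN
    · intro n
      by_contra hc
      exact hN.false ⟨n, hc⟩
    · exact absurd hN (not_infinite_iff_finite.2 inferInstance)
  by_cases hs : Stable 0 (Option Empty ⊕ N)
  · have hc := hs.2
    rw [Nat.card_sum, Finite.card_option, Nat.card_of_isEmpty] at hc
    have hc' : Nat.card Bool ≤ Nat.card N := by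
      rw [Nat.card_eq_fintype_card, Fintype.card_bool]
      omega
    obtain ⟨j⟩ : Nonempty (Bool ↪ N) := by
      have := Fintype.ofFinite N
      refine Function.Embedding.nonempty_of_card_le ?_
      rwa [← Nat.card_eq_fintype_card, ← Nat.card_eq_fintype_card]
    have hs' : Stable 0 (Option Empty ⊕ Bool) :=
      ⟨inferInstance, by simp⟩
    refine ⟨M.aug a, fun z => ?_⟩
    rw [D.eta_eq_ev, D.eta_eq_ev, D.ev_drop κ j (fun n _ => hκ n) _ hs']
    have h1 : M.forget (dropEmb (Option Empty) j) a = M.aug a • D.pt := by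
      refine D.hM.aug_degree.2.2 _ _ _ (by simp) ?_
      rw [D.hM.aug_natural.1 _ _ _ _ _ hs', D.hM.aug_smul, D.aug_pt, mul_one]
    rw [h1, D.ev_smul]
    unfold xc
    have h2 : κ ∘ j = fun b : Bool => cond b (none : Option S₀) none := by
      funext b
      rw [Function.comp_apply, hκ]
      rcases b with _ | _ <;> rfl
    rw [h2]
  · refine ⟨0, fun z => ?_⟩
    rw [D.hM.eq_zero_of_not_stable hs a, D.eta_eq_ev, D.ev_zero, zero_mul]

end Setup

end Run7.h225
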