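import Pool.Agent.Run7.h225.StateGraft

/-!
# Evaluation of classes with coloured legs
-/

set_option autoImplicit false

namespace Run7.h225

variable {M : CurveMaps} {J : ∀ (g : ℕ) (S : Type), Submodule ℚ (M.H g S)}

/-- Exactly one leg has the colour `some s`, namely `i s`. -/
def Sec {N S₀ : Type} (κ : N → Option S₀) (i : S₀ ↪ N) : Prop := ∀ n s, κ n = some s ↔ n = i s

lemma Sec.unique {N S₀ : Type} {κ : N → Option S₀} {i j : S₀ ↪ N} (hi : Sec κ i)
    (hj : Sec κ j) : i = j := by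
  ext s
  exact (hj _ _).1 ((hi _ _).2 rfl)

section

variable {g₀ : ℕ} {S₀ : Type} (α : M.H g₀ S₀ →ₗ[ℚ] ℚ)

open Classical in
/-- The value of a class without slots. -/
noncomputable def preVal (x : Pre M (Option S₀) (Fin 0)) : ℂ :=
  if h : ∃ (_ : x.g = g₀) (i : S₀ ↪ x.N), Sec x.κ i then
    ((α (M.forget (h.choose_spec.choose.trans Function.Embedding.inr)
      (castG h.choose x.a)) : ℚ) : ℂ)
  else 0

lemma preVal_eq {g : ℕ} {N : Type} {fN : Finite N} {κ : N → Option S₀}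
    {a : M.H g (Fin 0 ⊕ N)} (hg : g = g₀) (i : S₀ ↪ N) (hi : Sec κ i) :
    preVal α ⟨g, N, fN, κ, a⟩ =
      ((α (M.forget (i.trans Function.Embedding.inr) (castG hg a)) : ℚ) : ℂ) := by
  have h : ∃ (_ : (⟨g, N, fN, κ, a⟩ : Pre M (Option S₀) (Fin 0)).g = g₀)
    (i : S₀ ↪ (⟨g, N, fN, κ, a⟩ : Pre M (Option S₀) (Fin 0)).N),
      Sec (⟨g, N, fN, κ, a⟩ : Pre M (Option S₀) (Fin 0)).κ i := ⟨hg, i, hi⟩
  rw [preVal, dif_pos h]
  have := h.choose_spec.choose_spec.unique hi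
  rw [this]

lemma preVal_zero {g : ℕ} {N : Type} {fN : Finite N} {κ : N → Option S₀}
    {a : M.H g (Fin 0 ⊕ N)} (h : ¬ ∃ (_ : g = g₀) (i : S₀ ↪ N), Sec κ i) :
    preVal α ⟨g, N, fN, κ, a⟩ = 0 := dif_neg h

/-- The injection that drops the legs outside of the image of `j`. -/
abbrev dropEmb (R : Type) {N N' : Type} (j : N' ↪ N) : R ⊕ N' ↪ R ⊕ N :=
  (Function.Embedding.refl R).sumMap j

lemma sec_comp {N N' : Type} {κ : N → Option S₀} (j : N' ↪ N)
    (hj : ∀ n, (∀ n', n ≠ j n') → κ n = none) (i : S₀ ↪ N) (hi : Sec κ i) :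
    ∃ i' : S₀ ↪ N', Sec (κ ∘ j) i' ∧ i'.trans j = i := by
  have h1 : ∀ s, ∃ n', i s = j n' := by
    intro s
    by_contra hc
    have := hj (i s) fun n' h => hc ⟨n', h⟩
    rw [(hi (i s) s).2 rfl] at this
    exact Option.some_ne_none _ this
  choose f hf using h1
  refine ⟨⟨f, fun s s' h => i.injective (by rw [hf, hf, h])⟩, fun n s => ?_, ?_⟩
  · change κ (j n) = some s ↔ n = f s
    rw [hi, hf]
    exact ⟨fun h => j.injective h, fun h => by rw [h]⟩
  · ext s
    exact (hf s).symm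

lemma sec_trans {N N' : Type} {κ : N → Option S₀} (j : N' ↪ N)
    (hj : ∀ n, (∀ n', n ≠ j n') → κ n = none) (i : S₀ ↪ N') (hi : Sec (κ ∘ j) i) :
    Sec κ (i.trans j) := by
  intro n s
  constructor
  · intro h
    by_cases hn : ∃ n', n = j n'
    · obtain ⟨n', rfl⟩ := hn
      rw [(hi n' s).1 h]
      rfl
    · have := hj n fun n' h' => hn ⟨n', h'⟩
      rw [this] at h
      exact absurd h.symm (Option.some_ne_none s)
  · rintro rfl
    exact (hi (i s) s).2 rfl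

variable (hM : CurveHomology M) (hα : ∀ a ∈ J g₀ S₀, α a = 0)

include hM hα in
lemma preVal_drop (hJ : IsIdeal M J) {g g' : ℕ} (hg : g = g') {N N' : Type} {fN : Finite N}
    {fN' : Finite N'} {κ : N → Option S₀} {κ' : N' → Option S₀} (j : N' ↪ N)
    (hκ : ∀ n, κ (j n) = κ' n)
    (hj : ∀ n, (∀ n', n ≠ j n') → κ n = none) {a : M.H g (Fin 0 ⊕ N)} {a' : M.H g' (Fin 0 ⊕ N')}
    (ha : M.forget (dropEmb (Fin 0) j) (castG hg a) - a' ∈ J g' (Fin 0 ⊕ N')) :
    preVal α ⟨g, N, fN, κ, a⟩ = preVal α ⟨g', N', fN', κ', a'⟩ := by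
  have hκ' : κ ∘ j = κ' := funext hκ
  subst hκ' hg
  rw [castG_rfl] at ha
  by_cases h : ∃ (_ : g = g₀) (i : S₀ ↪ N), Sec κ i
  · obtain ⟨hg, i, hi⟩ := h
    subst hg
    obtain ⟨i', hi', hii⟩ := sec_comp j hj i hi
    rw [preVal_eq α rfl i hi, preVal_eq α rfl i' hi', castG_rfl, castG_rfl]
    have h1 := hα _ (hJ.forget _ _ _ (i'.trans Function.Embedding.inr) _ ha)
    have h2 : M.forget (i'.trans Function.Embedding.inr)
        (M.forget (dropEmb (Fin 0) j) a - a') =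
        M.forget (i'.trans Function.Embedding.inr) (M.forget (dropEmb (Fin 0) j) a) -
          M.forget (i'.trans Function.Embedding.inr) a' :=
      (hM.forgetₗ (i'.trans Function.Embedding.inr)).map_sub _ _
    rw [h2, map_sub, sub_eq_zero, hM.forget_forget] at h1
    rw [← h1, ← hii]
    rfl
  · rw [preVal_zero α h, preVal_zero α]
    rintro ⟨hg, i, hi⟩
    exact h ⟨hg, i.trans j, sec_trans j hj i hi⟩

include hM hα in
lemma preVal_rel (hJ : IsIdeal M J) (x y : Pre M (Option S₀) (Fin 0)) (h : Pre.Rel J x y) :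
    preVal α x = preVal α y := by
  obtain ⟨hg, e, hκ, ha⟩ := h
  refine preVal_drop α hM hα hJ hg e.symm.toEmbedding (fun n => ?_) (fun n hn => ?_) ?_
  · rw [← hκ]
    exact congrArg y.κ (e.apply_symm_apply n)
  · exact absurd (e.symm_apply_apply n).symm (hn (e n))
  · have e1 : (Equiv.sumCongr (Equiv.refl (Fin 0)) e).symm.toEmbedding =
        dropEmb (Fin 0) e.symm.toEmbedding := by
      ext o
      rcases o with o | o <;> rfl
    rw [← e1]
    exact ha

include hM in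
lemma preVal_lin {g : ℕ} {N : Type} (fN : Finite N) (κ : N → Option S₀) :
    ∃ L : M.H g (Fin 0 ⊕ N) →ₗ[ℚ] ℂ, ∀ a, L a = preVal α ⟨g, N, fN, κ, a⟩ := by
  by_cases h : ∃ (_ : g = g₀) (i : S₀ ↪ N), Sec κ i
  · obtain ⟨hg, i, hi⟩ := h
    subst hg
    refine ⟨(Algebra.linearMap ℚ ℂ).comp (α.comp (hM.forgetₗ
      (i.trans Function.Embedding.inr))), fun a => ?_⟩
    rw [preVal_eq α rfl i hi]
    rfl
  · exact ⟨0, fun a => (preVal_zero α h).symm⟩

end

end Run7.h225
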