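import Pool.Agent.Run7.h225.StateConv

/-!
# The weight: genus plus number of coloured legs
-/

set_option autoImplicit false

namespace Run7.h225

variable {M : CurveMaps} {J : ∀ (g : ℕ) (S : Type), Submodule ℚ (M.H g S)}
  {g₀ : ℕ} {S₀ : Type}

/-- Genus plus number of coloured legs. -/
noncomputable def Pre.w {C R : Type} (x : Pre M (Option C) R) : ℕ :=
  x.g + Nat.card {n : x.N // x.κ n ≠ none}

lemma Pre.w_rel {C R : Type} (x y : Pre M (Option C) R) (h : Pre.Rel J x y) : x.w = y.w := by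
  obtain ⟨hg, e, hκ, _⟩ := h
  unfold Pre.w
  rw [hg]
  congr 1
  exact Nat.card_congr (Equiv.subtypeEquiv e fun n => by rw [hκ])

namespace Setup

variable (D : Setup M J g₀ S₀)

/-- Genus plus number of coloured legs. -/
noncomputable def w {R : Type} (x : D.G.Q R) : ℕ := Quot.lift Pre.w Pre.w_rel x

lemma w_st {R : Type} (g : ℕ) {N : Type} [Finite N] (κ : N → Option S₀) (a : M.H g (R ⊕ N)) :
    D.w (D.st g κ a) = g + Nat.card {n // κ n ≠ none} := rfl

lemma w_map {R R' : Type} (e : R ≃ R') (x : D.G.Q R) : D.w (D.G.map e x) = D.w x := by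
  obtain ⟨g, N, _, κ, a, rfl⟩ := D.exists_mk x
  rw [D.map_mk, D.w_st, D.w_st]

lemma w_gl {R R' : Type} (x : D.G.Q (Option R)) (y : D.G.Q (Option R')) :
    D.w (D.G.gl x y) = D.w x + D.w y := by
  obtain ⟨g, N, _, κ, a, rfl⟩ := D.exists_mk x
  obtain ⟨g', N', _, κ', b, rfl⟩ := D.exists_mk y
  rw [D.gl_mk, D.w_st, D.w_st, D.w_st]
  have e : {n // Sum.elim κ κ' n ≠ none} ≃ {n // κ n ≠ none} ⊕ {n // κ' n ≠ none} :=
    Equiv.subtypeSum
  rw [Nat.card_congr e, Nat.card_sum]
  omega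

lemma w_ins {R : Type} (x : D.G.Q (Option R)) (y : D.G.Y) :
    D.w (D.G.ins x y) = D.w x + D.w y := by
  rw [Graft.ins, D.w_map, D.w_gl]

lemma w_pair (y z : D.G.Y) : D.w (D.G.pair y z) = D.w y + D.w z := by
  rw [Graft.pair, D.w_map, D.w_ins]

lemma w_val (x : D.G.Q (Fin 0)) (h : D.val x ≠ 0) : D.w x = g₀ + Nat.card S₀ := by
  obtain ⟨g, N, _, κ, a, rfl⟩ := D.exists_mk x
  rw [D.w_st]
  by_cases hs : ∃ (_ : g = g₀) (i : S₀ ↪ N), Sec κ i
  · obtain ⟨hg, i, hi⟩ := hs
    rw [hg]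
    congr 1
    refine (Nat.card_congr ?_).symm
    refine Equiv.ofBijective (fun s => ⟨i s, by rw [(hi (i s) s).2 rfl]; simp⟩) ⟨?_, ?_⟩
    · intro s s' h
      exact i.injective (congrArg Subtype.val h)
    · rintro ⟨n, hn⟩
      obtain ⟨s, hs⟩ := Option.ne_none_iff_exists'.1 hn
      exact ⟨s, Subtype.ext ((hi n s).1 hs).symm⟩
  · exact absurd (preVal_zero D.α hs) h

lemma w_totRoot {S : Type} [Fintype S] (x : D.G.Q (Option S)) (τ : S → D.G.Y) :
    D.w (D.G.totRoot x τ) = D.w x + ∑ s, D.w (τ s) := by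
  have key : ∀ (S : Type) [Fintype S], ∀ (x : D.G.Q (Option S)) (τ : S → D.G.Y),
      D.w (D.G.totRoot x τ) = D.w x + ∑ s, D.w (τ s) := by
    intro S _
    refine Fintype.induction_empty_option (P := fun S _ => ∀ (x : D.G.Q (Option S))
      (τ : S → D.G.Y), D.w (D.G.totRoot x τ) = D.w x + ∑ s, D.w (τ s)) ?_ ?_ ?_ S
    · intro S T _ e ih x τ
      let _ : Fintype S := Fintype.ofEquiv T e.symm
      have hx : x = D.G.map (Equiv.optionCongr e) (D.G.map (Equiv.optionCongr e.symm) x) := by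
        rw [D.G.map_map]
        have : ((Equiv.optionCongr e.symm).trans (Equiv.optionCongr e)) = Equiv.refl _ := by
          apply Equiv.ext
          rintro (_ | s)
          · rfl
          · simp
        rw [this, D.G.map_refl]
      conv_lhs => rw [hx]
      rw [D.G.totRoot_map, ih, D.w_map]
      congr 1
      exact Fintype.sum_equiv e _ _ fun s => rfl
    · intro x τ
      rw [D.G.totRoot_empty (Equiv.equivOfIsEmpty PEmpty Empty), D.w_map]
      simp
    · intro S _ ih x τ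
      rw [D.G.totRoot_option, ih, D.w_ins, D.w_map, Fintype.sum_option]
      simp only [Function.comp_apply]
      omega
  exact key S x τ

end Setup

end Run7.h225
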