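import Pool.Agent.Run7.h225.Graft
import Pool.Agent.Run7.h225.Ideal

/-!
# Classes with coloured legs

Classes `a ∈ H_*(M̄_{g, R ⊔ N})` where the markings in `R` are open slots and the markings in the
finite set `N` carry colours, up to renaming the markings in `N` and up to elements of an ideal `J`.
-/

set_option autoImplicit false

namespace Run7.h225

variable {M : CurveMaps}

/-- Transport along an equality of genera. -/
def castG {g g' : ℕ} (h : g = g') {S : Type} (a : M.H g S) : M.H g' S := h ▸ a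

lemma castG_rfl {g : ℕ} {S : Type} (a : M.H g S) : castG rfl a = a := rfl

lemma castG_glue {g₁ g₂ g g' : ℕ} (h : g₁ + g₂ = g) (h' : g = g') {S T : Type}
    (a : M.H g₁ (Option S)) (b : M.H g₂ (Option T)) :
    castG h' (M.glue h a b) = M.glue (h.trans h') a b := by
  subst h'
  rfl

lemma castG_forget {g g' : ℕ} (h : g = g') {S T : Type} (i : T ↪ S) (a : M.H g S) :
    castG h (M.forget i a) = M.forget i (castG h a) := by
  subst h
  rfl

lemma castG_relabel {g g' : ℕ} (h : g = g') {S T : Type} (e : S ≃ T) (a : M.H g S) :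
    castG h (M.relabel e a) = M.relabel e (castG h a) := castG_forget h _ a

/-- A class with slots `R` and coloured legs `N`. -/
structure Pre (M : CurveMaps) (C R : Type) where
  g : ℕ
  N : Type
  fin : Finite N
  κ : N → C
  a : M.H g (R ⊕ N)

variable (J : ∀ (g : ℕ) (S : Type), Submodule ℚ (M.H g S))

/-- Two classes with coloured legs are identified. -/
def Pre.Rel {C R : Type} (x y : Pre M C R) : Prop :=
  ∃ (hg : x.g = y.g) (e : x.N ≃ y.N), (∀ n, y.κ (e n) = x.κ n) ∧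
    M.relabel (Equiv.sumCongr (Equiv.refl R) e) (castG hg x.a) - y.a ∈ J y.g (R ⊕ y.N)

/-- Classes with coloured legs. -/
def St (C R : Type) : Type 1 := Quot (Pre.Rel (C := C) (R := R) J)

section

variable {J} {C : Type}

lemma st_sound {R : Type} {g g' : ℕ} {N N' : Type} {fN : Finite N} {fN' : Finite N'}
    {κ : N → C} {κ' : N' → C} {a : M.H g (R ⊕ N)} {a' : M.H g' (R ⊕ N')} (hg : g = g')
    (e : N ≃ N') (hκ : ∀ n, κ' (e n) = κ n)
    (ha : M.relabel (Equiv.sumCongr (Equiv.refl R) e) (castG hg a) - a' ∈ J g' (R ⊕ N')) :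
    (Quot.mk _ ⟨g, N, fN, κ, a⟩ : St J C R) = Quot.mk _ ⟨g', N', fN', κ', a'⟩ :=
  Quot.sound ⟨hg, e, hκ, ha⟩

/-- Renaming the slots. -/
def Pre.map {R R' : Type} (e : R ≃ R') (x : Pre M C R) : Pre M C R' :=
  ⟨x.g, x.N, x.fin, x.κ, M.relabel (Equiv.sumCongr e (Equiv.refl x.N)) x.a⟩

/-- Gluing along the slots `none` of two classes with legs. -/
def _root_.Run7.h225.CurveMaps.glc (M : CurveMaps) {g₁ g₂ : ℕ} {R R' N N' : Type}
    (a : M.H g₁ (Option R ⊕ N)) (b : M.H g₂ (Option R' ⊕ N')) :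
    M.H (g₁ + g₂) ((R ⊕ R') ⊕ (N ⊕ N')) :=
  M.relabel (Equiv.sumSumSumComm R N R' N')
    (M.glue rfl (M.relabel (optionSum R N) a) (M.relabel (optionSum R' N') b))

/-- Gluing along the slots `none`. -/
def Pre.gl {R R' : Type} (x : Pre M C (Option R)) (y : Pre M C (Option R')) : Pre M C (R ⊕ R') :=
  ⟨x.g + y.g, x.N ⊕ y.N, @Finite.instSum x.N y.N x.fin y.fin, Sum.elim x.κ y.κ, M.glc x.a y.a⟩

end

section

variable {J} (hM : CurveHomology M) (hJ : IsIdeal M J)
include hM hJ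

omit hM in
lemma relabel_mem_ideal {g : ℕ} {S T : Type} (e : S ≃ T) {a : M.H g S} (ha : a ∈ J g S) :
    M.relabel e a ∈ J g T := hJ.forget _ _ _ _ _ ha

lemma relabel_sub_mem {g : ℕ} {S T : Type} (e : S ≃ T) {a b : M.H g S} (h : a - b ∈ J g S) :
    M.relabel e a - M.relabel e b ∈ J g T := by
  have := relabel_mem_ideal hJ e h
  rwa [sub_eq_add_neg, hM.relabel_add, hM.relabel_neg, ← sub_eq_add_neg] at this

lemma glue_sub_mem_left {g₁ g₂ g : ℕ} (h : g₁ + g₂ = g) {S T : Type} {a a' : M.H g₁ (Option S)}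
    (b : M.H g₂ (Option T)) (ha : a - a' ∈ J g₁ (Option S)) :
    M.glue h a b - M.glue h a' b ∈ J g (S ⊕ T) := by
  have := hJ.glue_left g₁ g₂ g h S T _ b ha
  rwa [sub_eq_add_neg, hM.glue_add_left, hM.glue_neg_left, ← sub_eq_add_neg] at this

lemma glue_sub_mem_right {g₁ g₂ g : ℕ} (h : g₁ + g₂ = g) {S T : Type} (a : M.H g₁ (Option S))
    {b b' : M.H g₂ (Option T)} (hb : b - b' ∈ J g₂ (Option T)) :
    M.glue h a b - M.glue h a b' ∈ J g (S ⊕ T) := by
  have := hJ.glue_right g₁ g₂ g h S T a _ hb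
  have e : M.glue h a (b - b') = M.glue h a b - M.glue h a b' :=
    (hM.glueₗ h a).map_sub b b'
  rwa [e] at this

/-- Modulo an ideal that contains the products of odd classes, gluing is symmetric. -/
lemma glue_comm_mod (hodd : ContainsOddGlue M J) {g₁ g₂ g : ℕ} (h : g₁ + g₂ = g)
    (h' : g₂ + g₁ = g) {S T : Type} (a : M.H g₁ (Option S)) (b : M.H g₂ (Option T)) :
    M.relabel (Equiv.sumComm S T) (M.glue h a b) - M.glue h' b a ∈ J g (T ⊕ S) := by
  have hhom : ∀ p q : ℕ, ∀ a ∈ M.deg g₁ (Option S) p, ∀ b ∈ M.deg g₂ (Option T) q,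
      M.relabel (Equiv.sumComm S T) (M.glue h a b) - M.glue h' b a ∈ J g (T ⊕ S) := by
    intro p q a ha b hb
    rcases Nat.even_or_odd (p * q) with hpq | hpq
    · rw [hM.glue_comm g₁ g₂ g h h' S T p q a b ha hb, hpq.neg_one_pow, one_smul, sub_self]
      exact Submodule.zero_mem _
    · obtain ⟨hp, hq⟩ := Nat.odd_mul.1 hpq
      exact Submodule.sub_mem _ (relabel_mem_ideal hJ _ (hodd _ _ _ h _ _ p q a b hp hq ha hb))
        (hodd _ _ _ h' _ _ q p b a hq hp hb ha)
  have ha : a ∈ ⨆ d, M.deg g₁ (Option S) d := by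
    rw [(hM.isGraded g₁ (Option S)).2.2]
    trivial
  have hb : b ∈ ⨆ d, M.deg g₂ (Option T) d := by
    rw [(hM.isGraded g₂ (Option T)).2.2]
    trivial
  let F : M.H g₁ (Option S) →ₗ[ℚ] M.H g₂ (Option T) →ₗ[ℚ] M.H g (T ⊕ S) :=
    (hM.glueₗ h).compr₂ (hM.forgetₗ (Equiv.sumComm S T).symm.toEmbedding) -
      (hM.glueₗ h').flip
  have hF : ∀ a b, F a b = M.relabel (Equiv.sumComm S T) (M.glue h a b) - M.glue h' b a :=
    fun a b => rfl
  rw [← hF]
  have h1 : ∀ p : ℕ, ∀ a ∈ M.deg g₁ (Option S) p, F a b ∈ J g (T ⊕ S) := by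
    intro p a ha
    have : (⨆ d, M.deg g₂ (Option T) d) ≤ (J g (T ⊕ S)).comap (F a) :=
      iSup_le fun q b hb => by
        rw [Submodule.mem_comap, hF]
        exact hhom p q a ha b hb
    exact this hb
  have : (⨆ d, M.deg g₁ (Option S) d) ≤ (J g (T ⊕ S)).comap (F.flip b) :=
    iSup_le fun p a ha => by
      rw [Submodule.mem_comap]
      exact h1 p a ha
  exact this ha

end

end Run7.h225
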